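import Pool.Agent.LHA.Defs

/-!
# Perron eigenvector (Mathlib only)

Let `n = |V|`. If `V` has one vertex take `q = 1`, `lam = 0`. In general: work in
`EuclideanSpace ℝ V`; the operator `A x = (v ↦ ∑ y, (H.neighborSet v).indicator x y)` is self-adjoint
(symmetric matrix). The function `x ↦ ⟪A x, x⟫` attains its maximum `lam` on the unit sphere (compact,
nonempty) at some `x`. The vector `|x|` is also on the unit sphere and `⟪A |x|, |x|⟫ ≥ ⟪A x, x⟫`, so it
is also a maximiser. A maximiser of the Rayleigh quotient on the unit sphere is an eigenvector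
(`IsSelfAdjoint.eq_smul_self_of_isLocalExtrOn`, `IsSelfAdjoint.hasEigenvector_of_isMaxOn` or
`LinearMap.IsSymmetric...` in `Mathlib/Analysis/InnerProductSpace/Rayleigh.lean`; or directly: for all
`y` and small `ε` use `⟪A(x+εy), x+εy⟫ ≤ lam ‖x+εy‖²` and compare the terms linear in `ε`).
So `A q = lam q` with `q = |x| ≥ 0`, `q ≠ 0`. If `q v = 0` then the sum of `q` over the neighbours of
`v` is `lam * 0 = 0`, so `q` vanishes at all neighbours of `v`; by connectedness (`hc.preconnected`,
induction along a walk) `q = 0`, a contradiction. So `q > 0`.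
-/

namespace Pool.Agent.LHA

open Pool.Agent.LIH

open Classical in
theorem Perron_aux {V : Type} [Fintype V] (A : Matrix V V ℝ) (hs : A.IsSymm) (h0 : ∀ u v, 0 ≤ A u v)
    (hd : ∀ v, A v v = 0) [Nonempty V] :
    ∃ (q : V → ℝ) (lam : ℝ), (∀ x, 0 ≤ q x) ∧ (∑ x, q x ^ 2 = 1) ∧ A.mulVec q = lam • q := by
  set f : (V → ℝ) → ℝ := fun z => z ⬝ᵥ A.mulVec z with hf
  set S : Set (V → ℝ) := {z | ∑ x, z x ^ 2 = 1} with hS
  have hfc : Continuous f := by
    have h1 : Continuous fun z : V → ℝ => A.mulVec z := by fun_prop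
    exact Continuous.dotProduct continuous_id h1
  have hSc : IsCompact S := by
    apply Metric.isCompact_of_isClosed_isBounded
    · exact isClosed_eq (by fun_prop) continuous_const
    · rw [isBounded_iff_forall_norm_le]
      refine ⟨1, fun z hz => ?_⟩
      rw [pi_norm_le_iff_of_nonneg zero_le_one]
      intro x
      have h1 : z x ^ 2 ≤ ∑ y, z y ^ 2 := Finset.single_le_sum (fun y _ => sq_nonneg (z y)) (Finset.mem_univ x)
      replace hz : ∑ x, z x ^ 2 = 1 := hz
      rw [hz] at h1
      rw [Real.norm_eq_abs]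
      exact (sq_le_one_iff_abs_le_one _).1 h1
  have hSn : S.Nonempty := by
    obtain ⟨v⟩ := ‹Nonempty V›
    refine ⟨Pi.single v 1, ?_⟩
    change ∑ x, (Pi.single v (1 : ℝ) : V → ℝ) x ^ 2 = 1
    rw [Finset.sum_eq_single v]
    · simp
    · intro b _ hb
      simp [hb]
    · simp
  obtain ⟨x, hxS, hx⟩ := hSc.exists_isMaxOn hSn hfc.continuousOn
  set q : V → ℝ := fun v => |x v| with hq
  have hqS : q ∈ S := by
    change ∑ v, |x v| ^ 2 = 1
    simp only [sq_abs]
    exact hxS
  have hqx : f x ≤ f q := by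
    simp only [hf, dotProduct, Matrix.mulVec, Finset.mul_sum]
    refine Finset.sum_le_sum fun u _ => Finset.sum_le_sum fun v _ => ?_
    have h1 : x u * (A u v * x v) = A u v * (x u * x v) := by ring
    have h2 : q u * (A u v * q v) = A u v * (q u * q v) := by ring
    rw [h1, h2]
    refine mul_le_mul_of_nonneg_left ?_ (h0 u v)
    rw [hq, ← abs_mul]
    exact le_abs_self _
  set lam : ℝ := f q with hlam
  have hmax : ∀ z : V → ℝ, f z ≤ lam * ∑ v, z v ^ 2 := by
    intro z
    by_cases hz : ∑ v, z v ^ 2 = 0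
    · have h1 : z = 0 := by
        funext v
        have := (Finset.sum_eq_zero_iff_of_nonneg (fun v _ => sq_nonneg (z v))).1 hz v (Finset.mem_univ v)
        exact pow_eq_zero_iff (two_ne_zero) |>.1 this
      rw [hz, h1]
      simp [hf]
    · have hpos : 0 < ∑ v, z v ^ 2 := lt_of_le_of_ne (Finset.sum_nonneg fun v _ => sq_nonneg (z v)) (Ne.symm hz)
      set r := Real.sqrt (∑ v, z v ^ 2) with hr
      have hr0 : 0 < r := Real.sqrt_pos.2 hpos
      have hr2 : r ^ 2 = ∑ v, z v ^ 2 := Real.sq_sqrt hpos.le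
      have h1 : (r⁻¹ • z) ∈ S := by
        change ∑ v, (r⁻¹ • z) v ^ 2 = 1
        simp only [Pi.smul_apply, smul_eq_mul, mul_pow]
        rw [← Finset.mul_sum, ← hr2]
        field_simp
      have h2 : f (r⁻¹ • z) ≤ lam := (hx h1).trans hqx
      have h3 : f (r⁻¹ • z) = (r⁻¹) ^ 2 * f z := by
        simp only [hf, Matrix.mulVec_smul, dotProduct_smul, smul_dotProduct, smul_eq_mul]
        ring
      rw [h3] at h2
      rw [← hr2]
      have h4 : f z = r ^ 2 * (r⁻¹ ^ 2 * f z) := by field_simp
      rw [h4]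
      nlinarith [mul_le_mul_of_nonneg_left h2 (sq_nonneg r)]
  refine ⟨q, lam, fun v => abs_nonneg _, hqS, ?_⟩
  funext v
  rw [Pi.smul_apply, smul_eq_mul]
  have hsum : ∑ w, q w ^ 2 = 1 := hqS
  have key : ∀ ε : ℝ, 2 * ε * (A.mulVec q v - lam * q v) ≤ lam * ε ^ 2 := by
    intro ε
    have h1 := hmax (q + ε • Pi.single v 1)
    have h2 : f (q + ε • Pi.single v 1) = f q + 2 * ε * A.mulVec q v := by
      have e1 : (Pi.single v (1 : ℝ) : V → ℝ) ⬝ᵥ A.mulVec q = A.mulVec q v := by simp
      have e2 : q ⬝ᵥ A.mulVec (Pi.single v (1 : ℝ)) = A.mulVec q v := by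
        rw [Matrix.dotProduct_mulVec, ← Matrix.mulVec_transpose, hs.eq]
        simp
      have e3 : (Pi.single v (1 : ℝ) : V → ℝ) ⬝ᵥ A.mulVec (Pi.single v (1 : ℝ)) = 0 := by
        simp [hd v]
      simp only [hf, Matrix.mulVec_add, Matrix.mulVec_smul, dotProduct_add, add_dotProduct, dotProduct_smul,
        smul_dotProduct, smul_eq_mul]
      rw [e1, e2, e3]
      ring
    have h3 : ∑ w, (q + ε • (Pi.single v (1 : ℝ) : V → ℝ)) w ^ 2 = 1 + 2 * ε * q v + ε ^ 2 := by
      have : ∀ w, (q + ε • (Pi.single v (1 : ℝ) : V → ℝ)) w ^ 2 = q w ^ 2 + if w = v then 2 * ε * q v + ε ^ 2 else 0 := by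
        intro w
        by_cases hw : w = v
        · subst hw
          simp
          ring
        · simp [hw]
      simp only [this]
      rw [Finset.sum_add_distrib, hsum]
      simp
      ring
    rw [h2, h3] at h1
    nlinarith [h1]
  have hl := key
  by_contra hne
  have hD : A.mulVec q v - lam * q v ≠ 0 := sub_ne_zero.2 hne
  set D := A.mulVec q v - lam * q v with hDdef
  have k1 := key (D / (|lam| + 1))
  have hp : 0 < |lam| + 1 := by positivity
  have k2 : 2 * (D / (|lam| + 1)) * D = 2 * D ^ 2 / (|lam| + 1) := by ring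
  have k3 : lam * (D / (|lam| + 1)) ^ 2 ≤ D ^ 2 / (|lam| + 1) := by
    rw [div_pow, mul_div_assoc', div_le_div_iff₀ (by positivity) hp]
    have : lam ≤ |lam| + 1 := (le_abs_self lam).trans (by linarith)
    have h5 : 0 ≤ D ^ 2 * (|lam| + 1) := by positivity
    nlinarith [mul_le_mul_of_nonneg_right this h5]
  have k4 : 0 < D ^ 2 / (|lam| + 1) := by positivity
  have k5 : 2 * D ^ 2 / (|lam| + 1) = 2 * (D ^ 2 / (|lam| + 1)) := by ring
  rw [k2, k5] at k1
  linarith

theorem perron {V : Type} [Fintype V] {H : SimpleGraph V} (hc : H.Connected) :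
    ∃ (q : V → ℝ) (lam : ℝ), (∀ x, 0 < q x) ∧
      ∀ x, ∑ y, (H.neighborSet x).indicator q y = lam * q x := by
  classical
  have hne : Nonempty V := hc.nonempty
  obtain ⟨q, lam, hq0, hq1, hq⟩ := Perron_aux (H.adjMatrix ℝ) H.isSymm_adjMatrix
    (fun u v => by rw [SimpleGraph.adjMatrix_apply]; split_ifs <;> simp)
    (fun v => by simp)
  have hs : ∀ x, ∑ y, (H.neighborSet x).indicator q y = lam * q x := by
    intro x
    have h1 := congrFun hq x
    rw [Pi.smul_apply, smul_eq_mul] at h1
    rw [← h1]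
    simp only [Matrix.mulVec, dotProduct, SimpleGraph.adjMatrix_apply, Set.indicator_apply,
      SimpleGraph.mem_neighborSet]
    refine Finset.sum_congr rfl fun y _ => ?_
    split_ifs <;> simp
  refine ⟨q, lam, ?_, hs⟩
  have hprop : ∀ u v, H.Adj u v → q u = 0 → q v = 0 := by
    intro u v huv hu
    have h1 := hs u
    rw [hu, mul_zero] at h1
    have h2 := (Finset.sum_eq_zero_iff_of_nonneg (fun y _ => ?_)).1 h1 v (Finset.mem_univ v)
    · rwa [Set.indicator_of_mem (show v ∈ H.neighborSet u from huv)] at h2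
    · exact Set.indicator_nonneg (fun y _ => hq0 y) y
  have hwalk : ∀ u v, ∀ _ : H.Walk u v, q u = 0 → q v = 0 := by
    intro u v w
    induction w with
    | nil => exact fun h => h
    | cons h _ ih => exact fun h' => ih (hprop _ _ h h')
  intro x
  rcases (hq0 x).lt_or_eq with h | h
  · exact h
  · exfalso
    have hall : ∀ v, q v = 0 := by
      intro v
      obtain ⟨w⟩ := hc.preconnected x v
      exact hwalk x v w h.symm
    have : ∑ x, q x ^ 2 = 0 := Finset.sum_eq_zero fun v _ => by rw [hall v]; norm_num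
    rw [this] at hq1
    exact zero_ne_one hq1

end Pool.Agent.LHA
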