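import Pool.Agent.LHA.Defs
import Pool.Agent.LHA.Perron

/-!
# Deep vertices are good

Let `q, lam` be as in `perron`, `n = |V|` (`V` is a `Fintype` classically), `N = n * n + 1`.
Let `P, p, δ, f` be as in the theorem, `ψ u = q (f u) / q (p u)`. `ψ` takes at most `n * n` values
(it depends on `(f u, p u)` only); let `rk u` be the number of values of `ψ` that are `< ψ u`
(`Set.ncard` of a subset of the finite range of `ψ`), so `rk u ≤ n * n - 1` (the value `ψ u` itself is not
counted).
Claim: for all `u` with `rk u + 2 ≤ δ u`: `Srj H P f u`, and `ψ v = ψ u` for all `v` adjacent to `u` in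
`P`. Induction on `rk u`. We have `2 ≤ δ u`, so `p` is a bijection from the neighbours of `u` to the
neighbours of `p u` (`full`, `li`), so
  `∑_{v ∼ u} ψ v * q (p v) = ∑_{v ∼ u} q (f v) ≤ ∑_{y ∼ f u} q y = lam * q (f u)` (`f` is injective on the
neighbours of `u` and maps them to neighbours of `f u`, `q > 0`), and
  `∑_{v ∼ u} q (p v) = lam * q (p u)`.
If `ψ v < ψ u` for some `v ∼ u` then `rk v < rk u` and `δ v ≥ δ u - 1 ≥ rk u + 1 ≥ rk v + 2`
(`lip`), so by induction `ψ` is constant on the neighbours of `v`, `ψ u = ψ v`: contradiction. So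
`ψ v ≥ ψ u` for all `v ∼ u`, and
  `lam * q (f u) = ψ u * lam * q (p u) = ψ u * ∑ q (p v) ≤ ∑ ψ v * q (p v) ≤ lam * q (f u)`:
equality everywhere, so `ψ v = ψ u` for all `v ∼ u` and (as `q > 0`) every neighbour `y` of `f u` is `f v`
for some `v ∼ u`.
Finally `δ u ≥ N` implies `rk u + 2 ≤ n * n + 1 ≤ δ u`.
-/

namespace Pool.Agent.LHA

open Pool.Agent.LIH

theorem Deep_sum {V : Type} [Fintype V] [DecidableEq V] (H : SimpleGraph V) [DecidableRel H.Adj] (q : V → ℝ)
    (x : V) : ∑ y, (H.neighborSet x).indicator q y = ∑ y ∈ Finset.univ.filter (fun y => H.Adj x y), q y := by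
  rw [Finset.sum_filter]
  refine Finset.sum_congr rfl fun y _ => ?_
  by_cases h : H.Adj x y
  · rw [if_pos h, Set.indicator_of_mem (show y ∈ H.neighborSet x from h)]
  · rw [if_neg h, Set.indicator_of_notMem (show y ∉ H.neighborSet x from h)]

theorem deep {V : Type} [Finite V] {H : SimpleGraph V} (hc : H.Connected) :
    ∃ N : ℕ, ∀ (W : Type) (_ : Finite W) (P : SimpleGraph W) (p : W → V) (δ : W → ℕ),
      Dp H P p δ → ∀ f : W → V, LocInj P H f → ∀ u, N ≤ δ u → Srj H P f u := by
  classical
  have : Fintype V := Fintype.ofFinite V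
  obtain ⟨q, lam, hq, hlam⟩ := perron hc
  have hlam' : ∀ x, ∑ y ∈ Finset.univ.filter (fun y => H.Adj x y), q y = lam * q x := by
    intro x
    rw [← Deep_sum, hlam]
  set Vals : Finset ℝ := Finset.univ.image (fun xy : V × V => q xy.1 / q xy.2) with hVals
  refine ⟨Vals.card + 2, ?_⟩
  intro W hW P p δ hD f hf u₀ hu₀
  have : Fintype W := Fintype.ofFinite W
  set ψ : W → ℝ := fun u => q (f u) / q (p u) with hψ
  have hψV : ∀ u, ψ u ∈ Vals := by
    intro u
    rw [hVals, Finset.mem_image]
    exact ⟨(f u, p u), Finset.mem_univ _, rfl⟩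
  set rk : W → ℕ := fun u => (Vals.filter (· < ψ u)).card with hrk
  have hψq : ∀ u, ψ u * q (p u) = q (f u) := by
    intro u
    have := hq (p u)
    simp only [hψ]
    field_simp
  have key : ∀ k : ℕ, ∀ u, rk u = k → rk u + 2 ≤ δ u → Srj H P f u ∧ ∀ v, P.Adj u v → ψ v = ψ u := by
    intro k
    induction k using Nat.strong_induction_on with
    | _ k ih =>
      intro u hk hδ
      -- no neighbour has a smaller value
      have hge : ∀ v, P.Adj u v → ψ u ≤ ψ v := by
        intro v huv
        by_contra hlt
        rw [not_le] at hlt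
        have h1 : rk v < rk u := by
          apply Finset.card_lt_card
          refine ⟨?_, ?_⟩
          · intro y hy
            rw [Finset.mem_filter] at hy ⊢
            exact ⟨hy.1, hy.2.trans hlt⟩
          · intro hsub
            have h2 : ψ v ∈ Vals.filter (· < ψ u) := by
              rw [Finset.mem_filter]
              exact ⟨hψV v, hlt⟩
            have h3 := hsub h2
            rw [Finset.mem_filter] at h3
            exact lt_irrefl _ h3.2
        have h2 := hD.lip u v huv
        have h3 := (ih (rk v) (by omega) v rfl (by omega)).2 u huv.symm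
        rw [h3] at hlt
        exact lt_irrefl _ hlt
      set S : Finset W := Finset.univ.filter (fun v => P.Adj u v) with hS
      have hmem : ∀ v, v ∈ S ↔ P.Adj u v := by
        intro v
        rw [hS, Finset.mem_filter]
        simp
      -- the sum over p
      have hp : ∑ v ∈ S, q (p v) = lam * q (p u) := by
        rw [← hlam' (p u)]
        refine Finset.sum_bij (fun v _ => p v) ?_ ?_ ?_ ?_
        · intro v hv
          rw [Finset.mem_filter]
          exact ⟨Finset.mem_univ _, hD.li.1 u v ((hmem v).1 hv)⟩
        · intro v hv v' hv' he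
          exact hD.li.2 u ((hmem v).1 hv) ((hmem v').1 hv') he
        · intro y hy
          rw [Finset.mem_filter] at hy
          obtain ⟨v, hv1, hv2⟩ := hD.full u (by omega) y hy.2
          exact ⟨v, (hmem v).2 hv1, hv2⟩
        · intro v _
          rfl
      -- the sum over f
      have hfS : ∑ v ∈ S, q (f v) = ∑ y ∈ S.image f, q y := by
        rw [Finset.sum_image]
        intro v hv v' hv' he
        exact hf.2 u ((hmem v).1 hv) ((hmem v').1 hv') he
      have hsub : S.image f ⊆ Finset.univ.filter (fun y => H.Adj (f u) y) := by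
        intro y hy
        rw [Finset.mem_image] at hy
        obtain ⟨v, hv, rfl⟩ := hy
        rw [Finset.mem_filter]
        exact ⟨Finset.mem_univ _, hf.1 u v ((hmem v).1 hv)⟩
      have hle : ∑ v ∈ S, q (f v) ≤ lam * q (f u) := by
        rw [hfS, ← hlam' (f u)]
        exact Finset.sum_le_sum_of_subset_of_nonneg hsub fun y _ _ => (hq y).le
      have hlow : lam * q (f u) ≤ ∑ v ∈ S, q (f v) := by
        have h1 : lam * q (f u) = ∑ v ∈ S, ψ u * q (p v) := by
          rw [← Finset.mul_sum, hp, ← hψq u]
          ring
        rw [h1]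
        refine Finset.sum_le_sum fun v hv => ?_
        rw [← hψq v]
        exact mul_le_mul_of_nonneg_right (hge v ((hmem v).1 hv)) (hq _).le
      have heq : ∑ v ∈ S, q (f v) = lam * q (f u) := le_antisymm hle hlow
      refine ⟨?_, ?_⟩
      · intro y hy
        by_contra hn
        push Not at hn
        have h1 : y ∉ S.image f := by
          intro hy'
          rw [Finset.mem_image] at hy'
          obtain ⟨v, hv, hvy⟩ := hy'
          exact hn v ((hmem v).1 hv) hvy
        have h2 : ∑ y ∈ S.image f, q y < ∑ y ∈ Finset.univ.filter (fun y => H.Adj (f u) y), q y := by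
          refine Finset.sum_lt_sum_of_subset hsub (i := y) ?_ h1 (hq y) fun y _ _ => (hq y).le
          rw [Finset.mem_filter]
          exact ⟨Finset.mem_univ _, hy⟩
        rw [← hfS, hlam' (f u), heq] at h2
        exact lt_irrefl _ h2
      · intro v huv
        have h1 : ∑ v ∈ S, (ψ v - ψ u) * q (p v) = 0 := by
          have e : ∀ v ∈ S, (ψ v - ψ u) * q (p v) = q (f v) - ψ u * q (p v) := by
            intro v _
            rw [sub_mul, hψq v]
          rw [Finset.sum_congr rfl e, Finset.sum_sub_distrib, heq, ← Finset.mul_sum, hp, ← hψq u]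
          ring
        rw [Finset.sum_eq_zero_iff_of_nonneg] at h1
        · have h2 := h1 v ((hmem v).2 huv)
          rcases mul_eq_zero.1 h2 with h3 | h3
          · linarith
          · exact absurd h3 (hq _).ne'
        · intro v hv
          exact mul_nonneg (sub_nonneg.2 (hge v ((hmem v).1 hv))) (hq _).le
  have hrk0 : rk u₀ ≤ Vals.card := Finset.card_le_card (Finset.filter_subset _ _)
  exact (key _ u₀ rfl (by omega)).1

end Pool.Agent.LHA
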