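import Pool.Agent.LHA.Defs
import Pool.Agent.LHA.Deep

/-!
# Colour refinement at deep vertices

`N = max N' 2` with `N'` from `deep`. Induction on `k`. `k = 0` trivial. `k + 1`: let `N + k + 1 ≤ δ u`.
By induction `crel k (f u) (p u)`. `u` satisfies `Srj` and `2 ≤ δ u`, so `v ↦ f v` is a bijection from the
`P`-neighbours of `u` to the neighbours of `f u` (`LocInj`, `Srj`) and `v ↦ p v` is a bijection to the
neighbours of `p u` (`Dp.li`, `Dp.full`). Let `φ (f v) = p v` (`Equiv.ofBijective`, composition). As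
`δ v ≥ δ u - 1 ≥ N + k` (`lip`), the induction hypothesis gives `crel k (f v) (p v)`.
-/

namespace Pool.Agent.LHA

open Pool.Agent.LIH

theorem crel_deep {V : Type} [Finite V] {H : SimpleGraph V} (hc : H.Connected) :
    ∃ N : ℕ, ∀ (W : Type) (_ : Finite W) (P : SimpleGraph W) (p : W → V) (δ : W → ℕ),
      Dp H P p δ → ∀ f : W → V, LocInj P H f → ∀ (k : ℕ) (u : W), N + k ≤ δ u →
        crel H k (f u) (p u) := by
  obtain ⟨N', hN'⟩ := deep hc
  refine ⟨max N' 2, fun W hW P p δ hD f hf k => ?_⟩
  have h1 := le_max_left N' 2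
  have h2 := le_max_right N' 2
  induction k with
  | zero => intro u _; trivial
  | succ k ih =>
    intro u hu
    refine ⟨ih u (by omega), ?_⟩
    have hs := hN' W hW P p δ hD f hf u (by omega)
    let F : P.neighborSet u → H.neighborSet (f u) := fun v => ⟨f v.1, hf.1 u v.1 v.2⟩
    have hF : Function.Bijective F := by
      constructor
      · intro v v' h
        apply Subtype.ext
        exact hf.2 u v.2 v'.2 (congrArg Subtype.val h)
      · rintro ⟨y, hy⟩
        obtain ⟨v, hv, rfl⟩ := hs y hy
        exact ⟨⟨v, hv⟩, rfl⟩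
    let G : P.neighborSet u → H.neighborSet (p u) := fun v => ⟨p v.1, hD.li.1 u v.1 v.2⟩
    have hG : Function.Bijective G := by
      constructor
      · intro v v' h
        apply Subtype.ext
        exact hD.li.2 u v.2 v'.2 (congrArg Subtype.val h)
      · rintro ⟨y, hy⟩
        obtain ⟨v, hv, rfl⟩ := hD.full u (by omega) y hy
        exact ⟨⟨v, hv⟩, rfl⟩
    refine ⟨(Equiv.ofBijective F hF).symm.trans (Equiv.ofBijective G hG), fun z => ?_⟩
    obtain ⟨v, rfl⟩ := hF.2 z
    have h3 : (Equiv.ofBijective F hF).symm (F v) = v := Equiv.ofBijective_symm_apply_apply F hF v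
    rw [Equiv.trans_apply, h3]
    have h4 := hD.lip u v.1 v.2
    exact ih v.1 (by omega)

end Pool.Agent.LHA
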