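import Pool.Agent.LHA.Defs

/-!
# Colour refinement becomes stable

`crel H k` is an equivalence relation (induction on `k`) and `crel H (k+1)` implies `crel H k`. The sets
`E k = {(x, y) | crel H k x y}` of pairs form a decreasing sequence of subsets of the finite set `V × V`, so
`E k = E (k + 1)` for some `k` (otherwise the cardinality decreases forever). Choose `κ : V → ℕ` with
`κ x = κ y ↔ crel H k x y` (e.g. a numbering `V ≃ Fin n` composed with the quotient: `κ x` = the number of a chosen
representative of the class of `x`: `Quotient.out`). Then `Equit H κ`: if `κ x = κ y` then `crel (k+1) x y`, so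
there is a bijection `φ : N(x) ≃ N(y)` with `crel k z (φ z)`, i.e. `κ z = κ (φ z)`: it maps
`N(x) ∩ {κ = c}` onto `N(y) ∩ {κ = c}`; equal `ncard`. By `ClsD` `κ` is injective, so `crel H k x y → x = y`.
-/

namespace Pool.Agent.LHA

open Pool.Agent.LIH

theorem CRStab_refl {V : Type} (H : SimpleGraph V) (k : ℕ) (x : V) : crel H k x x := by
  induction k generalizing x with
  | zero => trivial
  | succ k ih => exact ⟨ih x, Equiv.refl _, fun z => ih z.1⟩

theorem CRStab_symm {V : Type} (H : SimpleGraph V) (k : ℕ) (x y : V) (h : crel H k x y) :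
    crel H k y x := by
  induction k generalizing x y with
  | zero => trivial
  | succ k ih =>
    obtain ⟨h1, φ, h2⟩ := h
    refine ⟨ih _ _ h1, φ.symm, fun z => ?_⟩
    have h3 := h2 (φ.symm z)
    rw [Equiv.apply_symm_apply] at h3
    exact ih _ _ h3

theorem CRStab_trans {V : Type} (H : SimpleGraph V) (k : ℕ) (x y z : V) (h : crel H k x y)
    (h' : crel H k y z) : crel H k x z := by
  induction k generalizing x y z with
  | zero => trivial
  | succ k ih =>
    obtain ⟨h1, φ, h2⟩ := h
    obtain ⟨h1', ψ, h2'⟩ := h'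
    exact ⟨ih _ _ _ h1 h1', φ.trans ψ, fun w => ih _ _ _ (h2 w) (h2' (φ w))⟩

theorem crel_stab {V : Type} [Finite V] {H : SimpleGraph V} (hD : ClsD H) :
    ∃ k, ∀ x y, crel H k x y → x = y := by
  classical
  -- stable step
  obtain ⟨k, hk⟩ : ∃ k, ∀ x y, crel H k x y → crel H (k + 1) x y := by
    by_contra hcon
    push Not at hcon
    let E : ℕ → Set (V × V) := fun k => {q | crel H k q.1 q.2}
    have hE : StrictAnti E := by
      apply strictAnti_nat_of_succ_lt
      intro k
      refine ⟨fun q hq => hq.1, fun hsub => ?_⟩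
      obtain ⟨x, y, h1, h2⟩ := hcon k
      exact h2 (hsub (show (x, y) ∈ E k from h1))
    exact not_injective_infinite_finite E hE.injective
  refine ⟨k, ?_⟩
  let s : Setoid V := ⟨crel H k, CRStab_refl H k, fun {x y} => CRStab_symm H k x y,
    fun {x y z} => CRStab_trans H k x y z⟩
  obtain ⟨n, ⟨e⟩⟩ := Finite.exists_equiv_fin (Quotient s)
  let κ : V → ℕ := fun x => (e (Quotient.mk s x)).1
  have hκ : ∀ x y, κ x = κ y ↔ crel H k x y := by
    intro x y
    constructor
    · intro h
      exact Quotient.exact (e.injective (Fin.ext h))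
    · intro h
      have h1 : Quotient.mk s x = Quotient.mk s y := Quotient.sound h
      change (e (Quotient.mk s x)).1 = (e (Quotient.mk s y)).1
      rw [h1]
  have hEq : Equit H κ := by
    intro x y hxy c
    obtain ⟨-, φ, hφ⟩ := hk x y ((hκ x y).1 hxy)
    refine Set.ncard_congr (fun z hz => (φ ⟨z, hz.1⟩).1) ?_ ?_ ?_
    · intro z hz
      refine ⟨(φ ⟨z, hz.1⟩).2, ?_⟩
      have h1 := (hκ _ _).2 (hφ ⟨z, hz.1⟩)
      have h2 : κ z = c := hz.2
      exact h1.symm.trans h2
    · intro z w hz hw h
      have h1 : φ ⟨z, hz.1⟩ = φ ⟨w, hw.1⟩ := Subtype.ext h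
      exact congrArg Subtype.val (φ.injective h1)
    · intro w hw
      have h1 := hφ (φ.symm ⟨w, hw.1⟩)
      rw [Equiv.apply_symm_apply] at h1
      have h2 : κ w = c := hw.2
      refine ⟨(φ.symm ⟨w, hw.1⟩).1, ⟨(φ.symm ⟨w, hw.1⟩).2, ?_⟩, ?_⟩
      · exact ((hκ _ _).2 h1).trans h2
      · rw [Subtype.coe_eta, Equiv.apply_symm_apply]
  intro x y hxy
  exact hD κ hEq ((hκ x y).2 hxy)

end Pool.Agent.LHA
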