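import Pool.Agent.LHA.Defs

/-!
# Adjacency of the free vertices

Everything by unfolding `B` (`SimpleGraph.fromRel_adj`), `fv`, `en`, `L`, `len`; note
`(D.fv i p).2.1 = p % len = p` if `p < len`, and `m1 + 1, m2, j ≤ len`.
`B_arm`: consecutive vertices of an arm. `B_01`: first vertices of the arms 0 and 1.
`B_cases`: all neighbours of a vertex: if `B.Adj x y` then both have a position below `L`, and `y` is the
successor or the predecessor of `x` on the same arm, or the pair is `{(0,0), (1,0)}` with `0 < m2`.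
`en_*`: the ends.
-/

namespace Pool.Agent.LHA

open Pool.Agent.LIH

namespace Kit

variable {V : Type} {H : SimpleGraph V} (D : Kit H)

theorem L_le (i : Fin 3) : D.L i ≤ D.len := by
  fin_cases i
  · change D.m1 + 1 ≤ D.m1 + D.m2 + D.j + 1
    omega
  · change D.m2 ≤ D.m1 + D.m2 + D.j + 1
    omega
  · change D.j ≤ D.m1 + D.m2 + D.j + 1
    omega

theorem CellL_eta (x : Fin 3 × Fin D.len) : D.fv x.1 x.2.1 = x := by
  obtain ⟨i, p⟩ := x
  refine Prod.ext rfl (Fin.ext ?_)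
  exact Nat.mod_eq_of_lt p.2

theorem fv_val (i : Fin 3) {p : ℕ} (hp : p < D.L i) : (D.fv i p).2.1 = p :=
  Nat.mod_eq_of_lt (lt_of_lt_of_le hp (D.L_le i))

theorem fv_inj {i i' : Fin 3} {p p' : ℕ} (hp : p < D.L i) (hp' : p' < D.L i')
    (h : D.fv i p = D.fv i' p') : i = i' ∧ p = p' := by
  refine ⟨congrArg Prod.fst h, ?_⟩
  rw [← D.fv_val i hp, ← D.fv_val i' hp', h]

theorem B_arm (i : Fin 3) {p : ℕ} (hp : p + 1 < D.L i) : D.B.Adj (D.fv i p) (D.fv i (p + 1)) := by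
  unfold B
  rw [SimpleGraph.fromRel_adj]
  refine ⟨?_, Or.inl (Or.inl ⟨rfl, ?_, ?_⟩)⟩
  · intro h
    have := (D.fv_inj (by omega) hp h).2
    omega
  · rw [D.fv_val i hp, D.fv_val i (by omega)]
  · rw [D.fv_val i hp]
    exact hp

theorem B_01 (h : 0 < D.m2) : D.B.Adj (D.fv 0 0) (D.fv 1 0) := by
  unfold B
  rw [SimpleGraph.fromRel_adj]
  refine ⟨?_, Or.inl (Or.inr ⟨rfl, ?_, rfl, ?_, h⟩)⟩
  · intro h
    have := congrArg Prod.fst h
    exact absurd this (by change (0 : Fin 3) ≠ 1; decide)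
  · exact Nat.zero_mod _
  · exact Nat.zero_mod _

theorem B_cases {x y : Fin 3 × Fin D.len} (h : D.B.Adj x y) :
    (∃ i p, p + 1 < D.L i ∧ x = D.fv i p ∧ y = D.fv i (p + 1)) ∨
    (∃ i p, p + 1 < D.L i ∧ x = D.fv i (p + 1) ∧ y = D.fv i p) ∨
    (0 < D.m2 ∧ x = D.fv 0 0 ∧ y = D.fv 1 0) ∨ (0 < D.m2 ∧ x = D.fv 1 0 ∧ y = D.fv 0 0) := by
  unfold B at h
  rw [SimpleGraph.fromRel_adj] at h
  rcases h with ⟨-, (⟨h1, h2, h3⟩ | ⟨h1, h2, h3, h4, h5⟩) | (⟨h1, h2, h3⟩ | ⟨h1, h2, h3, h4, h5⟩)⟩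
  · left
    refine ⟨x.1, x.2.1, h2 ▸ h3, (D.CellL_eta x).symm, ?_⟩
    rw [← h2, h1]
    exact (D.CellL_eta y).symm
  · right; right; left
    refine ⟨h5, ?_, ?_⟩
    · rw [← D.CellL_eta x, h1, h2]
    · rw [← D.CellL_eta y, h3, h4]
  · right; left
    refine ⟨y.1, y.2.1, h2 ▸ h3, ?_, (D.CellL_eta y).symm⟩
    rw [← h2, h1]
    exact (D.CellL_eta x).symm
  · right; right; right
    refine ⟨h5, ?_, ?_⟩
    · rw [← D.CellL_eta x, h3, h4]
    · rw [← D.CellL_eta y, h1, h2]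

theorem F_sub (i : Fin 4) : D.F i ⊆ H.neighborSet (D.a i) := by
  fin_cases i
  · rintro _ ⟨b, rfl⟩
    exact D.adj_w b
  · rintro _ ⟨b, rfl⟩
    exact D.adj_t b
  · rintro _ ⟨b, rfl⟩
    exact D.adj_s b
  · rintro _ ⟨b, rfl⟩
    exact D.adj_Y b

theorem F_ssub (i : Fin 4) : D.F i ⊂ H.neighborSet (D.a i) := by
  refine ⟨D.F_sub i, fun h => ?_⟩
  fin_cases i
  · obtain ⟨c, hc, hn⟩ := D.free_w
    obtain ⟨b, hb⟩ := h hc
    exact hn b hb.symm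
  · obtain ⟨c, hc, hn⟩ := D.free_t
    obtain ⟨b, hb⟩ := h hc
    exact hn b hb.symm
  · obtain ⟨c, hc, hn⟩ := D.free_s
    obtain ⟨b, hb⟩ := h hc
    exact hn b hb.symm
  · obtain ⟨c, hc, hn⟩ := D.free_Y
    obtain ⟨b, hb⟩ := h hc
    exact hn b hb.symm

/-- the values of `R` -/
theorem R_vals : ¬ D.R false 0 ∧ D.R false 1 ∧ D.R false 2 ∧ D.R true 0 :=
  ⟨D.cl0, D.cl1, D.cl2, D.cl3⟩

end Kit

end Pool.Agent.LHA
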