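import Pool.Agent.LHA.Defs

/-!
# Non-backtracking walks

`rch_add`: induction on `n` (last steps). `rch_front`: induction on `m` (base: `Rch 1 x y a b` iff `y = a`,
`H.Adj a b`, `b ≠ x`), or from `rch_add` with `1 + m`. `rch_adj`: by cases on `m`. `rch_pred`: every dart has a
predecessor since the degrees are at least 2 (predecessors of `(a, b)`: `(z, a)` with `z ∼ a`, `z ≠ b`); use
`rch_front` for the induction. `rch_succ`: same with successors. `rch_seq`: induction on `m`, by
`rch`'s recursion: extend the sequence `g` by `g (m+2) = b` (`Function.update`).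
-/

namespace Pool.Agent.LHA

open Pool.Agent.LIH

variable {V : Type} {H : SimpleGraph V}

theorem rch_adj {m : ℕ} {x y a b : V} (h : H.Adj x y) (hr : Rch H m x y a b) : H.Adj a b := by
  cases m with
  | zero =>
    obtain ⟨rfl, rfl⟩ := hr
    exact h
  | succ m =>
    obtain ⟨z, -, h1, -⟩ := hr
    exact h1

theorem rch_add {m n : ℕ} {x y a b : V} :
    Rch H (m + n) x y a b ↔ ∃ c d, Rch H m x y c d ∧ Rch H n c d a b := by
  induction n generalizing a b with
  | zero =>
    constructor
    · intro h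
      exact ⟨a, b, h, rfl, rfl⟩
    · rintro ⟨c, d, h, rfl, rfl⟩
      exact h
  | succ n ih =>
    constructor
    · rintro ⟨z, h1, h2, h3⟩
      obtain ⟨c, d, h4, h5⟩ := ih.1 h1
      exact ⟨c, d, h4, z, h5, h2, h3⟩
    · rintro ⟨c, d, h4, z, h5, h2, h3⟩
      exact ⟨z, ih.2 ⟨c, d, h4, h5⟩, h2, h3⟩

theorem rch_front {m : ℕ} {x y a b : V} (h : H.Adj x y) :
    Rch H (m + 1) x y a b ↔ ∃ z, H.Adj y z ∧ z ≠ x ∧ Rch H m y z a b := by
  have key : ∀ c d, Rch H 1 x y c d ↔ c = y ∧ H.Adj y d ∧ d ≠ x := by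
    intro c d
    constructor
    · rintro ⟨z, ⟨rfl, rfl⟩, h2, h3⟩
      exact ⟨rfl, h2, h3⟩
    · rintro ⟨rfl, h2, h3⟩
      exact ⟨x, ⟨rfl, rfl⟩, h2, h3⟩
  rw [Nat.add_comm m 1, rch_add]
  constructor
  · rintro ⟨c, d, h1, h2⟩
    obtain ⟨rfl, h3, h4⟩ := (key c d).1 h1
    exact ⟨d, h3, h4, h2⟩
  · rintro ⟨z, h3, h4, h2⟩
    exact ⟨y, z, (key y z).2 ⟨rfl, h3, h4⟩, h2⟩

theorem rch_pred (h2 : ∀ v, 2 ≤ (H.neighborSet v).ncard) (m : ℕ) {a b : V} (h : H.Adj a b) :
    ∃ x y, H.Adj x y ∧ Rch H m x y a b := by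
  induction m generalizing a b with
  | zero => exact ⟨a, b, h, rfl, rfl⟩
  | succ m ih =>
    have : ∃ z ∈ H.neighborSet a, z ≠ b := by
      by_contra hcon
      push Not at hcon
      have hsub : H.neighborSet a ⊆ {b} := fun z hz => hcon z hz
      have := Set.ncard_le_ncard hsub
      rw [Set.ncard_singleton] at this
      have := h2 a
      omega
    obtain ⟨z, hz, hne⟩ := this
    obtain ⟨x, y, h3, h4⟩ := ih (SimpleGraph.Adj.symm (show H.Adj a z from hz))
    exact ⟨x, y, h3, z, h4, h, fun e => hne e.symm⟩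

theorem rch_succ (h2 : ∀ v, 2 ≤ (H.neighborSet v).ncard) (m : ℕ) {x y : V} (h : H.Adj x y) :
    ∃ a b, Rch H m x y a b := by
  induction m with
  | zero => exact ⟨x, y, rfl, rfl⟩
  | succ m ih =>
    obtain ⟨a, b, h3⟩ := ih
    have : ∃ z ∈ H.neighborSet b, z ≠ a := by
      by_contra hcon
      push Not at hcon
      have hsub : H.neighborSet b ⊆ {a} := fun z hz => hcon z hz
      have := Set.ncard_le_ncard hsub
      rw [Set.ncard_singleton] at this
      have := h2 b
      omega
    obtain ⟨z, hz, hne⟩ := this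
    exact ⟨b, z, a, h3, hz, hne⟩

theorem rch_seq {m : ℕ} {x y a b : V} (h : H.Adj x y) :
    Rch H m x y a b ↔ ∃ g : ℕ → V, g 0 = x ∧ g 1 = y ∧ g m = a ∧ g (m + 1) = b ∧
      (∀ p ≤ m, H.Adj (g p) (g (p + 1))) ∧ ∀ p < m, g p ≠ g (p + 2) := by
  induction m generalizing a b with
  | zero =>
    constructor
    · rintro ⟨rfl, rfl⟩
      refine ⟨fun p => if p = 0 then a else b, by simp, by simp, by simp, by simp, ?_, ?_⟩
      · intro p hp
        obtain rfl : p = 0 := by omega
        simpa using h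
      · intro p hp
        omega
    · rintro ⟨g, h1, h2, h3, h4, -, -⟩
      exact ⟨by rw [← h3, h1], by rw [← h4, h2]⟩
  | succ m ih =>
    constructor
    · rintro ⟨z, h1, h2, h3⟩
      obtain ⟨g, g0, g1, gm, gm1, hadj, hne⟩ := ih.1 h1
      refine ⟨fun p => if p ≤ m + 1 then g p else b, by simp [g0], ?_, ?_, by simp, ?_, ?_⟩
      · simp [g1]
      · simp [gm1]
      · intro p hp
        by_cases hp' : p ≤ m
        · have e1 : p ≤ m + 1 := by omega
          have e2 : p + 1 ≤ m + 1 := by omega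
          simp only [e1, e2, if_true]
          exact hadj p hp'
        · obtain rfl : p = m + 1 := by omega
          simp only [le_refl, if_true, show ¬ (m + 1 + 1 ≤ m + 1) by omega, if_false]
          rw [gm1]
          exact h2
      · intro p hp
        by_cases hp' : p < m
        · have e1 : p ≤ m + 1 := by omega
          have e2 : p + 2 ≤ m + 1 := by omega
          simp only [e1, e2, if_true]
          exact hne p hp'
        · obtain rfl : p = m := by omega
          simp only [show p ≤ p + 1 by omega, if_true, show ¬ (p + 2 ≤ p + 1) by omega, if_false]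
          rw [gm]
          exact fun e => h3 e.symm
    · rintro ⟨g, g0, g1, gm, gm1, hadj, hne⟩
      refine ⟨g m, ih.2 ⟨g, g0, g1, rfl, gm, fun p hp => hadj p (by omega),
        fun p hp => hne p (by omega)⟩, ?_, ?_⟩
      · have := hadj (m + 1) le_rfl
        rwa [gm, gm1] at this
      · have := hne m (by omega)
        rw [show m + 2 = m + 1 + 1 by omega, gm1] at this
        exact fun e => this e.symm

end Pool.Agent.LHA
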