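import Pool.Agent.LHA.Defs
import Pool.Agent.LHA.Nb1
import Pool.Agent.LHA.CellL

/-!
# From a solution to a colouring

Let `s, y` be a solution. For every cell `k` let `b = s k`; if `k` is linked by `lk 2` put `i = y k`, otherwise `i = 0` if `b`
is true and `i = 1` if `b` is false; in all cases `R b i` (`R_vals`). Take from `tri_complete` `y1, z1`, and by `rch_seq`
the sequences `g1` (`g1 0 = w b`, `g1 1 = y1`, `g1 m1 = t b`, `g1 (m1+1) = u`), `g2` (`g2 0 = w b`, `g2 1 = z1`,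
`g2 m2 = D.s b`, `g2 (m2+1) = U`), `g3` (`g3 0 = v`, `g3 1 = w (!b)`, `g3 j = Y i`, `g3 (j+1) = X`).
`c k (0, p) = g1 p`, `c k (1, p) = g2 (p+1)`, `c k (2, p) = g3 (p+1)` (for all `p`, also `p ≥ L`). Values at the ends:
`c k (en 0) = t b`, `c k (en 1) = D.s b` (if `m2 = 0` then `D.s b = g2 0 = w b = g1 0`), `c k (en 2) = Y i` (`j ≥ 1`).
`hom`: `B_cases`. `inj`: two different neighbours of a vertex (`B_cases`): predecessor and successor: `g p ≠ g (p+2)`; for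
`(0,0)`: `(0,1)` and `(1,0)`: `y1 ≠ z1`; for `(1,0)`: `(0,0)` (value `g2 0`) and `(1,1)` (value `g2 2`).
`mem`: clear. `ne`: `(0,0)` attached to the root 0: `y1, z1 ≠ v`; `(2,0)`: `g3 2 ≠ g3 0 = v`; ends: `(0, m1)` attached to `u`:
neighbour `(0, m1-1)`: `g1 (m1 - 1) ≠ g1 (m1 + 1)`; if `m1 = 0` also the neighbour `(1, 0)`: `z1 ≠ y1 = u`; `en 1` similarly;
`en 2`. `ne'`: a free vertex attached to two roots: `(0,0)` with `m1 = 0` or `m2 = 0`: `u = y1 ≠ v`, `U = z1 ≠ v`,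
`u = y1 ≠ z1 = U`; `(2,0)` with `j = 1`: `X = g3 2 ≠ g3 0 = v`; for the same kind of root: `N.fn`.
`dis`: root 0: `w b ≠ w (!b)` and `k = l = k'`; roots 1, 2: `k ≠ k'` gives `s k ≠ s k'`, so `t (s k) ≠ t (s k')`; root 3: `Y` injective and
`y k ≠ y k'`; for the same `k` the vertex is `en`.
-/

namespace Pool.Agent.LHA

open Pool.Agent.LIH

section CellCaux

variable {V : Type} {H : SimpleGraph V} (D : Kit H)

theorem CellC_L0 : D.L 0 = D.m1 + 1 := rfl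
theorem CellC_L1 : D.L 1 = D.m2 := rfl
theorem CellC_L2 : D.L 2 = D.j := rfl

/-- the three sequences of a cell -/
structure CellCSeq (b : Bool) (i : Fin 3) (g1 g2 g3 : ℕ → V) : Prop where
  g10 : g1 0 = D.w b
  g1m : g1 D.m1 = D.t b
  g1u : g1 (D.m1 + 1) = D.u
  a1 : ∀ p ≤ D.m1, H.Adj (g1 p) (g1 (p + 1))
  n1 : ∀ p < D.m1, g1 p ≠ g1 (p + 2)
  g20 : g2 0 = D.w b
  g2m : g2 D.m2 = D.s b
  g2u : g2 (D.m2 + 1) = D.U
  a2 : ∀ p ≤ D.m2, H.Adj (g2 p) (g2 (p + 1))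
  n2 : ∀ p < D.m2, g2 p ≠ g2 (p + 2)
  g30 : g3 0 = D.v
  g31 : g3 1 = D.w (!b)
  g3m : g3 D.j = D.Y i
  g3u : g3 (D.j + 1) = D.X
  a3 : ∀ p ≤ D.j, H.Adj (g3 p) (g3 (p + 1))
  n3 : ∀ p < D.j, g3 p ≠ g3 (p + 2)
  y1v : g1 1 ≠ D.v
  z1v : g2 1 ≠ D.v
  y1z1 : g1 1 ≠ g2 1

theorem CellC_exseq (b : Bool) (i : Fin 3) (hR : D.R b i) :
    ∃ g1 g2 g3 : ℕ → V, CellCSeq D b i g1 g2 g3 := by
  obtain ⟨y1, z1, hy, hz, hyv, hzv, hyz, hr1, hr2⟩ := D.tri_complete b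
  obtain ⟨g1, p1, p2, p3, p4, p5, p6⟩ := (rch_seq hy).1 hr1
  obtain ⟨g2, q1, q2, q3, q4, q5, q6⟩ := (rch_seq hz).1 hr2
  obtain ⟨g3, r1, r2, r3, r4, r5, r6⟩ := (rch_seq (D.adj_w (!b))).1 hR
  exact ⟨g1, g2, g3, ⟨p1, p3, p4, p5, p6, q1, q3, q4, q5, q6, r1, r2, r3, r4, r5, r6,
    by rw [p2]; exact hyv, by rw [q2]; exact hzv, by rw [p2, q2]; exact hyz⟩⟩

/-- values on the arms -/
def CellC_G (g1 g2 g3 : ℕ → V) : Fin 3 → ℕ → V := ![g1, fun p => g2 (p + 1), fun p => g3 (p + 1)]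

/-- colouring of a cell -/
def CellC_col (g1 g2 g3 : ℕ → V) (x : Fin 3 × Fin D.len) : V := CellC_G g1 g2 g3 x.1 x.2.1

variable {D} {b : Bool} {i : Fin 3} {g1 g2 g3 : ℕ → V}

theorem CellC_col_fv (q : Fin 3) {p : ℕ} (hp : p < D.L q) :
    CellC_col D g1 g2 g3 (D.fv q p) = CellC_G g1 g2 g3 q p := by
  unfold CellC_col
  rw [D.fv_val q hp]
  rfl

theorem CellC_adj (h : CellCSeq D b i g1 g2 g3) (q : Fin 3) {p : ℕ} (hp : p + 1 < D.L q) :
    H.Adj (CellC_G g1 g2 g3 q p) (CellC_G g1 g2 g3 q (p + 1)) := by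
  fin_cases q
  · have hp' : p + 1 < D.m1 + 1 := hp
    exact h.a1 p (by omega)
  · have hp' : p + 1 < D.m2 := hp
    exact h.a2 (p + 1) (by omega)
  · have hp' : p + 1 < D.j := hp
    exact h.a3 (p + 1) (by omega)

theorem CellC_ne (h : CellCSeq D b i g1 g2 g3) (q : Fin 3) {p : ℕ} (hp : p + 2 < D.L q) :
    CellC_G g1 g2 g3 q p ≠ CellC_G g1 g2 g3 q (p + 2) := by
  fin_cases q
  · have hp' : p + 2 < D.m1 + 1 := hp
    exact h.n1 p (by omega)
  · have hp' : p + 2 < D.m2 := hp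
    exact h.n2 (p + 1) (by omega)
  · have hp' : p + 2 < D.j := hp
    exact h.n3 (p + 1) (by omega)

theorem CellC_pos0 : 0 < D.L 0 := by rw [CellC_L0]; omega

theorem CellC_hom (h : CellCSeq D b i g1 g2 g3) (x y : Fin 3 × Fin D.len) (hxy : D.B.Adj x y) :
    H.Adj (CellC_col D g1 g2 g3 x) (CellC_col D g1 g2 g3 y) := by
  have h01 : 0 < D.m2 → H.Adj (CellC_col D g1 g2 g3 (D.fv 0 0)) (CellC_col D g1 g2 g3 (D.fv 1 0)) := by
    intro hm
    rw [CellC_col_fv 0 CellC_pos0, CellC_col_fv 1 (by rw [CellC_L1]; exact hm)]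
    change H.Adj (g1 0) (g2 1)
    rw [h.g10, ← h.g20]
    exact h.a2 0 (by omega)
  rcases D.B_cases hxy with ⟨q, p, hp, rfl, rfl⟩ | ⟨q, p, hp, rfl, rfl⟩ | ⟨hm, rfl, rfl⟩ | ⟨hm, rfl, rfl⟩
  · rw [CellC_col_fv q (by omega), CellC_col_fv q hp]
    exact CellC_adj h q hp
  · rw [CellC_col_fv q hp, CellC_col_fv q (show p < D.L q by omega)]
    exact (CellC_adj h q hp).symm
  · exact h01 hm
  · exact (h01 hm).symm

/-- one of the two neighbours is the successor -/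
theorem CellC_inj1 (h : CellCSeq D b i g1 g2 g3) {q : Fin 3} {p : ℕ} (hp : p + 1 < D.L q)
    {y : Fin 3 × Fin D.len} (hy : D.B.Adj (D.fv q p) y)
    (he : CellC_col D g1 g2 g3 (D.fv q (p + 1)) = CellC_col D g1 g2 g3 y) : D.fv q (p + 1) = y := by
  rcases D.B_cases hy with ⟨q', p', hp', e, rfl⟩ | ⟨q', p', hp', e, rfl⟩ | ⟨hm, e, rfl⟩ | ⟨hm, e, rfl⟩
  · obtain ⟨rfl, rfl⟩ := D.fv_inj (by omega) (by omega) e
    rfl
  · obtain ⟨rfl, rfl⟩ := D.fv_inj (by omega) (by omega) e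
    rw [CellC_col_fv q hp, CellC_col_fv q (by omega)] at he
    exact absurd he.symm (CellC_ne h q hp)
  · obtain ⟨rfl, rfl⟩ := D.fv_inj (by omega) CellC_pos0 e
    rw [CellC_col_fv 0 hp, CellC_col_fv 1 (by rw [CellC_L1]; exact hm)] at he
    exact absurd he h.y1z1
  · obtain ⟨rfl, rfl⟩ := D.fv_inj (by omega) (by rw [CellC_L1]; exact hm) e
    rw [CellC_col_fv 1 hp, CellC_col_fv 0 CellC_pos0] at he
    have he' : g2 2 = g1 0 := he
    rw [h.g10, ← h.g20] at he'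
    exact absurd he'.symm (h.n2 0 hm)

theorem CellC_inj (h : CellCSeq D b i g1 g2 g3) (x y z : Fin 3 × Fin D.len) (hy : D.B.Adj x y)
    (hz : D.B.Adj x z) (he : CellC_col D g1 g2 g3 y = CellC_col D g1 g2 g3 z) : y = z := by
  rcases D.B_cases hy with ⟨q, p, hp, rfl, rfl⟩ | ⟨q, p, hp, ex, rfl⟩ | ⟨hm, ex, rfl⟩ | ⟨hm, ex, rfl⟩
  · exact CellC_inj1 h hp hz he
  · rcases D.B_cases hz with ⟨q', p', hp', rfl, rfl⟩ | ⟨q', p', hp', e, rfl⟩ | ⟨hm', e, rfl⟩ | ⟨hm', e, rfl⟩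
    · exact (CellC_inj1 h hp' hy he.symm).symm
    · obtain ⟨rfl, e2⟩ := D.fv_inj hp hp' (ex.symm.trans e)
      rw [show p = p' by omega]
    · obtain ⟨-, e2⟩ := D.fv_inj hp CellC_pos0 (ex.symm.trans e)
      omega
    · obtain ⟨-, e2⟩ := D.fv_inj hp (show 0 < D.L 1 from hm') (ex.symm.trans e)
      omega
  · rcases D.B_cases hz with ⟨q', p', hp', rfl, rfl⟩ | ⟨q', p', hp', e, rfl⟩ | ⟨hm', e, rfl⟩ | ⟨hm', e, rfl⟩
    · exact (CellC_inj1 h hp' hy he.symm).symm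
    · obtain ⟨-, e2⟩ := D.fv_inj CellC_pos0 hp' (ex.symm.trans e)
      omega
    · rfl
    · obtain ⟨e1, -⟩ := D.fv_inj CellC_pos0 (show 0 < D.L 1 from hm') (ex.symm.trans e)
      exact absurd e1 (by decide)
  · rcases D.B_cases hz with ⟨q', p', hp', rfl, rfl⟩ | ⟨q', p', hp', e, rfl⟩ | ⟨hm', e, rfl⟩ | ⟨hm', e, rfl⟩
    · exact (CellC_inj1 h hp' hy he.symm).symm
    · obtain ⟨-, e2⟩ := D.fv_inj (show 0 < D.L 1 from hm) hp' (ex.symm.trans e)
      omega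
    · obtain ⟨e1, -⟩ := D.fv_inj (show 0 < D.L 1 from hm) CellC_pos0 (ex.symm.trans e)
      exact absurd e1 (by decide)
    · rfl

theorem CellC_pos2 : 0 < D.L 2 := D.j_pos

theorem CellC_en0 : D.en 0 = D.fv 0 D.m1 := rfl

theorem CellC_en1 : (D.m2 = 0 ∧ D.en 1 = D.fv 0 0) ∨ (0 < D.m2 ∧ D.en 1 = D.fv 1 (D.m2 - 1)) := by
  by_cases hm : D.m2 = 0
  · exact Or.inl ⟨hm, by change (if D.m2 = 0 then D.fv 0 0 else D.fv 1 (D.m2 - 1)) = _; rw [if_pos hm]⟩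
  · exact Or.inr ⟨by omega, by change (if D.m2 = 0 then D.fv 0 0 else D.fv 1 (D.m2 - 1)) = _; rw [if_neg hm]⟩

theorem CellC_en2 : D.en 2 = D.fv 2 (D.j - 1) := rfl

theorem CellC_v00 (h : CellCSeq D b i g1 g2 g3) : CellC_col D g1 g2 g3 (D.fv 0 0) = D.w b := by
  rw [CellC_col_fv 0 CellC_pos0]
  exact h.g10

theorem CellC_v20 (h : CellCSeq D b i g1 g2 g3) : CellC_col D g1 g2 g3 (D.fv 2 0) = D.w (!b) := by
  rw [CellC_col_fv 2 CellC_pos2]
  exact h.g31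

theorem CellC_ve0 (h : CellCSeq D b i g1 g2 g3) : CellC_col D g1 g2 g3 (D.en 0) = D.t b := by
  rw [CellC_en0, CellC_col_fv 0 (by rw [CellC_L0]; omega)]
  exact h.g1m

theorem CellC_ve1 (h : CellCSeq D b i g1 g2 g3) : CellC_col D g1 g2 g3 (D.en 1) = D.s b := by
  rcases CellC_en1 (D := D) with ⟨hm, e⟩ | ⟨hm, e⟩
  · rw [e, CellC_v00 h, ← h.g20, ← h.g2m, hm]
  · rw [e, CellC_col_fv 1 (by rw [CellC_L1]; omega)]
    change g2 (D.m2 - 1 + 1) = _
    rw [show D.m2 - 1 + 1 = D.m2 by omega]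
    exact h.g2m

theorem CellC_ve2 (h : CellCSeq D b i g1 g2 g3) : CellC_col D g1 g2 g3 (D.en 2) = D.Y i := by
  have hj := D.j_pos
  rw [CellC_en2, CellC_col_fv 2 (by rw [CellC_L2]; omega)]
  change g3 (D.j - 1 + 1) = _
  rw [show D.j - 1 + 1 = D.j by omega]
  exact h.g3m

theorem CellC_n00 (h : CellCSeq D b i g1 g2 g3) {y : Fin 3 × Fin D.len} (hy : D.B.Adj (D.fv 0 0) y) :
    CellC_col D g1 g2 g3 y ≠ D.v := by
  rcases D.B_cases hy with ⟨q', p', hp', e, rfl⟩ | ⟨q', p', hp', e, rfl⟩ | ⟨hm, e, rfl⟩ | ⟨hm, e, rfl⟩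
  · obtain ⟨rfl, rfl⟩ := D.fv_inj CellC_pos0 (by omega) e
    rw [CellC_col_fv 0 hp']
    exact h.y1v
  · obtain ⟨-, e2⟩ := D.fv_inj CellC_pos0 hp' e
    omega
  · rw [CellC_col_fv 1 (show 0 < D.L 1 from hm)]
    exact h.z1v
  · obtain ⟨e1, -⟩ := D.fv_inj CellC_pos0 (show 0 < D.L 1 from hm) e
    exact absurd e1 (by decide)

theorem CellC_n20 (h : CellCSeq D b i g1 g2 g3) {y : Fin 3 × Fin D.len} (hy : D.B.Adj (D.fv 2 0) y) :
    CellC_col D g1 g2 g3 y ≠ D.v := by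
  rcases D.B_cases hy with ⟨q', p', hp', e, rfl⟩ | ⟨q', p', hp', e, rfl⟩ | ⟨hm, e, rfl⟩ | ⟨hm, e, rfl⟩
  · obtain ⟨rfl, rfl⟩ := D.fv_inj CellC_pos2 (by omega) e
    rw [CellC_col_fv 2 hp', ← h.g30]
    exact (h.n3 0 D.j_pos).symm
  · obtain ⟨-, e2⟩ := D.fv_inj CellC_pos2 hp' e
    omega
  · obtain ⟨e1, -⟩ := D.fv_inj CellC_pos2 CellC_pos0 e
    exact absurd e1 (by decide)
  · obtain ⟨e1, -⟩ := D.fv_inj CellC_pos2 (show 0 < D.L 1 from hm) e
    exact absurd e1 (by decide)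

theorem CellC_ne0 (h : CellCSeq D b i g1 g2 g3) {y : Fin 3 × Fin D.len} (hy : D.B.Adj (D.en 0) y) :
    CellC_col D g1 g2 g3 y ≠ D.u := by
  rw [CellC_en0] at hy
  have hp0 : D.m1 < D.L 0 := by rw [CellC_L0]; omega
  rcases D.B_cases hy with ⟨q', p', hp', e, rfl⟩ | ⟨q', p', hp', e, rfl⟩ | ⟨hm, e, rfl⟩ | ⟨hm, e, rfl⟩
  · obtain ⟨rfl, rfl⟩ := D.fv_inj hp0 (by omega) e
    rw [CellC_L0] at hp'
    omega
  · obtain ⟨rfl, e2⟩ := D.fv_inj hp0 hp' e
    rw [CellC_col_fv 0 (by omega), ← h.g1u, e2]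
    exact h.n1 p' (by omega)
  · obtain ⟨-, e2⟩ := D.fv_inj hp0 CellC_pos0 e
    rw [CellC_col_fv 1 (show 0 < D.L 1 from hm), ← h.g1u, e2]
    exact h.y1z1.symm
  · obtain ⟨e1, -⟩ := D.fv_inj hp0 (show 0 < D.L 1 from hm) e
    exact absurd e1 (by decide)

theorem CellC_ne1 (h : CellCSeq D b i g1 g2 g3) {y : Fin 3 × Fin D.len} (hy : D.B.Adj (D.en 1) y) :
    CellC_col D g1 g2 g3 y ≠ D.U := by
  rcases CellC_en1 (D := D) with ⟨hm, ee⟩ | ⟨hm, ee⟩
  · rw [ee] at hy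
    rcases D.B_cases hy with ⟨q', p', hp', e, rfl⟩ | ⟨q', p', hp', e, rfl⟩ | ⟨hm', e, rfl⟩ | ⟨hm', e, rfl⟩
    · obtain ⟨rfl, rfl⟩ := D.fv_inj CellC_pos0 (by omega) e
      rw [CellC_col_fv 0 hp', ← h.g2u, hm]
      exact h.y1z1
    · obtain ⟨-, e2⟩ := D.fv_inj CellC_pos0 hp' e
      omega
    · omega
    · omega
  · rw [ee] at hy
    have hp1 : D.m2 - 1 < D.L 1 := by rw [CellC_L1]; omega
    rcases D.B_cases hy with ⟨q', p', hp', e, rfl⟩ | ⟨q', p', hp', e, rfl⟩ | ⟨hm', e, rfl⟩ | ⟨hm', e, rfl⟩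
    · obtain ⟨rfl, rfl⟩ := D.fv_inj hp1 (by omega) e
      rw [CellC_L1] at hp'
      omega
    · obtain ⟨rfl, e2⟩ := D.fv_inj hp1 hp' e
      rw [CellC_col_fv 1 (by omega), ← h.g2u, show D.m2 + 1 = p' + 1 + 2 by omega]
      exact h.n2 (p' + 1) (by omega)
    · obtain ⟨e1, -⟩ := D.fv_inj hp1 CellC_pos0 e
      exact absurd e1 (by decide)
    · obtain ⟨-, e2⟩ := D.fv_inj hp1 (show 0 < D.L 1 from hm') e
      rw [CellC_v00 h, ← h.g20, ← h.g2u, show D.m2 + 1 = 0 + 2 by omega]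
      exact h.n2 0 hm
theorem CellC_ne2 (h : CellCSeq D b i g1 g2 g3) {y : Fin 3 × Fin D.len} (hy : D.B.Adj (D.en 2) y) :
    CellC_col D g1 g2 g3 y ≠ D.X := by
  rw [CellC_en2] at hy
  have hj := D.j_pos
  have hp2 : D.j - 1 < D.L 2 := by rw [CellC_L2]; omega
  rcases D.B_cases hy with ⟨q', p', hp', e, rfl⟩ | ⟨q', p', hp', e, rfl⟩ | ⟨hm, e, rfl⟩ | ⟨hm, e, rfl⟩
  · obtain ⟨rfl, rfl⟩ := D.fv_inj hp2 (by omega) e
    rw [CellC_L2] at hp'
    omega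
  · obtain ⟨rfl, e2⟩ := D.fv_inj hp2 hp' e
    rw [CellC_col_fv 2 (by omega), ← h.g3u, show D.j + 1 = p' + 1 + 2 by omega]
    exact h.n3 (p' + 1) (by omega)
  · obtain ⟨e1, -⟩ := D.fv_inj hp2 CellC_pos0 e
    exact absurd e1 (by decide)
  · obtain ⟨e1, -⟩ := D.fv_inj hp2 (show 0 < D.L 1 from hm) e
    exact absurd e1 (by decide)

/-- a free vertex attached to the root 0 and to another root -/
theorem CellC_av (h : CellCSeq D b i g1 g2 g3) (q : Fin 3) (hq : D.en q = D.fv 0 0 ∨ D.en q = D.fv 2 0) :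
    D.a q.succ ≠ D.v := by
  have hj := D.j_pos
  have hp0 : D.m1 < D.L 0 := by rw [CellC_L0]; omega
  have hp2 : D.j - 1 < D.L 2 := by rw [CellC_L2]; omega
  fin_cases q
  · change D.u ≠ D.v
    rcases hq with e | e
    · obtain ⟨-, e2⟩ := D.fv_inj hp0 CellC_pos0 e
      rw [← h.g1u, e2]
      exact h.y1v
    · obtain ⟨e1, -⟩ := D.fv_inj hp0 CellC_pos2 e
      exact absurd e1 (by decide)
  · change D.U ≠ D.v
    rcases CellC_en1 (D := D) with ⟨hm, ee⟩ | ⟨hm, ee⟩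
    · rw [← h.g2u, hm]
      exact h.z1v
    · have hp1 : D.m2 - 1 < D.L 1 := by rw [CellC_L1]; omega
      rcases hq with e | e
      · obtain ⟨e1, -⟩ := D.fv_inj hp1 CellC_pos0 (ee.symm.trans e)
        exact absurd e1 (by decide)
      · obtain ⟨e1, -⟩ := D.fv_inj hp1 CellC_pos2 (ee.symm.trans e)
        exact absurd e1 (by decide)
  · change D.X ≠ D.v
    rcases hq with e | e
    · obtain ⟨e1, -⟩ := D.fv_inj hp2 CellC_pos0 e
      exact absurd e1 (by decide)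
    · obtain ⟨-, e2⟩ := D.fv_inj hp2 CellC_pos2 e
      rw [← h.g3u, ← h.g30, show D.j + 1 = 0 + 2 by omega]
      exact (h.n3 0 hj).symm

/-- a free vertex attached to two of the roots 1, 2, 3 -/
theorem CellC_aa (h : CellCSeq D b i g1 g2 g3) {q q' : Fin 3} (hq : D.en q = D.en q')
    (ha : D.a q.succ = D.a q'.succ) : q = q' := by
  have hj := D.j_pos
  have hp0 : D.m1 < D.L 0 := by rw [CellC_L0]; omega
  have hp2 : D.j - 1 < D.L 2 := by rw [CellC_L2]; omega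
  have h01 : D.en 0 = D.en 1 → D.u ≠ D.U := by
    intro e
    rcases CellC_en1 (D := D) with ⟨hm, ee⟩ | ⟨hm, ee⟩
    · rw [ee] at e
      obtain ⟨-, e2⟩ := D.fv_inj hp0 CellC_pos0 e
      rw [← h.g1u, ← h.g2u, e2, hm]
      exact h.y1z1
    · rw [ee] at e
      obtain ⟨e1, -⟩ := D.fv_inj hp0 (show D.m2 - 1 < D.L 1 by rw [CellC_L1]; omega) e
      exact absurd e1 (by decide)
  have h02 : D.en 0 ≠ D.en 2 := by
    intro e
    obtain ⟨e1, -⟩ := D.fv_inj hp0 hp2 e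
    exact absurd e1 (by decide)
  have h12 : D.en 1 ≠ D.en 2 := by
    intro e
    rcases CellC_en1 (D := D) with ⟨hm, ee⟩ | ⟨hm, ee⟩
    · rw [ee] at e
      obtain ⟨e1, -⟩ := D.fv_inj CellC_pos0 hp2 e
      exact absurd e1 (by decide)
    · rw [ee] at e
      obtain ⟨e1, -⟩ := D.fv_inj (show D.m2 - 1 < D.L 1 by rw [CellC_L1]; omega) hp2 e
      exact absurd e1 (by decide)
  fin_cases q <;> fin_cases q'
  · rfl
  · exact absurd ha (h01 hq)
  · exact absurd hq h02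
  · exact absurd ha.symm (h01 hq.symm)
  · rfl
  · exact absurd hq h12
  · exact absurd hq.symm h02
  · exact absurd hq.symm h12
  · rfl

end CellCaux

theorem cell_complete {V : Type} {H : SimpleGraph V} (D : Kit H) (N : Ntw) (h : Sol D.R N) :
    ∃ c : Fin N.K → (Fin 3 × Fin D.len) → V, GoodCol H D.a D.F D.B (atN D N) c := by
  classical
  obtain ⟨s, y, hs, hR, hy⟩ := h
  obtain ⟨R0, R1, -, R3⟩ := D.R_vals
  set ii : ℕ → Fin 3 := fun k => if (∃ l, N.lk 2 k l) then y k else if s k then 0 else 1 with hii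
  have hRi : ∀ k, D.R (s k) (ii k) := by
    intro k
    simp only [hii]
    by_cases hk : ∃ l, N.lk 2 k l
    · rw [if_pos hk]
      obtain ⟨l, hl⟩ := hk
      exact hR k l hl
    · rw [if_neg hk]
      cases hb : s k
      · simpa using R1
      · simpa using R3
  choose g1 g2 g3 hg using fun k : ℕ => CellC_exseq D (s k) (ii k) (hRi k)
  have hiy : ∀ k l, N.lk 2 k l → ii k = y k := by
    intro k l hl
    simp only [hii]
    rw [if_pos ⟨l, hl⟩]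
  refine ⟨fun k => CellC_col D (g1 k) (g2 k) (g3 k), ?_, ?_, ?_, ?_, ?_, ?_⟩
  · intro k x x' hxx
    exact CellC_hom (hg k) x x' hxx
  · intro k x x1 x2 h1 h2 he
    exact CellC_inj (hg k) x x1 x2 h1 h2 he
  · rintro k x l r (⟨rfl, -, rfl | rfl⟩ | ⟨q, rfl, rfl, -⟩)
    · exact ⟨s k, (CellC_v00 (hg k)).symm⟩
    · exact ⟨!(s k), (CellC_v20 (hg k)).symm⟩
    · fin_cases q
      · exact ⟨s k, (CellC_ve0 (hg k)).symm⟩
      · exact ⟨s k, (CellC_ve1 (hg k)).symm⟩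
      · exact ⟨ii k, (CellC_ve2 (hg k)).symm⟩
  · rintro k x x' l r hxx (⟨rfl, -, rfl | rfl⟩ | ⟨q, rfl, rfl, -⟩)
    · exact CellC_n00 (hg k) hxx
    · exact CellC_n20 (hg k) hxx
    · fin_cases q
      · exact CellC_ne0 (hg k) hxx
      · exact CellC_ne1 (hg k) hxx
      · exact CellC_ne2 (hg k) hxx
  · rintro k x l r l' r' (⟨rfl, hkl, h1⟩ | ⟨q, rfl, h1, hl⟩) (⟨rfl, hkl', h2⟩ | ⟨q', rfl, h2, hl'⟩) ha
    · exact ⟨Fin.ext (hkl.symm.trans hkl'), rfl⟩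
    · exfalso
      refine CellC_av (hg k) q' ?_ ha.symm
      rw [← h2]
      exact h1
    · exfalso
      refine CellC_av (hg k) q ?_ ha
      rw [← h1]
      exact h2
    · obtain rfl := CellC_aa (hg k) (h1.symm.trans h2) ha
      exact ⟨Fin.ext (N.fn _ _ _ _ hl hl'), rfl⟩
  · rintro l r k x k' x' (⟨rfl, hkl, h1⟩ | ⟨q, rfl, h1, hl⟩) (⟨hr, hkl', h2⟩ | ⟨q', hr, h2, hl'⟩) he
    · have hkk : k = k' := Fin.ext (hkl.trans hkl'.symm)
      subst hkk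
      refine ⟨rfl, ?_⟩
      have hww : ∀ b : Bool, D.w b ≠ D.w (!b) := by
        intro b
        cases b
        · exact D.ne_w.symm
        · exact D.ne_w
      rcases h1 with rfl | rfl <;> rcases h2 with rfl | rfl
      · rfl
      · exfalso
        simp only [CellC_v00 (hg k), CellC_v20 (hg k)] at he
        exact hww _ he
      · exfalso
        simp only [CellC_v00 (hg k), CellC_v20 (hg k)] at he
        exact hww _ he.symm
      · rfl
    · exact absurd hr.symm (Fin.succ_ne_zero q')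
    · exact absurd hr (Fin.succ_ne_zero q)
    · obtain rfl : q = q' := Fin.succ_injective _ hr
      by_cases hkk : k = k'
      · subst hkk
        exact ⟨rfl, h1.trans h2.symm⟩
      · exfalso
        have hkn : k.1 ≠ k'.1 := fun e => hkk (Fin.ext e)
        subst h1 h2
        fin_cases q
        · have h3 := hs 0 k k' l (by decide) hkn hl hl'
          have he' : D.t (s k) = D.t (s k') := by
            rw [← CellC_ve0 (hg k), ← CellC_ve0 (hg k')]; exact he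
          revert h3 he'
          cases s k <;> cases s k' <;> intro h3 he'
          · exact h3 rfl
          · exact D.ne_t he'.symm
          · exact D.ne_t he'
          · exact h3 rfl
        · have h3 := hs 1 k k' l (by decide) hkn hl hl'
          have he' : D.s (s k) = D.s (s k') := by
            rw [← CellC_ve1 (hg k), ← CellC_ve1 (hg k')]; exact he
          revert h3 he'
          cases s k <;> cases s k' <;> intro h3 he'
          · exact h3 rfl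
          · exact D.ne_s he'.symm
          · exact D.ne_s he'
          · exact h3 rfl
        · have h3 := hy k k' l hkn hl hl'
          have he' : D.Y (ii k) = D.Y (ii k') := by
            rw [← CellC_ve2 (hg k), ← CellC_ve2 (hg k')]; exact he
          have h4 := D.inj_Y he'
          rw [hiy k l hl, hiy k' l hl'] at h4
          exact h3 h4

end Pool.Agent.LHA
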