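import Pool.Agent.LHA.Defs

/-!
# Cell rigidity

`g : V → V` on a copy of `H` in which the edge `b c` has been cut: the missing neighbour of the vertex
`b` has the value `ob`, the missing neighbour of `c` has the value `oc`; `cval x y` is the value of the
neighbour of `x` over `y`.
Proof. `H` is finite. Put `N y = #{x | g x = y}`. Let `y, z` be adjacent. For every `x` with `g x = y` there
is exactly one `y'` adjacent to `x` with `cval x y' = z` (`h2`, `h3`). So `N y` is the number of pairs
`(x, y')`, `x ∼ y'`, `g x = y`, `cval x y' = z`. Pairs different from `(b, c)`, `(c, b)` have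
`cval x y' = g y'` and the exchange `(x, y') ↦ (y', x)` is a bijection between those for `(y, z)` and those
for `(z, y)`. Hence (`[.]` is 1 or 0)
 (1) `N y + [g b = z ∧ ob = y] + [g c = z ∧ oc = y] = N z + [g b = y ∧ ob = z] + [g c = y ∧ oc = z]`.
Suppose `N` is not constant `1`. As `∑ N y = |V|`, there are `y1` with `N y1 ≥ 2` and `y0` with `N y0 = 0`.
Call an edge `{y, z}` crossing for `k` if `N y ≥ k > N z` (or conversely). By (1) a crossing edge is
`{g b, ob}` or `{g c, oc}` (otherwise `N y = N z`).
Lemma (`two_cross`): if `S` is a nonempty set of vertices with nonempty complement and `{y, z}` an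
edge with `y ∈ S`, `z ∉ S`, then there is another such edge: `{y, z}` is not a bridge, so there is a walk from
`y` to `z` avoiding it (`SimpleGraph.isBridge_iff`), which leaves `S` somewhere. There is at least one
crossing edge by connectedness. So for `k = 1` and for `k = 2` there are two different crossing edges,
i.e. both `{g b, ob}` and `{g c, oc}` are crossing and they are different. Then (1) for the edge
`{g b, ob}` gives `|N (g b) - N ob| = 1` (only one term is nonzero). It is crossing for `k = 2`: the values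
are `2` and `1`; it is crossing for `k = 1`: the values are `1` and `0`. Contradiction.
So `N` is constant `1` and `g` is bijective. Now (1) with `y = g b`, `z = ob` (adjacent by `h1`, so `y ≠ z`):
`[g b = z ∧ ob = y] = 0`, the right side is `≥ 1 + 1 = N z + 1`, so `g c = z ∧ oc = y`: `ob = g c`, `oc = g b`.
-/

namespace Pool.Agent.LHA

open Pool.Agent.LIH

open Classical in
/-- value of the neighbour of `x` over `y` -/
noncomputable def cval {V : Type} (b c : V) (g : V → V) (ob oc : V) (x y : V) : V :=
  if x = b ∧ y = c then ob else if x = c ∧ y = b then oc else g y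

/-- every cut of a connected bridgeless graph has at least two edges -/
theorem two_cross {V : Type} {H : SimpleGraph V}
    (hb : ∀ e ∈ H.edgeSet, ¬ H.IsBridge e) (S : Set V) {y z : V} (hyz : H.Adj y z) (hy : y ∈ S)
    (hz : z ∉ S) : ∃ y' z', H.Adj y' z' ∧ y' ∈ S ∧ z' ∉ S ∧ s(y', z') ≠ s(y, z) := by
  have h := hb s(y, z) hyz
  rw [SimpleGraph.isBridge_iff_forall_walk_mem_edges] at h
  push Not at h
  obtain ⟨p, hp⟩ := h
  obtain ⟨d, hd, h1, h2⟩ := p.exists_boundary_dart S hy hz
  refine ⟨d.fst, d.snd, d.adj, h1, h2, ?_⟩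
  intro he
  apply hp
  rw [← he]
  have : d.edge ∈ p.edges := List.mem_map_of_mem hd
  exact this

section
variable {V : Type} [Fintype V] {H : SimpleGraph V} (b c : V) (g : V → V) (ob oc : V)

open Classical in
/-- number of preimages -/
noncomputable def nn (g : V → V) (y : V) : ℕ := ∑ x, if g x = y then 1 else 0

open Classical in
/-- number of special edges -/
noncomputable def ee (y z : V) : ℕ :=
  (if g b = y ∧ ob = z then 1 else 0) + (if g c = y ∧ oc = z then 1 else 0)

open Classical in
theorem count_A {H : SimpleGraph V}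
    (h2 : ∀ x y y', H.Adj x y → H.Adj x y' → cval b c g ob oc x y = cval b c g ob oc x y' → y = y')
    (h3 : ∀ x z, H.Adj (g x) z → ∃ y, H.Adj x y ∧ cval b c g ob oc x y = z) {y z : V}
    (hyz : H.Adj y z) :
    nn g y = ∑ p : V × V, if H.Adj p.1 p.2 ∧ g p.1 = y ∧ cval b c g ob oc p.1 p.2 = z then 1 else 0
      := by
  unfold nn
  rw [Fintype.sum_prod_type]
  refine Finset.sum_congr rfl fun x _ => ?_
  by_cases hx : g x = y
  · rw [if_pos hx]
    obtain ⟨w, hw1, hw2⟩ := h3 x z (by rw [hx]; exact hyz)
    rw [Finset.sum_eq_single w]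
    · simp [hw1, hx, hw2]
    · intro w' _ hw'
      rw [if_neg]
      rintro ⟨a1, a2, a3⟩
      exact hw' (h2 x w' w a1 hw1 (a3.trans hw2.symm))
    · intro h
      exact absurd (Finset.mem_univ _) h
  · rw [if_neg hx]
    symm
    apply Finset.sum_eq_zero
    intro w _
    rw [if_neg]
    rintro ⟨-, a2, -⟩
    exact hx a2

open Classical in
theorem count_swap {H : SimpleGraph V} (y z : V) :
    (∑ p : V × V, if H.Adj p.1 p.2 ∧ g p.1 = y ∧ g p.2 = z then 1 else 0) =
      ∑ p : V × V, if H.Adj p.1 p.2 ∧ g p.1 = z ∧ g p.2 = y then 1 else 0 := by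
  refine Fintype.sum_equiv (Equiv.prodComm V V) _ _ ?_
  rintro ⟨u, v⟩
  simp only [Equiv.prodComm_apply, Prod.swap]
  congr 1
  apply propext
  constructor
  · rintro ⟨a1, a2, a3⟩
    exact ⟨a1.symm, a3, a2⟩
  · rintro ⟨a1, a2, a3⟩
    exact ⟨a1.symm, a3, a2⟩

open Classical in
theorem count_G {H : SimpleGraph V} (hbc : H.Adj b c) (y z : V) :
    (∑ p : V × V, if H.Adj p.1 p.2 ∧ g p.1 = y ∧ cval b c g ob oc p.1 p.2 = z then 1 else 0) +
      ((if g b = y ∧ g c = z then 1 else 0) + (if g c = y ∧ g b = z then 1 else 0)) =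
    (∑ p : V × V, if H.Adj p.1 p.2 ∧ g p.1 = y ∧ g p.2 = z then 1 else 0) + ee b c g ob oc y z := by
  have e1 : ∀ (q : V × V) (t : ℕ), (∑ p : V × V, if p = q then t else 0) = t := by
    intro q t
    rw [Finset.sum_ite_eq']
    simp
  rw [← e1 (b, c) (if g b = y ∧ g c = z then 1 else 0),
    ← e1 (c, b) (if g c = y ∧ g b = z then 1 else 0), ee,
    ← e1 (b, c) (if g b = y ∧ ob = z then 1 else 0),
    ← e1 (c, b) (if g c = y ∧ oc = z then 1 else 0), ← Finset.sum_add_distrib,
    ← Finset.sum_add_distrib, ← Finset.sum_add_distrib, ← Finset.sum_add_distrib]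
  refine Finset.sum_congr rfl fun p _ => ?_
  obtain ⟨u, v⟩ := p
  have hne : b ≠ c := hbc.ne
  by_cases h1 : (u, v) = (b, c)
  · obtain ⟨rfl, rfl⟩ := Prod.mk.inj h1
    have h2 : (u, v) ≠ (v, u) := fun h => hne (Prod.mk.inj h).1
    simp only [if_pos, if_neg h2, hbc, true_and, cval, and_self]
    simp
    omega
  · by_cases h2 : (u, v) = (c, b)
    · obtain ⟨rfl, rfl⟩ := Prod.mk.inj h2
      have h3 : (u, v) ≠ (v, u) := h1
      have h4 : u ≠ v := hne.symm
      simp only [if_neg h3, hbc.symm, true_and, cval, and_self, h4, false_and, if_false]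
      simp
      omega
    · have h3 : cval b c g ob oc u v = g v := by
        unfold cval
        rw [if_neg (fun h => h1 (by rw [h.1, h.2])), if_neg (fun h => h2 (by rw [h.1, h.2]))]
      simp only [if_neg h1, if_neg h2, h3, add_zero]

open Classical in
theorem count_eq {H : SimpleGraph V} (hbc : H.Adj b c)
    (h2 : ∀ x y y', H.Adj x y → H.Adj x y' → cval b c g ob oc x y = cval b c g ob oc x y' → y = y')
    (h3 : ∀ x z, H.Adj (g x) z → ∃ y, H.Adj x y ∧ cval b c g ob oc x y = z) {y z : V}
    (hyz : H.Adj y z) :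
    nn g y + ee b c g ob oc z y = nn g z + ee b c g ob oc y z := by
  have a1 := count_G b c g ob oc hbc y z
  have a2 := count_G b c g ob oc hbc z y
  rw [← count_A b c g ob oc h2 h3 hyz] at a1
  rw [← count_A b c g ob oc h2 h3 hyz.symm, count_swap g z y] at a2
  have a3 : (if g b = z ∧ g c = y then (1 : ℕ) else 0) = if g c = y ∧ g b = z then 1 else 0 := by
    simp only [and_comm]
  have a4 : (if g c = z ∧ g b = y then (1 : ℕ) else 0) = if g b = y ∧ g c = z then 1 else 0 := by
    simp only [and_comm]
  rw [a3, a4] at a2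
  omega

open Classical in
theorem nn_sum (g : V → V) : ∑ y, nn g y = Fintype.card V := by
  unfold nn
  rw [Finset.sum_comm]
  simp

open Classical in
theorem nn_eq (g : V → V) (y : V) : nn g y = (Finset.univ.filter fun x => g x = y).card := by
  unfold nn
  simp

end

theorem cell_rigid {V : Type} [Finite V] {H : SimpleGraph V} (hc : H.Connected)
    (hb : ∀ e ∈ H.edgeSet, ¬ H.IsBridge e) {b c : V} (hbc : H.Adj b c) (g : V → V) (ob oc : V)
    (h1 : ∀ x y, H.Adj x y → H.Adj (g x) (cval b c g ob oc x y))
    (h2 : ∀ x y y', H.Adj x y → H.Adj x y' → cval b c g ob oc x y = cval b c g ob oc x y' → y = y')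
    (h3 : ∀ x z, H.Adj (g x) z → ∃ y, H.Adj x y ∧ cval b c g ob oc x y = z) :
    Function.Bijective g ∧ ob = g c ∧ oc = g b := by
  classical
  have hF : Fintype V := Fintype.ofFinite V
  have key := fun {y z : V} (h : H.Adj y z) => count_eq b c g ob oc hbc h2 h3 h
  have hne : b ≠ c := hbc.ne
  have hab : H.Adj (g b) ob := by
    have := h1 b c hbc
    simpa [cval] using this
  -- the number of preimages is one
  have hN : ∀ y, nn g y = 1 := by
    by_contra hcon
    push Not at hcon
    obtain ⟨y, hy⟩ := hcon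
    have hs : ∑ y, nn g y = ∑ y : V, 1 := by
      rw [nn_sum]; simp
    have hy1 : ∃ y1, 2 ≤ nn g y1 := by
      by_contra h
      push Not at h
      have : ∑ y, nn g y < ∑ y : V, 1 := by
        apply Finset.sum_lt_sum
        · intro i _
          have := h i
          omega
        · exact ⟨y, Finset.mem_univ _, by have := h y; omega⟩
      omega
    have hy0 : ∃ y0, nn g y0 = 0 := by
      by_contra h
      push Not at h
      obtain ⟨y1, hy1⟩ := hy1
      have : ∑ y : V, 1 < ∑ y, nn g y := by
        apply Finset.sum_lt_sum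
        · intro i _
          have := h i
          omega
        · exact ⟨y1, Finset.mem_univ _, by omega⟩
      omega
    obtain ⟨y1, hy1⟩ := hy1
    obtain ⟨y0, hy0⟩ := hy0
    have cross : ∀ k : ℕ, 1 ≤ k → k ≤ 2 → k ≤ nn g (g b) ∧ nn g ob < k ∧
        s(g b, ob) ≠ s(g c, oc) := by
      intro k hk1 hk2
      obtain ⟨p⟩ := hc.preconnected y1 y0
      obtain ⟨d, -, d1, d2⟩ := p.exists_boundary_dart {y | k ≤ nn g y} (by
        simp only [Set.mem_setOf_eq]; omega) (by simp only [Set.mem_setOf_eq]; omega)
      obtain ⟨y', z', hyz', h5, h6, h7⟩ := two_cross hb {y | k ≤ nn g y} d.adj d1 d2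
      simp only [Set.mem_setOf_eq, not_le] at d1 d2 h5 h6
      have hA : ∀ {y z : V}, H.Adj y z → k ≤ nn g y → nn g z < k →
          (g b = y ∧ ob = z) ∨ (g c = y ∧ oc = z) := by
        intro y z hyz a1 a2
        have := key hyz
        by_contra hno
        push Not at hno
        have e1 : ee b c g ob oc y z = 0 := by
          unfold ee
          rw [if_neg (fun h => hno.1 h.1 h.2), if_neg (fun h => hno.2 h.1 h.2)]
        omega
      rcases hA d.adj d1 d2 with ⟨a1, a2⟩ | ⟨a1, a2⟩
      · rcases hA hyz' h5 h6 with ⟨b1, b2⟩ | ⟨b1, b2⟩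
        · exact absurd (by rw [← a1, ← a2, ← b1, ← b2]) h7
        · rw [a1, a2, b1, b2]
          exact ⟨d1, d2, h7.symm⟩
      · rcases hA hyz' h5 h6 with ⟨b1, b2⟩ | ⟨b1, b2⟩
        · rw [a1, a2, b1, b2]
          exact ⟨h5, h6, h7⟩
        · exact absurd (by rw [← a1, ← a2, ← b1, ← b2]) h7
    have c1 := cross 1 le_rfl (by norm_num)
    have c2 := cross 2 (by norm_num) le_rfl
    have := key hab
    have e1 : ee b c g ob oc (g b) ob = 1 := by
      unfold ee
      rw [if_pos ⟨rfl, rfl⟩, if_neg]
      rintro ⟨a1, a2⟩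
      exact c1.2.2 (by rw [a1, a2])
    omega
  have hinj : Function.Injective g := by
    intro u v huv
    have := hN (g u)
    rw [nn_eq, Finset.card_eq_one] at this
    obtain ⟨a, ha⟩ := this
    have h5 : u ∈ ({a} : Finset V) := by rw [← ha]; simp
    have h6 : v ∈ ({a} : Finset V) := by rw [← ha]; simp [huv]
    rw [Finset.mem_singleton] at h5 h6
    rw [h5, h6]
  refine ⟨Finite.injective_iff_bijective.1 hinj, ?_⟩
  have := key hab
  rw [hN, hN] at this
  have e1 : 1 ≤ ee b c g ob oc (g b) ob := by
    unfold ee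
    rw [if_pos ⟨rfl, rfl⟩]
    omega
  have e2 : 1 ≤ ee b c g ob oc ob (g b) := by omega
  unfold ee at e2
  rw [if_neg (fun h => hab.ne h.1)] at e2
  by_cases h5 : g c = ob ∧ oc = g b
  · exact ⟨h5.1.symm, h5.2⟩
  · rw [if_neg h5] at e2
    omega

end Pool.Agent.LHA
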