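import Pool.Agent.LHA.Defs
import Pool.Agent.LHA.Nb1
import Pool.Agent.LHA.CellL

/-!
# From a colouring to a solution

Write `c k i p` for `c k (D.fv i p)`. For every cell `k`: `(0,0)` and `(2,0)` are attached to the root `0` of the cell `k`,
so (`mem`, `dis`) `c k 0 0 = w (s k)` for some `s k : Bool`, `c k 2 0 = w (!(s k))`. (Define `s` on ℕ by choice,
`false` outside `k < K`.) Let `b = s k`.
Arm 0: the vertex `(0, m1)` is attached to the root `1` of some cell `l` (`N.tot 0`), so `c k 0 m1 = t e` for some `e`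
(`mem`). The sequence `g p = c k 0 p` (`p ≤ m1`), `g (m1 + 1) = u` satisfies `rch_seq` (with `x = w b`, `y = g 1`):
adjacent by `hom`, `B_arm`, and `t e ∈ F 1 ⊆ N(u)`; `g p ≠ g (p+2)` by `inj` at `(0, p+1)` and for `p + 2 = m1 + 1` by `ne` at
`(0, m1)` (with the neighbour `(0, m1 - 1)`). So `Rch H m1 (w b) y (t e) u`, `y = g 1`; `y ≠ v` by `ne` at `(0,0)`
(attached to the root 0, `a 0 = v`) if `m1 > 0`, by `ne'` if `m1 = 0` (`y = u = a 1`, attached to both roots).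
Arm 1: the same with `g 0 = w b = c k 0 0`, `g (p+1) = c k 1 p` (`p < m2`), `g (m2 + 1) = U`, `en 1`; `c k (en 1) = s' e'`
(`s'` is the field `D.s`); `Rch H m2 (w b) z (D.s e') U`, `z = g 1`, `z ≠ v`. `y ≠ z`: `inj` at `(0,0)` if `m1, m2 > 0`, `ne` if
one of them is `0`, `ne'` if both are (`u = U` impossible as the roots 1 and 2 are different).
`tri_sound`: `e = b`, `e' = b`. So `c k (en 0) = t (s k)` and `c k (en 1) = D.s (s k)`.
If `k ≠ k'` are linked (`lk 0`) to the same `l` then by `dis` `t (s k) ≠ t (s k')`, so `s k ≠ s k'`; same for `lk 1`.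
Clause arm: if `lk 2 k l`: `c k 2 (j-1) ∈ F 3`, `= Y (y k)`; the sequence `g 0 = v`, `g (p+1) = c k 2 p` (`p < j`),
`g (j+1) = X` gives `Rch H j v (w (!b)) (Y (y k)) X`, i.e. `R (s k) (y k)` (`g 0 ≠ g 2` by `ne`, or `ne'` if `j = 1`;
the last step by `ne` at `(2, j-1)`). `k ≠ k'` linked to the same `l`: `dis`.
-/

namespace Pool.Agent.LHA

open Pool.Agent.LIH

section

variable {V : Type} {H : SimpleGraph V} (D : Kit H) (N : Ntw)
  (c : Fin N.K → (Fin 3 × Fin D.len) → V)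

theorem CellS_at0 (k : Fin N.K) : atN D N k (D.fv 0 0) k 0 := Or.inl ⟨rfl, rfl, Or.inl rfl⟩

theorem CellS_at2 (k : Fin N.K) : atN D N k (D.fv 2 0) k 0 := Or.inl ⟨rfl, rfl, Or.inr rfl⟩

theorem CellS_en {q : Fin 3} {k l : Fin N.K} (h : N.lk q k.1 l.1) : atN D N k (D.en q) l q.succ :=
  Or.inr ⟨q, rfl, rfl, h⟩

theorem CellS_tot (k : Fin N.K) (q : Fin 3) (hq : q ≠ 2) : ∃ l : Fin N.K, N.lk q k.1 l.1 := by
  obtain ⟨l, hl⟩ := N.tot q k.1 hq k.2
  exact ⟨⟨l, (N.dom _ _ _ hl).2⟩, hl⟩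

variable {D N c}

/-- the state of a cell -/
theorem CellS_state (hc : GoodCol H D.a D.F D.B (atN D N) c) (k : Fin N.K) :
    ∃ b, c k (D.fv 0 0) = D.w b ∧ c k (D.fv 2 0) = D.w (!b) := by
  obtain ⟨b, hb⟩ := hc.mem k _ k 0 (CellS_at0 D N k)
  obtain ⟨b', hb'⟩ := hc.mem k _ k 0 (CellS_at2 D N k)
  have hne : b' ≠ b := by
    rintro rfl
    have h := (hc.dis k 0 k _ k _ (CellS_at0 D N k) (CellS_at2 D N k) (hb.symm.trans hb')).2
    have h2 : (0 : Fin 3) = 2 := congrArg Prod.fst h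
    exact absurd h2 (by decide)
  have : b' = !b := by
    cases b <;> cases b' <;> simp_all
  exact ⟨b, hb.symm, by rw [← this]; exact hb'.symm⟩

/-- two vertices at distance two on an arm -/
theorem CellS_two (hc : GoodCol H D.a D.F D.B (atN D N) c) (k : Fin N.K) (i : Fin 3) {p : ℕ}
    (hp : p + 2 < D.L i) : c k (D.fv i p) ≠ c k (D.fv i (p + 2)) := by
  intro h
  have h1 : D.B.Adj (D.fv i (p + 1)) (D.fv i p) := (Kit.B_arm D i (by omega)).symm
  have h2 : D.B.Adj (D.fv i (p + 1)) (D.fv i (p + 2)) := Kit.B_arm D i (by omega)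
  have h3 := hc.inj k _ _ _ h1 h2 h
  have h4 := (Kit.fv_inj D (by omega) hp h3).2
  omega

/-- the first arm -/
theorem CellS_arm0 (hc : GoodCol H D.a D.F D.B (atN D N) c) (k : Fin N.K) {b : Bool}
    (hb : c k (D.fv 0 0) = D.w b) :
    ∃ e y, c k (D.en 0) = D.t e ∧ H.Adj (D.w b) y ∧ y ≠ D.v ∧ Rch H D.m1 (D.w b) y (D.t e) D.u ∧
      (0 < D.m1 → y = c k (D.fv 0 1)) ∧ (D.m1 = 0 → y = D.u) := by
  obtain ⟨l, hl⟩ := CellS_tot N k 0 (by decide)
  have hat : atN D N k (D.fv 0 D.m1) l 1 := CellS_en D N hl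
  obtain ⟨e, he⟩ := hc.mem k _ l 1 hat
  have hL : D.L 0 = D.m1 + 1 := rfl
  set g : ℕ → V := fun p => if p ≤ D.m1 then c k (D.fv 0 p) else D.u with hg
  have g1 : ∀ p, p ≤ D.m1 → g p = c k (D.fv 0 p) := fun p hp => if_pos hp
  have g2 : ∀ p, D.m1 < p → g p = D.u := fun p hp => if_neg (by omega)
  have hadj : ∀ p ≤ D.m1, H.Adj (g p) (g (p + 1)) := by
    intro p hp
    by_cases h1 : p + 1 ≤ D.m1
    · rw [g1 p hp, g1 _ h1]
      exact hc.hom k _ _ (Kit.B_arm D 0 (by omega))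
    · have h2 : p = D.m1 := by omega
      subst h2
      rw [g1 _ hp, g2 _ (by omega), ← he]
      exact (D.adj_t e).symm
  have hnb : ∀ p < D.m1, g p ≠ g (p + 2) := by
    intro p hp
    by_cases h1 : p + 2 ≤ D.m1
    · rw [g1 p hp.le, g1 _ h1]
      exact CellS_two hc k 0 (by omega)
    · have h2 : p + 1 = D.m1 := by omega
      rw [g1 p hp.le, g2 _ (by omega)]
      rw [← h2] at hat
      exact hc.ne k _ _ l 1 (Kit.B_arm D 0 (by omega)).symm hat
  have hg0 : g 0 = D.w b := by rw [g1 0 (Nat.zero_le _)]; exact hb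
  have hgm : g D.m1 = D.t e := by rw [g1 _ le_rfl]; exact he.symm
  refine ⟨e, g 1, he.symm, ?_, ?_, ?_, fun h => g1 1 h, fun h => g2 1 (by omega)⟩
  · rw [← hg0]; exact hadj 0 (Nat.zero_le _)
  · by_cases h : 0 < D.m1
    · rw [g1 1 h]
      exact hc.ne k _ _ k 0 (Kit.B_arm D 0 (by omega)) (CellS_at0 D N k)
    · have h0 : D.m1 = 0 := by omega
      rw [g2 1 (by omega)]
      intro huv
      rw [h0] at hat
      have := (hc.ne' k _ k 0 l 1 (CellS_at0 D N k) hat huv.symm).2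
      exact absurd this (by decide)
  · refine (rch_seq (by rw [← hg0]; exact hadj 0 (Nat.zero_le _))).2
      ⟨g, hg0, rfl, hgm, g2 _ (Nat.lt_succ_self _), hadj, hnb⟩

/-- the second arm -/
theorem CellS_arm1 (hc : GoodCol H D.a D.F D.B (atN D N) c) (k : Fin N.K) {b : Bool}
    (hb : c k (D.fv 0 0) = D.w b) :
    ∃ d z, c k (D.en 1) = D.s d ∧ H.Adj (D.w b) z ∧ z ≠ D.v ∧ Rch H D.m2 (D.w b) z (D.s d) D.U ∧
      (0 < D.m2 → z = c k (D.fv 1 0)) ∧ (D.m2 = 0 → z = D.U) := by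
  obtain ⟨l, hl⟩ := CellS_tot N k 1 (by decide)
  have hat : atN D N k (D.en 1) l 2 := CellS_en D N hl
  obtain ⟨d, hd⟩ := hc.mem k _ l 2 hat
  have hL : D.L 1 = D.m2 := rfl
  have en0 : D.m2 = 0 → D.en 1 = D.fv 0 0 := fun h => if_pos h
  have en1 : ∀ q, q + 1 = D.m2 → D.en 1 = D.fv 1 q := by
    intro q hq
    have h1 : D.en 1 = D.fv 1 (D.m2 - 1) := if_neg (by omega)
    rw [h1, ← hq]
    rfl
  set g : ℕ → V := fun p => if p = 0 then c k (D.fv 0 0) else
    if p - 1 < D.m2 then c k (D.fv 1 (p - 1)) else D.U with hg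
  have g0 : g 0 = c k (D.fv 0 0) := if_pos rfl
  have g1 : ∀ p, p < D.m2 → g (p + 1) = c k (D.fv 1 p) := fun p hp => by
    simp only [hg]
    rw [if_neg (by omega), if_pos (by omega)]
    rfl
  have g2 : ∀ p, D.m2 ≤ p → g (p + 1) = D.U := fun p hp => by
    simp only [hg]
    rw [if_neg (by omega), if_neg (by omega)]
  have hadj : ∀ p ≤ D.m2, H.Adj (g p) (g (p + 1)) := by
    intro p hp
    rcases p with _ | q
    · rw [g0]
      by_cases h1 : 0 < D.m2
      · rw [g1 0 h1]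
        exact hc.hom k _ _ (Kit.B_01 D h1)
      · rw [g2 0 (by omega), ← en0 (by omega), ← hd]
        exact (D.adj_s d).symm
    · rw [g1 q (by omega)]
      by_cases h1 : q + 1 < D.m2
      · rw [g1 _ h1]
        exact hc.hom k _ _ (Kit.B_arm D 1 (by omega))
      · rw [g2 _ (by omega), ← en1 q (by omega), ← hd]
        exact (D.adj_s d).symm
  have hnb : ∀ p < D.m2, g p ≠ g (p + 2) := by
    intro p hp
    rcases p with _ | q
    · rw [g0]
      by_cases h1 : 1 < D.m2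
      · rw [show (0 + 2 : ℕ) = 1 + 1 from rfl, g1 1 h1]
        intro h
        have h3 := hc.inj k _ _ _ (Kit.B_01 D (by omega)).symm
          (Kit.B_arm D 1 (p := 0) (by omega)) h
        have h4 : (0 : Fin 3) = 1 := congrArg Prod.fst h3
        exact absurd h4 (by decide)
      · rw [show (0 + 2 : ℕ) = 1 + 1 from rfl, g2 1 (by omega)]
        rw [en1 0 (by omega)] at hat
        exact hc.ne k _ _ l 2 (Kit.B_01 D (by omega)).symm hat
    · rw [g1 q (by omega)]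
      by_cases h1 : q + 2 < D.m2
      · rw [show (q + 1 + 2 : ℕ) = (q + 2) + 1 from rfl, g1 _ h1]
        exact CellS_two hc k 1 (by omega)
      · rw [show (q + 1 + 2 : ℕ) = (q + 2) + 1 from rfl, g2 _ (by omega)]
        rw [en1 (q + 1) (by omega)] at hat
        exact hc.ne k _ _ l 2 (Kit.B_arm D 1 (by omega)).symm hat
  have hg0 : g 0 = D.w b := by rw [g0]; exact hb
  have hgm : g D.m2 = D.s d := by
    rw [hd]
    by_cases h : D.m2 = 0
    · rw [en0 h, h, g0]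
    · obtain ⟨q, hq⟩ := Nat.exists_eq_succ_of_ne_zero h
      rw [en1 q hq.symm, hq]
      exact g1 q (by omega)
  refine ⟨d, g 1, hd.symm, ?_, ?_, ?_, fun h => g1 0 h, fun h => g2 0 (by omega)⟩
  · rw [← hg0]; exact hadj 0 (Nat.zero_le _)
  · by_cases h : 0 < D.m2
    · rw [show (1 : ℕ) = 0 + 1 from rfl, g1 0 h]
      exact hc.ne k _ _ k 0 (Kit.B_01 D h) (CellS_at0 D N k)
    · have h0 : D.m2 = 0 := by omega
      rw [show (1 : ℕ) = 0 + 1 from rfl, g2 0 (by omega)]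
      intro huv
      rw [en0 h0] at hat
      have := (hc.ne' k _ k 0 l 2 (CellS_at0 D N k) hat huv.symm).2
      exact absurd this (by decide)
  · refine (rch_seq (by rw [← hg0]; exact hadj 0 (Nat.zero_le _))).2
      ⟨g, hg0, rfl, hgm, g2 _ le_rfl, hadj, hnb⟩

/-- the first vertices of the arms are different -/
theorem CellS_yz (hc : GoodCol H D.a D.F D.B (atN D N) c) (k : Fin N.K) {y z : V}
    (hy1 : 0 < D.m1 → y = c k (D.fv 0 1)) (hy2 : D.m1 = 0 → y = D.u)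
    (hz1 : 0 < D.m2 → z = c k (D.fv 1 0)) (hz2 : D.m2 = 0 → z = D.U) : y ≠ z := by
  obtain ⟨l, hl⟩ := CellS_tot N k 0 (by decide)
  have hat : atN D N k (D.fv 0 D.m1) l 1 := CellS_en D N hl
  obtain ⟨l', hl'⟩ := CellS_tot N k 1 (by decide)
  have hat' : atN D N k (D.en 1) l' 2 := CellS_en D N hl'
  have hL : D.L 0 = D.m1 + 1 := rfl
  have en0 : D.m2 = 0 → D.en 1 = D.fv 0 0 := fun h => if_pos h
  by_cases h1 : 0 < D.m1
  · rw [hy1 h1]
    by_cases h2 : 0 < D.m2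
    · rw [hz1 h2]
      intro h
      have h3 := hc.inj k _ _ _ (Kit.B_arm D 0 (p := 0) (by omega)) (Kit.B_01 D h2) h
      have h4 : (0 : Fin 3) = 1 := congrArg Prod.fst h3
      exact absurd h4 (by decide)
    · rw [hz2 (by omega)]
      rw [en0 (by omega)] at hat'
      exact hc.ne k _ _ l' 2 (Kit.B_arm D 0 (by omega)) hat'
  · have h0 : D.m1 = 0 := by omega
    rw [hy2 h0]
    rw [h0] at hat
    by_cases h2 : 0 < D.m2
    · rw [hz1 h2]
      exact (hc.ne k _ _ l 1 (Kit.B_01 D h2) hat).symm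
    · rw [hz2 (by omega)]
      rw [en0 (by omega)] at hat'
      intro huU
      have := (hc.ne' k _ l 1 l' 2 hat hat' huU).2
      exact absurd this (by decide)

theorem CellS_ends (hc : GoodCol H D.a D.F D.B (atN D N) c) (k : Fin N.K) {b : Bool}
    (hb : c k (D.fv 0 0) = D.w b) : c k (D.en 0) = D.t b ∧ c k (D.en 1) = D.s b := by
  obtain ⟨e, y, he, hy, hyv, hyr, hy1, hy2⟩ := CellS_arm0 hc k hb
  obtain ⟨d, z, hd, hz, hzv, hzr, hz1, hz2⟩ := CellS_arm1 hc k hb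
  obtain ⟨h1, h2⟩ := D.tri_sound b e d y z hy hz hyv hzv (CellS_yz hc k hy1 hy2 hz1 hz2) hyr hzr
  rw [he, hd, h1, h2]
  exact ⟨rfl, rfl⟩

/-- the clause arm -/
theorem CellS_arm2 (hc : GoodCol H D.a D.F D.B (atN D N) c) (k l : Fin N.K) (hl : N.lk 2 k.1 l.1)
    {b : Bool} (hb : c k (D.fv 2 0) = D.w (!b)) {i : Fin 3} (hi : D.Y i = c k (D.en 2)) :
    D.R b i := by
  have hat : atN D N k (D.fv 2 (D.j - 1)) l 3 := CellS_en D N hl
  have hi' : D.Y i = c k (D.fv 2 (D.j - 1)) := hi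
  have hL : D.L 2 = D.j := rfl
  have hj := D.j_pos
  set g : ℕ → V := fun p => if p = 0 then D.v else
    if p - 1 < D.j then c k (D.fv 2 (p - 1)) else D.X with hg
  have g0 : g 0 = D.v := if_pos rfl
  have g1 : ∀ p, p < D.j → g (p + 1) = c k (D.fv 2 p) := fun p hp => by
    simp only [hg]
    rw [if_neg (by omega), if_pos (by omega)]
    rfl
  have g2 : ∀ p, D.j ≤ p → g (p + 1) = D.X := fun p hp => by
    simp only [hg]
    rw [if_neg (by omega), if_neg (by omega)]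
  have hadj : ∀ p ≤ D.j, H.Adj (g p) (g (p + 1)) := by
    intro p hp
    rcases p with _ | q
    · rw [g0, g1 0 hj, hb]
      exact D.adj_w _
    · rw [g1 q (by omega)]
      by_cases h1 : q + 1 < D.j
      · rw [g1 _ h1]
        exact hc.hom k _ _ (Kit.B_arm D 2 (by omega))
      · have h2 : D.j - 1 = q := by omega
        rw [g2 _ (by omega), ← h2, ← hi']
        exact (D.adj_Y i).symm
  have hnb : ∀ p < D.j, g p ≠ g (p + 2) := by
    intro p hp
    rcases p with _ | q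
    · rw [g0]
      by_cases h1 : 1 < D.j
      · rw [show (0 + 2 : ℕ) = 1 + 1 from rfl, g1 1 h1]
        exact (hc.ne k _ _ k 0 (Kit.B_arm D 2 (by omega)) (CellS_at2 D N k)).symm
      · rw [show (0 + 2 : ℕ) = 1 + 1 from rfl, g2 1 (by omega)]
        have h2 : D.j - 1 = 0 := by omega
        rw [h2] at hat
        intro hvX
        have := (hc.ne' k _ k 0 l 3 (CellS_at2 D N k) hat hvX).2
        exact absurd this (by decide)
    · rw [g1 q (by omega)]
      by_cases h1 : q + 2 < D.j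
      · rw [show (q + 1 + 2 : ℕ) = (q + 2) + 1 from rfl, g1 _ h1]
        exact CellS_two hc k 2 (by omega)
      · rw [show (q + 1 + 2 : ℕ) = (q + 2) + 1 from rfl, g2 _ (by omega)]
        have h2 : D.j - 1 = q + 1 := by omega
        rw [h2] at hat
        exact hc.ne k _ _ l 3 (Kit.B_arm D 2 (by omega)).symm hat
  have hg1 : g 1 = D.w (!b) := by rw [show (1 : ℕ) = 0 + 1 from rfl, g1 0 hj]; exact hb
  have hgm : g D.j = D.Y i := by
    obtain ⟨q, hq⟩ := Nat.exists_eq_succ_of_ne_zero hj.ne'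
    rw [hi', hq]
    exact g1 q (by omega)
  exact (rch_seq (D.adj_w _)).2 ⟨g, g0, hg1, hgm, g2 _ le_rfl, hadj, hnb⟩

end

theorem cell_sound {V : Type} {H : SimpleGraph V} (D : Kit H) (N : Ntw)
    (c : Fin N.K → (Fin 3 × Fin D.len) → V) (hc : GoodCol H D.a D.F D.B (atN D N) c) :
    Sol D.R N := by
  classical
  choose s' hs1 hs2 using CellS_state hc
  set s : ℕ → Bool := fun k => if h : k < N.K then s' ⟨k, h⟩ else false with hs
  have hse : ∀ k : Fin N.K, s k.1 = s' k := by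
    intro k
    simp only [hs]
    rw [dif_pos k.2]
  set y : ℕ → Fin 3 := fun k => if h : ∃ i : Fin 3, ∃ hk : k < N.K, D.Y i = c ⟨k, hk⟩ (D.en 2) then
    h.choose else 0 with hy
  have hye : ∀ k l : Fin N.K, N.lk 2 k.1 l.1 → D.Y (y k.1) = c k (D.en 2) := by
    intro k l hl
    obtain ⟨i, hi⟩ := hc.mem k _ l 3 (CellS_en D N hl)
    have h : ∃ i : Fin 3, ∃ hk : k.1 < N.K, D.Y i = c ⟨k.1, hk⟩ (D.en 2) := ⟨i, k.2, hi⟩
    simp only [hy]
    rw [dif_pos h]
    exact h.choose_spec.2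
  refine ⟨s, y, ?_, ?_, ?_⟩
  · intro i k k' l hi hkk hl hl'
    obtain ⟨hk, hlK⟩ := N.dom _ _ _ hl
    obtain ⟨hk', -⟩ := N.dom _ _ _ hl'
    have e1 : s k = s' ⟨k, hk⟩ := hse ⟨k, hk⟩
    have e2 : s k' = s' ⟨k', hk'⟩ := hse ⟨k', hk'⟩
    rw [e1, e2]
    intro hss
    have d1 : atN D N ⟨k, hk⟩ (D.en i) ⟨l, hlK⟩ i.succ := CellS_en D N hl
    have d2 : atN D N ⟨k', hk'⟩ (D.en i) ⟨l, hlK⟩ i.succ := CellS_en D N hl'
    have h1 := CellS_ends hc ⟨k, hk⟩ (hs1 ⟨k, hk⟩)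
    have h2 := CellS_ends hc ⟨k', hk'⟩ (hs1 ⟨k', hk'⟩)
    have h3 : c ⟨k, hk⟩ (D.en i) = c ⟨k', hk'⟩ (D.en i) := by
      rw [← hss] at h2
      fin_cases i
      · exact h1.1.trans h2.1.symm
      · exact h1.2.trans h2.2.symm
      · exact absurd rfl hi
    have h4 := (hc.dis _ _ _ _ _ _ d1 d2 h3).1
    exact hkk (congrArg Fin.val h4)
  · intro k l hl
    obtain ⟨hk, hlK⟩ := N.dom _ _ _ hl
    have e1 : s k = s' ⟨k, hk⟩ := hse ⟨k, hk⟩
    rw [e1]
    exact CellS_arm2 hc ⟨k, hk⟩ ⟨l, hlK⟩ hl (hs2 _) (hye ⟨k, hk⟩ ⟨l, hlK⟩ hl)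
  · intro k k' l hkk hl hl' hyy
    obtain ⟨hk, hlK⟩ := N.dom _ _ _ hl
    obtain ⟨hk', -⟩ := N.dom _ _ _ hl'
    have h1 : D.Y (y k) = c ⟨k, hk⟩ (D.en 2) := hye ⟨k, hk⟩ ⟨l, hlK⟩ hl
    have h2 : D.Y (y k') = c ⟨k', hk'⟩ (D.en 2) := hye ⟨k', hk'⟩ ⟨l, hlK⟩ hl'
    rw [← hyy] at h2
    have d1 : atN D N ⟨k, hk⟩ (D.en 2) ⟨l, hlK⟩ 3 := CellS_en D N hl
    have d2 : atN D N ⟨k', hk'⟩ (D.en 2) ⟨l, hlK⟩ 3 := CellS_en D N hl'
    have h4 := (hc.dis _ _ _ _ _ _ d1 d2 (h1.symm.trans h2)).1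
    exact hkk (congrArg Fin.val h4)

end Pool.Agent.LHA
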