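import Pool.Agent.LHA.Defs

/-!
# The neighbour function of the cover is an involution

Let `plain, good, nb` be as in `Defs`. `H.Adj (p u) y` is given.
(a) `u = (b, l)`, `y = c`, `plain b c l` (i.e. `e l = b`, `sw b c l ≠ l`): `nb u c = (c, l')`, `l' = sw b c l`.
 By `sw_e`: `e l' = c` (the other case gives `b = e l = c`). `sw c b l' = sw b c l' = l ≠ l'` (`sw_comm`,
 `sw_sw`), so `plain c b l'` and `nb (c, l') b = (b, l)`.
(b) `u = (b, l)`, not plain: then `good b c l`, `nb u c = (b, c, l, c)`; in `nb (b, c, l, c) b` the first condition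
 fails (`c = b` is false), the second one holds: the value is `(b, l)`.
(c) `u = (b, c, l, x)`, `good b c l`, `x = b`, `y = c`: `nb u c = (c, b, l', c)`, `l' = sw b c l`. Then `good c b l'`:
 `H.Adj c b`, and if `plain c b l'` then `e l' = c`, `sw c b l' = l ≠ l'`, so `sw b c l' ≠ l'` and by `sw_e` (for `l'`)
 `e (sw b c l') = b`, i.e. `e l = b`, and `sw b c l = l' ≠ l`: `plain b c l`, contradiction. Hence
 `nb (c, b, l', c) b = (b, c, sw c b l', b) = (b, c, l, b) = u` (first condition, with the roles of `b, c` exchanged).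
(d) `u = (b, c, l, c)`, `y = b`, `good b c l`: `nb u b = (b, l)` and `nb (b, l) c = (b, c, l, c)` since not plain.
(e) otherwise `nb u y = (b, c, l, y)` and `nb (b, c, l, y) x = (b, c, l, x)`: the two conditions for `(y, x)`
 are the exchanged conditions for `(x, y)`, which fail.
-/

namespace Pool.Agent.LHA

open Pool.Agent.LIH

variable {V : Type} {H : SimpleGraph V} {a : V} {R : ℕ} (T : Ball H a R)

theorem Ball.nb_p (u : T.W) (y : V) (h : H.Adj (T.p u) y) : T.p (T.nb u y) = y := by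
  rcases u with ⟨b, l⟩ | ⟨b, c, l, x⟩
  · by_cases hp : T.plain b y l
    · simp [Ball.nb, hp, Ball.p]
    · simp [Ball.nb, hp, Ball.p]
  · by_cases h1 : T.good b c l ∧ x = b ∧ y = c
    · rw [Ball.nb, if_pos h1]
      exact h1.2.2.symm
    · by_cases h2 : T.good b c l ∧ x = c ∧ y = b
      · rw [Ball.nb, if_neg h1, if_pos h2]
        exact h2.2.2.symm
      · rw [Ball.nb, if_neg h1, if_neg h2]
        rfl

/-- neighbours over plain edges -/
theorem Ball.plain_e {b c : V} {l : T.I} (hbc : H.Adj b c) (h : T.plain b c l) :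
    T.e (T.sw b c l) = c := by
  rcases T.sw_e b c l hbc h.2 with h1 | h1
  · exact h1.2
  · rw [h1.2, ← h.1, h1.1]

theorem Ball.good_symm {b c : V} {l : T.I} (h : T.good b c l) : T.good c b (T.sw b c l) := by
  refine ⟨h.1.symm, ?_⟩
  rintro ⟨h1, h2⟩
  rw [T.sw_comm, T.sw_sw b c l h.1] at h2
  rcases T.sw_e b c l h.1 h2.symm with h3 | h3
  · exact h.2 ⟨h3.1, h2.symm⟩
  · exact h.1.ne (h3.2.symm.trans h1)

theorem Ball.nb_nb (u : T.W) (y : V) (h : H.Adj (T.p u) y) : T.nb (T.nb u y) (T.p u) = u := by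
  rcases u with ⟨b, l⟩ | ⟨b, c, l, x⟩
  · have hby : H.Adj b y := h
    by_cases hp : T.plain b y l
    · have h1 : T.nb (.inl (b, l)) y = .inl (y, T.sw b y l) := by
        rw [Ball.nb, if_pos hp]
      rw [h1]
      have h2 : T.plain y b (T.sw b y l) := by
        refine ⟨T.plain_e hby hp, ?_⟩
        rw [T.sw_comm, T.sw_sw b y l hby]
        exact hp.2.symm
      show T.nb (.inl (y, T.sw b y l)) b = .inl (b, l)
      rw [Ball.nb, if_pos h2, T.sw_comm, T.sw_sw b y l hby]
    · have h1 : T.nb (.inl (b, l)) y = .inr (b, y, l, y) := by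
        rw [Ball.nb, if_neg hp]
      rw [h1]
      show T.nb (.inr (b, y, l, y)) b = .inl (b, l)
      rw [Ball.nb, if_neg, if_pos]
      · exact ⟨⟨hby, hp⟩, rfl, rfl⟩
      · rintro ⟨-, h2, -⟩
        exact hby.ne h2.symm
  · have hxy : H.Adj x y := h
    by_cases h1 : T.good b c l ∧ x = b ∧ y = c
    · obtain ⟨hg, rfl, rfl⟩ := h1
      have h2 : T.nb (.inr (x, y, l, x)) y = .inr (y, x, T.sw x y l, y) := by
        rw [Ball.nb, if_pos ⟨hg, rfl, rfl⟩]
      rw [h2]
      show T.nb (.inr (y, x, T.sw x y l, y)) x = .inr (x, y, l, x)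
      rw [Ball.nb, if_pos ⟨T.good_symm hg, rfl, rfl⟩, T.sw_comm, T.sw_sw x y l hxy]
    · by_cases h2 : T.good b c l ∧ x = c ∧ y = b
      · obtain ⟨hg, rfl, rfl⟩ := h2
        have h3 : T.nb (.inr (y, x, l, x)) y = .inl (y, l) := by
          rw [Ball.nb, if_neg h1, if_pos ⟨hg, rfl, rfl⟩]
        rw [h3]
        show T.nb (.inl (y, l)) x = .inr (y, x, l, x)
        rw [Ball.nb, if_neg hg.2]
      · have h3 : T.nb (.inr (b, c, l, x)) y = .inr (b, c, l, y) := by
          rw [Ball.nb, if_neg h1, if_neg h2]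
        rw [h3]
        show T.nb (.inr (b, c, l, y)) x = .inr (b, c, l, x)
        rw [Ball.nb, if_neg, if_neg]
        · rintro ⟨hg, e1, e2⟩
          exact h1 ⟨hg, e2, e1⟩
        · rintro ⟨hg, e1, e2⟩
          exact h2 ⟨hg, e2, e1⟩

end Pool.Agent.LHA
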