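import Pool.Agent.LHA.Defs
import Pool.Agent.LHA.CovInv

/-!
# The pins are covers with a depth

`PG_adj`: `cAdj` is symmetric by `nb_p`, `nb_nb`; `cut` is symmetric; irreflexive as `H` is.
`ro_nb`: for `H.Adj a c`: `nb ro c = (c, sw a c root)` because `e root = a` and
`d (sw a c root) = 1 ≠ 0 = d root`.
`dp`. `li`: edges are mapped to edges; if `v, v'` are adjacent to `u` and `p v = p v'` then
`v = nb u (p v) = nb u (p v') = v'`. `full`: let `2 ≤ dep u`, `v = nb u y`. Then `cAdj u v` (`nb_p`). Not cut:
`u = ro` is impossible (`dep ro = d root = 0`); if `v = ro` then `u = nb ro (p u) = (c, sw a c root)`,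
`c = p u` (`nb_nb`, `ro_nb`) and `e (sw a c root) = c` (`plain_e`), so `dep u = 1`.
`lip`: let `u, v` be adjacent, `v = nb u (p v)`.
 * `u = (b, l)`, `v = (c, l')`, plain: `e l = b`, `e l' = c`, `l' = sw b c l`: `dep u = d l`,
   `dep v = d l'` and `d_sw` in the two directions (`l = sw b c l'`).
 * `u = (b, l)`, `v = (b, c, l, c)`, `good`: `dep v = R`. `dep u ≤ R` (`d_le`), and `dep u = R`: if `e l = b` then
   `sw b c l = l` (not plain) so `d l = R` (`full` of the ball). The same with `u, v` exchanged.
 * both in cells: `(b, c, l, b)`, `(c, b, l', c)`: both good (`good_symm`), depth `R`; or the same cell: same depth.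
-/

namespace Pool.Agent.LHA

open Pool.Agent.LIH

variable {V : Type} {H : SimpleGraph V} {a : V} {R : ℕ} (T : Ball H a R)

theorem Ball.CovGraph_symm {u v : T.W} (h : T.cAdj u v) : T.cAdj v u := by
  refine ⟨h.1.symm, ?_⟩
  have h1 := T.nb_nb u (T.p v) h.1
  rwa [h.2] at h1

theorem Ball.CovGraph_cut {F : Set V} {u v : T.W} (h : T.cut F u v) : T.cut F v u := by
  rcases h with h | h
  · exact Or.inr h
  · exact Or.inl h

theorem Ball.PG_adj (F : Set V) (u v : T.W) :
    (T.PG F).Adj u v ↔ T.cAdj u v ∧ ¬ T.cut F u v := by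
  unfold Ball.PG
  rw [SimpleGraph.fromRel_adj]
  constructor
  · rintro ⟨-, h | h⟩
    · exact h
    · exact ⟨T.CovGraph_symm h.1, fun h0 => h.2 (T.CovGraph_cut h0)⟩
  · intro h
    refine ⟨?_, Or.inl h⟩
    rintro rfl
    exact h.1.1.ne rfl

theorem Ball.CovGraph_root {c : V} (h : H.Adj a c) : T.plain a c T.root := by
  refine ⟨T.e_root, fun h0 => ?_⟩
  have h1 := T.root_child c h
  rw [h0, T.d_root] at h1
  omega

theorem Ball.ro_nb (c : V) (h : H.Adj a c) : T.nb T.ro c = .inl (c, T.sw a c T.root) := by
  unfold Ball.ro Ball.nb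
  simp only
  rw [if_pos (T.CovGraph_root h)]

theorem Ball.CovGraph_depro : T.dep T.ro = 0 := by
  unfold Ball.ro Ball.dep
  simp only
  rw [if_pos T.e_root, T.d_root]

theorem Ball.CovGraph_R {b c : V} {l : T.I} (hg : T.good b c l) :
    T.dep (.inl (b, l)) = R := by
  unfold Ball.dep
  simp only
  split_ifs with h
  · have h1 : T.sw b c l = l := by
      by_contra h0
      exact hg.2 ⟨h, h0⟩
    by_contra h2
    have h3 := T.d_le l
    have h4 := T.full c l (by rw [h]; exact hg.1) (by omega)
    rw [h] at h4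
    exact h4 h1
  · rfl

/-- at depth `≥ 2` all neighbours are present -/
theorem Ball.adj_nb (F : Set V) (u : T.W) (h2 : 2 ≤ T.dep u) (y : V)
    (h : H.Adj (T.p u) y) : (T.PG F).Adj u (T.nb u y) := by
  rw [T.PG_adj]
  have hp := T.nb_p u y h
  refine ⟨⟨by rw [hp]; exact h, by rw [hp]⟩, ?_⟩
  rintro (⟨h1, -⟩ | ⟨h1, -⟩)
  · rw [h1, T.CovGraph_depro] at h2
    omega
  · have ha : y = a := by
      rw [← hp, h1]
      rfl
    subst ha
    have h3 := T.nb_nb u y h
    rw [h1, T.ro_nb _ h.symm] at h3
    have h4 := T.plain_e h.symm (T.CovGraph_root h.symm)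
    have h5 : T.dep u = 1 := by
      conv_lhs => rw [← h3]
      unfold Ball.dep
      simp only
      rw [if_pos h4, T.root_child _ h.symm]
    omega

theorem Ball.dp (hR : 2 ≤ R) (F : Set V) : Dp H (T.PG F) T.p T.dep := by
  classical
  refine ⟨⟨?_, ?_⟩, ?_, ?_⟩
  · intro u v huv
    rw [T.PG_adj] at huv
    exact huv.1.1
  · intro u v hv v' hv' h
    have h1 := ((T.PG_adj F u v).1 hv).1.2
    have h2 := ((T.PG_adj F u v').1 hv').1.2
    rw [← h1, ← h2, h]
  · intro u h2 y hy
    exact ⟨T.nb u y, T.adj_nb F u h2 y hy, T.nb_p u y hy⟩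
  · intro u v huv
    rw [T.PG_adj] at huv
    obtain ⟨⟨hadj, hnb⟩, -⟩ := huv
    rcases u with ⟨b, l⟩ | ⟨b, c, l, x⟩
    · generalize hc : T.p v = c at hadj hnb
      change H.Adj b c at hadj
      by_cases hpl : T.plain b c l
      · have h1 : T.nb (.inl (b, l)) c = .inl (c, T.sw b c l) := by
          unfold Ball.nb
          simp only
          rw [if_pos hpl]
        rw [h1] at hnb
        subst hnb
        unfold Ball.dep
        simp only
        rw [if_pos hpl.1, if_pos (T.plain_e hadj hpl)]
        have h2 := T.d_sw b c (T.sw b c l) hadj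
        rwa [T.sw_sw b c l hadj] at h2
      · have h1 : T.nb (.inl (b, l)) c = .inr (b, c, l, c) := by
          unfold Ball.nb
          simp only
          rw [if_neg hpl]
        rw [h1] at hnb
        subst hnb
        rw [T.CovGraph_R ⟨hadj, hpl⟩]
        unfold Ball.dep
        simp only
        rw [if_pos ⟨hadj, hpl⟩]
        omega
    · generalize hy : T.p v = y at hadj hnb
      change H.Adj x y at hadj
      have hdep : T.dep (.inr (b, c, l, x)) = if T.good b c l then R else R + 1 := rfl
      unfold Ball.nb at hnb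
      simp only at hnb
      split_ifs at hnb with h1 h2
      · subst hnb
        rw [hdep, if_pos h1.1]
        have h3 : T.dep (.inr (c, b, T.sw b c l, c)) = if T.good c b (T.sw b c l) then R else R + 1 :=
          rfl
        rw [h3, if_pos (T.good_symm h1.1)]
        omega
      · subst hnb
        rw [hdep, if_pos h2.1, T.CovGraph_R h2.1]
        omega
      · subst hnb
        rw [hdep]
        have h3 : T.dep (.inr (b, c, l, y)) = if T.good b c l then R else R + 1 := rfl
        rw [h3]
        omega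

theorem Ball.W_finite [Finite V] : Finite T.W := by
  haveI := T.fin
  infer_instance

end Pool.Agent.LHA
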