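import Pool.Agent.LHA.Defs
import Pool.Agent.LIH.Dfn
import Pool.Agent.LIH.DfnNet

/-!
# The literals are definable

`Unif lit` is defined in `LIH/DfnNet.lean`. `L = J.eval n0 * m` is a term. Use `DefF.divmod` (divisor `6`) for
`o / 6`, `o % 6`; then a case distinction on the value of `o % 6 < 6` (`DefF.exF` over `Fin 6`, or six cases);
in every case the condition is `lncn ... = G`, etc.: `DefF.ite` on `(τ + 1) % m = 0` (`def_mod`), linear terms; for the
entry `lit τ` use `Unif`. Compare `def_linkT` in `LIH/DfnNet.lean`.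
-/

namespace Pool.Agent.LHA

open Pool.Agent.LIH

section

variable (Nv J : Polynomial ℕ) {m : ℕ}

theorem DefLit_N {k : ℕ} : DefT k (fun _ n0 _ => Nv.eval n0) := DefT.polyLen Nv

theorem DefLit_L {k : ℕ} : DefT k (fun _ n0 _ => J.eval n0 * m) :=
  (DefT.polyLen J).mul (DefT.const m)

theorem DefLit_lone {k : ℕ} : DefT k (fun _ n0 _ => lone (Nv.eval n0) (J.eval n0 * m)) := by
  unfold lone
  exact (DefT.const 2).mul ((DefLit_N Nv).add ((DefT.const 3).mul (DefLit_L J)))

theorem DefLit_lone1 {k : ℕ} : DefT k (fun _ n0 _ => lone (Nv.eval n0) (J.eval n0 * m) + 1) :=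
  (DefLit_lone Nv J).add (DefT.const 1)

/-- the term `2 * (Nv + 3 * τ + c)` -/
theorem DefLit_v {k : ℕ} {T : CT k} (hT : DefT k T) (c : ℕ) :
    DefT k (fun y n0 w => 2 * (Nv.eval n0 + 3 * T y n0 w + c)) :=
  (DefT.const 2).mul (((DefLit_N Nv).add ((DefT.const 3).mul hT)).add (DefT.const c))

theorem DefLit_v0 {k : ℕ} {T : CT k} (hT : DefT k T) :
    DefT k (fun y n0 w => 2 * (Nv.eval n0 + 3 * T y n0 w)) :=
  (DefT.const 2).mul ((DefLit_N Nv).add ((DefT.const 3).mul hT))

variable (hm : 0 < m) {k : ℕ} {T G : CT k} (hT : DefT k T) (hG : DefT k G)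

include hm hT hG

theorem DefLit_lncn : DefF k (fun y n0 w => lncn (Nv.eval n0) (J.eval n0 * m) m (T y n0 w) =
    G y n0 w) := by
  refine (DefF.ite (def_mod (hT.add (DefT.const 1)) hm 0)
    (DefF.eq (DefLit_lone1 Nv J (m := m)) hG)
    (DefF.eq ((DefLit_v0 Nv (hT.add (DefT.const 1))).add (DefT.const 1)) hG)).congr
    (fun y n0 w => ?_)
  unfold lncn
  split_ifs <;> rfl

theorem DefLit_lcc : DefF k (fun y n0 w => lcc (Nv.eval n0) (J.eval n0 * m) m (T y n0 w) =
    G y n0 w) := by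
  refine (DefF.ite (def_mod hT hm 0)
    (DefF.eq (DefLit_lone1 Nv J (m := m)) hG)
    (DefF.eq (DefLit_v0 Nv hT) hG)).congr
    (fun y n0 w => ?_)
  unfold lcc
  split_ifs <;> rfl

theorem DefLit_lncc : DefF k (fun y n0 w => lncc (Nv.eval n0) (J.eval n0 * m) m (T y n0 w) =
    G y n0 w) := by
  refine (DefF.ite (def_mod hT hm 0)
    (DefF.eq (DefLit_lone Nv J (m := m)) hG)
    (DefF.eq ((DefLit_v0 Nv hT).add (DefT.const 1)) hG)).congr
    (fun y n0 w => ?_)
  unfold lncc
  split_ifs <;> rfl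

theorem DefLit_six (μ : Fin 3) {lit : List Bool → ℕ → ℕ → ℕ} (hlit : Unif lit) (c : Fin 6) :
    DefF k (fun y n0 w => six (Nv.eval n0) (J.eval n0 * m) m (lit y n0) (T y n0 w) μ c =
      G y n0 w) := by
  have h1 := DefLit_lncn Nv J hm hT hG
  have h2 := DefLit_lcc Nv J hm hT hG
  have h3 := DefLit_lncc Nv J hm hT hG
  have h4 : DefF k (fun y n0 w => lit y n0 (T y n0 w) = G y n0 w) := hlit k T G hT hG
  have h5 := DefF.eq (DefLit_v Nv hT 1) hG
  have h5' := DefF.eq ((DefLit_v Nv hT 1).add (DefT.const 1)) hG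
  have h6 := DefF.eq (DefLit_v Nv hT 2) hG
  have h7 := DefF.eq (DefLit_lone Nv J (m := m) (k := k)) hG
  have h8 := DefF.eq (DefLit_lone1 Nv J (m := m) (k := k)) hG
  fin_cases μ
  · fin_cases c
    · exact h1
    · exact h4
    · exact h5
    · exact h5
    · exact h3
    · exact h6
  · fin_cases c
    · exact h1
    · exact h2
    · exact h5
    · exact h5'
    · exact h4
    · exact h8
  · fin_cases c
    · exact h1
    · exact h2
    · exact h4
    · exact h7
    · exact h7
    · exact h7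

omit hm hT in
theorem DefLit_last (μ : Fin 3) (c : Fin 3) :
    DefF k (fun y n0 w => last3 (Nv.eval n0) (J.eval n0 * m) μ c = G y n0 w) := by
  have h7 := DefF.eq (DefLit_lone Nv J (m := m) (k := k)) hG
  have h8 := DefF.eq (DefLit_lone1 Nv J (m := m) (k := k)) hG
  fin_cases μ
  · fin_cases c
    · exact h8
    · exact h8
    · exact h7
  · fin_cases c
    · exact h7
    · exact h8
    · exact h7
  · fin_cases c
    · exact h7
    · exact h7
    · exact h7

end

theorem def_lit3 (μ : Fin 3) (Nv J : Polynomial ℕ) {m : ℕ} (hm : 0 < m)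
    {lit : List Bool → ℕ → ℕ → ℕ} (hlit : Unif lit) {k : ℕ} {F G : CT k} (hF : DefT k F)
    (hG : DefT k G) :
    DefF k (fun y n0 w => lit3 μ (Nv.eval n0) (J.eval n0 * m) m (lit y n0) (F y n0 w) =
      G y n0 w) := by
  have key : DefF k (fun y n0 w => ∃ c : Fin 6, F y n0 w % 6 = c.1 ∧
      (if F y n0 w / 6 < J.eval n0 * m then
        six (Nv.eval n0) (J.eval n0 * m) m (lit y n0) (F y n0 w / 6) μ c = G y n0 w
        else last3 (Nv.eval n0) (J.eval n0 * m) μ ⟨c.1 % 3, Nat.mod_lt _ (by norm_num)⟩ =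
          G y n0 w)) := by
    refine DefF.exF (fun c => ?_)
    refine DefF.divmod (P := fun y n0 w q r => r = c.1 ∧ (if q < J.eval n0 * m then
        six (Nv.eval n0) (J.eval n0 * m) m (lit y n0) q μ c = G y n0 w
        else last3 (Nv.eval n0) (J.eval n0 * m) μ ⟨c.1 % 3, Nat.mod_lt _ (by norm_num)⟩ =
          G y n0 w)) hF (DefT.const 6) (fun _ _ _ => by norm_num) ?_
    refine (DefF.eq DefT.last (DefT.const c.1)).and ?_
    refine DefF.ite ?_ ?_ ?_
    · exact DefF.lt DefT.last.init (DefLit_L J)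
    · exact DefLit_six Nv J hm DefT.last.init hG.init.init μ hlit c
    · exact DefLit_last Nv J hG.init.init μ _
  refine key.congr (fun y n0 w => ?_)
  unfold lit3
  constructor
  · rintro ⟨c, hc, h⟩
    have hc' : c = ⟨F y n0 w % 6, Nat.mod_lt _ (by norm_num)⟩ := Fin.ext hc.symm
    subst hc'
    split_ifs at h ⊢ <;> exact h
  · intro h
    refine ⟨⟨F y n0 w % 6, Nat.mod_lt _ (by norm_num)⟩, rfl, ?_⟩
    split_ifs at h ⊢ <;> exact h

end Pool.Agent.LHA
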