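import Pool.Agent.LHA.Defs
import Pool.Agent.LIH.Dfn
import Pool.Agent.LIH.DfnNet
import Pool.Agent.LHA.DefLit

/-!
# The adjacency relation is definable

`def_lk`: `KK Nv L`, `TT L` are terms (`L = J.eval n0 * m`; polynomials in `n0`: products and sums of `DefT.polyLen`,
`DefT.const`). `lk3 0`: `l = k - k % 2`: write `k % 2 = 0 ∧ l = k ∨ k % 2 = 1 ∧ l + 1 = k`. `lk3 1`: `DefF.divmod` with the divisor
`TT L > 0`. `lk3 2`: `DefF.divmod` with `TT L`: `q = k / TT`, `t = k % TT`; then `t / 2`, `t % 2` (`DefF.divmod`) and `t / 6`; `def_lit3`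
with `F = t / 2` (a variable after `divmod`) and `G = 2 q + t % 2`.
`def_adjM`: finite disjunction over `x, y : D.Z` (`DefF.exF`), bounded quantifiers `k < K`, `l < K` (`DefF.ex`), `adjZ`: by cases on
`x`, `y`: conjunctions and disjunctions of `k = l`, constants (`DefF.prop`) and `def_lk`. Compare `def_adj` in
`LIH/DfnNet.lean` (same structure).
-/

namespace Pool.Agent.LHA

open Pool.Agent.LIH

theorem DefAdj_TT (J : Polynomial ℕ) (m : ℕ) {k : ℕ} :
    DefT k (fun _ n0 _ => TT (J.eval n0 * m)) := by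
  unfold TT
  exact (DefT.const 6).mul (((DefT.const 2).mul ((DefT.polyLen J).mul (DefT.const m))).add
    (DefT.const 1))

theorem DefAdj_KK (Nv J : Polynomial ℕ) (m : ℕ) {k : ℕ} :
    DefT k (fun _ n0 _ => KK (Nv.eval n0) (J.eval n0 * m)) := by
  unfold KK
  exact (((DefT.polyLen Nv).add ((DefT.const 3).mul ((DefT.polyLen J).mul (DefT.const m)))).add
    (DefT.const 1)).mul (DefAdj_TT J m)

theorem DefAdj_TT_pos (L : ℕ) : 0 < TT L := by unfold TT; omega

open Pool.Agent.LIH in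
theorem def_lk (μ : Fin 3) (Nv J : Polynomial ℕ) {m : ℕ} (hm : 0 < m)
    {lit : List Bool → ℕ → ℕ → ℕ} (hlit : Unif lit) (q : Fin 3) {k : ℕ} {A B : CT k}
    (hA : DefT k A) (hB : DefT k B) :
    DefF k (fun y n0 w => lk3 (Nv.eval n0) (J.eval n0 * m)
      (lit3 μ (Nv.eval n0) (J.eval n0 * m) m (lit y n0)) q (A y n0 w) (B y n0 w)) := by
  have hK : DefF k (fun y n0 w => A y n0 w < KK (Nv.eval n0) (J.eval n0 * m)) :=
    DefF.lt hA (DefAdj_KK Nv J m)
  fin_cases q
  · show DefF k (fun y n0 w => A y n0 w < KK (Nv.eval n0) (J.eval n0 * m) ∧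
      B y n0 w = A y n0 w - A y n0 w % 2)
    refine hK.and ((((def_mod hA (by omega : 0 < 2) 0).and (DefF.eq hB hA)).or
      ((def_mod hA (by omega : 0 < 2) 1).and
        (DefF.eq (hB.add (DefT.const 1)) hA))).congr (fun y n0 w => ?_))
    omega
  · show DefF k (fun y n0 w => A y n0 w < KK (Nv.eval n0) (J.eval n0 * m) ∧
      ((B y n0 w = A y n0 w ∧ (A y n0 w % TT (J.eval n0 * m) = 0 ∨ A y n0 w % 2 = 1)) ∨
      (B y n0 w + 1 = A y n0 w ∧ A y n0 w % TT (J.eval n0 * m) ≠ 0 ∧ A y n0 w % 2 = 0)))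
    have hz : DefF k (fun y n0 w => A y n0 w % TT (J.eval n0 * m) = 0) :=
      DefF.divmod (P := fun _ _ _ _ r => r = 0) hA (DefAdj_TT J m)
        (fun _ _ _ => DefAdj_TT_pos _) (DefF.eq DefT.last (DefT.const 0))
    exact hK.and (((DefF.eq hB hA).and (hz.or (def_mod hA (by omega : 0 < 2) 1))).or
      ((DefF.eq (hB.add (DefT.const 1)) hA).and (hz.neg.and (def_mod hA (by omega : 0 < 2) 0))))
  · show DefF k (fun y n0 w => A y n0 w < KK (Nv.eval n0) (J.eval n0 * m) ∧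
      lit3 μ (Nv.eval n0) (J.eval n0 * m) m (lit y n0) (A y n0 w % TT (J.eval n0 * m) / 2) =
        2 * (A y n0 w / TT (J.eval n0 * m)) + A y n0 w % TT (J.eval n0 * m) % 2 ∧
      B y n0 w = A y n0 w % TT (J.eval n0 * m) / 6)
    refine hK.and (DefF.and ?_ ?_)
    · refine DefF.divmod (P := fun y n0 _ q r =>
        lit3 μ (Nv.eval n0) (J.eval n0 * m) m (lit y n0) (r / 2) = 2 * q + r % 2) hA
        (DefAdj_TT J m) (fun _ _ _ => DefAdj_TT_pos _) ?_
      refine DefF.divmod (k := k + 2) (P := fun y n0 w q' r' =>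
        lit3 μ (Nv.eval n0) (J.eval n0 * m) m (lit y n0) q' =
          2 * ((Fin.init w : Fin (k + 1) → ℕ) (Fin.last k)) + r')
        (A := fun _ _ w => w (Fin.last (k + 1))) (B := fun _ _ _ => 2)
        DefT.last (DefT.const 2) (fun _ _ _ => by omega) ?_
      exact def_lit3 μ Nv J hm hlit DefT.last.init
        (((DefT.const 2).mul DefT.last.init.init.init).add DefT.last)
    · refine DefF.divmod (P := fun y n0 w _ r => B y n0 w = r / 6) hA
        (DefAdj_TT J m) (fun _ _ _ => DefAdj_TT_pos _) ?_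
      refine DefF.divmod (k := k + 2) (P := fun y n0 w q' _ =>
        B y n0 (Fin.init (Fin.init w)) = q')
        (A := fun _ _ w => w (Fin.last (k + 1))) (B := fun _ _ _ => 6)
        DefT.last (DefT.const 6) (fun _ _ _ => by omega) ?_
      exact DefF.eq hB.init.init.init.init DefT.last.init

open Pool.Agent.LIH in
theorem DefAdj_at {V : Type} {H : SimpleGraph V} (D : Kit H) (μ : Fin 3) (Nv J : Polynomial ℕ)
    {m : ℕ} (hm : 0 < m) {lit : List Bool → ℕ → ℕ → ℕ} (hlit : Unif lit)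
    (z : Fin 3 × Fin D.len) (i : Fin 4) {k : ℕ} {A B : CT k} (hA : DefT k A) (hB : DefT k B) :
    DefF k (fun y n0 w => atZ D (lk3 (Nv.eval n0) (J.eval n0 * m)
      (lit3 μ (Nv.eval n0) (J.eval n0 * m) m (lit y n0))) (A y n0 w) z (B y n0 w) i) := by
  unfold atZ
  exact ((DefF.prop _).and ((DefF.eq hA hB).and (DefF.prop _))).or
    (DefF.exF (fun q => (DefF.prop _).and ((DefF.prop _).and (def_lk μ Nv J hm hlit q hA hB))))

open Pool.Agent.LIH in
theorem DefAdj_adjZ {V : Type} {H : SimpleGraph V} (D : Gad H) (μ : Fin 3)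
    (Nv J : Polynomial ℕ) {m : ℕ} (hm : 0 < m) {lit : List Bool → ℕ → ℕ → ℕ} (hlit : Unif lit)
    (x z : D.Z) {k : ℕ} {A B : CT k} (hA : DefT k A) (hB : DefT k B) :
    DefF k (fun y n0 w => adjZ D (lk3 (Nv.eval n0) (J.eval n0 * m)
      (lit3 μ (Nv.eval n0) (J.eval n0 * m) m (lit y n0))) (A y n0 w) (B y n0 w) x z) := by
  rcases x with x | x <;> rcases z with z | z
  · exact (DefF.eq hA hB).and (DefF.prop _)
  · exact DefF.exF (fun i => (DefF.prop _).and
      (DefAdj_at D.toKit μ Nv J hm hlit z i hB hA))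
  · exact DefF.exF (fun i => (DefF.prop _).and
      (DefAdj_at D.toKit μ Nv J hm hlit x i hA hB))
  · exact (DefF.eq hA hB).and (DefF.prop _)

open Pool.Agent.LIH in
theorem def_adjM {V : Type} {H : SimpleGraph V} (D : Gad H) (μ : Fin 3) (Nv J : Polynomial ℕ)
    {m : ℕ} (hm : 0 < m) {lit : List Bool → ℕ → ℕ → ℕ} (hlit : Unif lit) :
    DefF 2 (fun y n0 w => adjM D (KK (Nv.eval n0) (J.eval n0 * m))
      (lk3 (Nv.eval n0) (J.eval n0 * m)
        (lit3 μ (Nv.eval n0) (J.eval n0 * m) m (lit y n0))) (w 0) (w 1)) := by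
  unfold adjM
  refine DefF.exF (fun s => DefF.exF (fun t => ?_))
  have hk : DefT 4 (fun _ _ w => (Fin.init w : Fin 3 → ℕ) (Fin.last 2)) := DefT.last.init
  have hl : DefT 4 (fun _ _ w => w (Fin.last 3)) := DefT.last
  have h0 : DefT 4 (fun _ _ w => (Fin.init (Fin.init w : Fin 3 → ℕ) : Fin 2 → ℕ) 0) :=
    (DefT.var 0).init.init
  have h1 : DefT 4 (fun _ _ w => (Fin.init (Fin.init w : Fin 3 → ℕ) : Fin 2 → ℕ) 1) :=
    (DefT.var 1).init.init
  refine DefF.ex (P := fun y n0 w a => ∃ b < KK (Nv.eval n0) (J.eval n0 * m),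
    w 0 = (D.num s).1 + D.M * a ∧ w 1 = (D.num t).1 + D.M * b ∧
      adjZ D (lk3 (Nv.eval n0) (J.eval n0 * m)
        (lit3 μ (Nv.eval n0) (J.eval n0 * m) m (lit y n0))) a b s t)
    (DefAdj_KK Nv J m) ?_
  refine DefF.ex (P := fun y n0 w b =>
    (Fin.init w : Fin 2 → ℕ) 0 = (D.num s).1 + D.M * w (Fin.last 2) ∧
    (Fin.init w : Fin 2 → ℕ) 1 = (D.num t).1 + D.M * b ∧
      adjZ D (lk3 (Nv.eval n0) (J.eval n0 * m)
        (lit3 μ (Nv.eval n0) (J.eval n0 * m) m (lit y n0))) (w (Fin.last 2)) b s t)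
    (DefAdj_KK Nv J m) ?_
  exact (DefF.eq h0 ((DefT.const _).add ((DefT.const _).mul hk))).and
    ((DefF.eq h1 ((DefT.const _).add ((DefT.const _).mul hl))).and
      (DefAdj_adjZ D μ Nv J hm hlit s t hk hl))

end Pool.Agent.LHA
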