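import Mathlib
import Pool.Agent.LIH.Defs

/-!
# `H`-LIHOM for asymmetric graphs: definitions

Notation. `Rch H m x y a b` (only used if `x y` is an edge): there is a non-backtracking walk
`x, y, ..., a, b` with `m + 1` edges, i.e. from the dart (directed edge) `(x, y)` one reaches the dart
`(a, b)` in `m` non-backtracking steps.
-/

namespace Pool.Agent.LHA

open Pool.Agent.LIH

/-- there is a non-backtracking walk `x, y, ..., a, b` with `m + 1` edges -/
def Rch {V : Type} (H : SimpleGraph V) : ℕ → V → V → V → V → Prop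
  | 0, x, y, a, b => a = x ∧ b = y
  | m + 1, x, y, a, b => ∃ z, Rch H m x y z a ∧ H.Adj a b ∧ b ≠ z

/-- there is a walk from `x` to `y` whose length has the parity of `n` -/
def PWalk {V : Type} (H : SimpleGraph V) (n : ℕ) (x y : V) : Prop :=
  ∃ w : H.Walk x y, w.length % 2 = n % 2

/-- a pin: a finite graph with a root `r` which every locally injective homomorphism to `H` maps to
`a`, the neighbours of `r` being mapped onto the neighbours of `a` not in `F` -/
def Pin {V : Type} (H : SimpleGraph V) (a : V) (F : Set V) : Prop :=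
  ∃ (n : ℕ) (P : SimpleGraph (Fin n)) (r : Fin n), (∃ p : Fin n → V, LocInj P H p) ∧
    ∀ f : Fin n → V, LocInj P H f → f r = a ∧ f '' P.neighborSet r = H.neighborSet a \ F

/-- all pins exist -/
def Pins {V : Type} (H : SimpleGraph V) : Prop :=
  ∀ (a : V) (F : Set V), F ⊂ H.neighborSet a → Pin H a F

/-- the combinatorial data of the reduction -/
structure Kit {V : Type} (H : SimpleGraph V) where
  /-- the centre of the choice: its two free slots have the values `w true`, `w false` -/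
  v : V
  w : Bool → V
  /-- first arm: `m1` inner vertices, ends at `u` from `t b` -/
  m1 : ℕ
  u : V
  t : Bool → V
  /-- second arm -/
  m2 : ℕ
  U : V
  s : Bool → V
  /-- clause arm: starts at `v`, has `j` inner vertices, ends at `X` from one of the `Y i` -/
  j : ℕ
  X : V
  Y : Fin 3 → V
  adj_w : ∀ b, H.Adj v (w b)
  ne_w : w true ≠ w false
  free_w : ∃ c, H.Adj v c ∧ ∀ b, c ≠ w b
  adj_t : ∀ b, H.Adj u (t b)
  ne_t : t true ≠ t false
  free_t : ∃ c, H.Adj u c ∧ ∀ b, c ≠ t b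
  adj_s : ∀ b, H.Adj U (s b)
  ne_s : s true ≠ s false
  free_s : ∃ c, H.Adj U c ∧ ∀ b, c ≠ s b
  tri_sound : ∀ b c d y z, H.Adj (w b) y → H.Adj (w b) z → y ≠ v → z ≠ v → y ≠ z →
    Rch H m1 (w b) y (t c) u → Rch H m2 (w b) z (s d) U → c = b ∧ d = b
  tri_complete : ∀ b, ∃ y z, H.Adj (w b) y ∧ H.Adj (w b) z ∧ y ≠ v ∧ z ≠ v ∧ y ≠ z ∧
    Rch H m1 (w b) y (t b) u ∧ Rch H m2 (w b) z (s b) U
  j_pos : 0 < j
  adj_Y : ∀ i, H.Adj X (Y i)
  inj_Y : Function.Injective Y
  free_Y : ∃ c, H.Adj X c ∧ ∀ i, c ≠ Y i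
  cl0 : ¬ Rch H j v (w true) (Y 0) X
  cl1 : Rch H j v (w true) (Y 1) X
  cl2 : Rch H j v (w true) (Y 2) X
  cl3 : Rch H j v (w false) (Y 0) X

namespace Kit

variable {V : Type} {H : SimpleGraph V} (D : Kit H)

/-- the values of the four roots -/
def a : Fin 4 → V := ![D.v, D.u, D.U, D.X]

/-- the free slots of the four roots -/
def F : Fin 4 → Set V := ![Set.range D.w, Set.range D.t, Set.range D.s, Set.range D.Y]

/-- In the state `b` the first slot of `v` is `w b`, the second one (start of the clause arm) is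
`w (!b)`; `R b i`: the clause arm can end at `Y i`. -/
def R (b : Bool) (i : Fin 3) : Prop := Rch H D.j D.v (D.w (!b)) (D.Y i) D.X

/-- bound for the number of free vertices of an arm -/
def len : ℕ := D.m1 + D.m2 + D.j + 1

/-- number of free vertices of the arms -/
def L : Fin 3 → ℕ := ![D.m1 + 1, D.m2, D.j]

theorem len_pos : 0 < D.len := by unfold len; omega

/-- the free vertex number `p` of the arm `i` (`p < L i`) -/
def fv (i : Fin 3) (p : ℕ) : Fin 3 × Fin D.len := (i, ⟨p % D.len, Nat.mod_lt _ D.len_pos⟩)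

/-- the graph of the free vertices: three paths; the first vertices of the arms `0` and `1` are
adjacent; the vertices `(i, p)` with `L i ≤ p` are isolated -/
def B : SimpleGraph (Fin 3 × Fin D.len) :=
  SimpleGraph.fromRel (fun x y => (x.1 = y.1 ∧ y.2.1 = x.2.1 + 1 ∧ y.2.1 < D.L x.1) ∨
    (x.1 = 0 ∧ x.2.1 = 0 ∧ y.1 = 1 ∧ y.2.1 = 0 ∧ 0 < D.m2))

/-- the last vertices of the arms -/
def en : Fin 3 → Fin 3 × Fin D.len :=
  ![D.fv 0 D.m1, if D.m2 = 0 then D.fv 0 0 else D.fv 1 (D.m2 - 1), D.fv 2 (D.j - 1)]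

end Kit

/-! ## Gluing pins to a graph of free vertices -/

section glue

variable {κ W Y : Type} (P : SimpleGraph W) (r : Fin 4 → W) (B : SimpleGraph Y)
  (att : κ → Y → κ → Fin 4 → Prop)

/-- Adjacency of the glued graph: `κ` copies of `P` and of `B`; `att k y l i` says that the vertex
`y` of the copy `k` of `B` is attached to the root `r i` of the copy `l` of `P`. -/
def gAdj : κ × (W ⊕ Y) → κ × (W ⊕ Y) → Prop
  | (k, .inl x), (l, .inl y) => k = l ∧ P.Adj x y
  | (k, .inr x), (l, .inr y) => k = l ∧ B.Adj x y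
  | (k, .inr y), (l, .inl x) => ∃ i, x = r i ∧ att k y l i
  | (l, .inl x), (k, .inr y) => ∃ i, x = r i ∧ att k y l i

/-- the glued graph -/
def glue : SimpleGraph (κ × (W ⊕ Y)) := SimpleGraph.fromRel (gAdj P r B att)

theorem gAdj_symm (x y : κ × (W ⊕ Y)) (h : gAdj P r B att x y) : gAdj P r B att y x := by
  obtain ⟨k, x | x⟩ := x <;> obtain ⟨l, y | y⟩ := y <;> simp only [gAdj] at h ⊢
  · exact ⟨h.1.symm, h.2.symm⟩
  · exact h
  · exact h
  · exact ⟨h.1.symm, h.2.symm⟩

theorem gAdj_irrefl (x : κ × (W ⊕ Y)) : ¬ gAdj P r B att x x := by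
  obtain ⟨k, x | x⟩ := x <;> simp [gAdj]

theorem glue_adj (x y : κ × (W ⊕ Y)) : (glue P r B att).Adj x y ↔ gAdj P r B att x y := by
  unfold glue
  rw [SimpleGraph.fromRel_adj]
  constructor
  · rintro ⟨-, h | h⟩
    · exact h
    · exact gAdj_symm _ _ _ _ _ _ h
  · intro h
    refine ⟨?_, Or.inl h⟩
    rintro rfl
    exact gAdj_irrefl _ _ _ _ _ h

end glue

/-- the colourings `c` of the free vertices which extend -/
structure GoodCol {V κ Y : Type} (H : SimpleGraph V) (a : Fin 4 → V) (F : Fin 4 → Set V)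
    (B : SimpleGraph Y) (att : κ → Y → κ → Fin 4 → Prop) (c : κ → Y → V) : Prop where
  hom : ∀ k y y', B.Adj y y' → H.Adj (c k y) (c k y')
  inj : ∀ k y y1 y2, B.Adj y y1 → B.Adj y y2 → c k y1 = c k y2 → y1 = y2
  mem : ∀ k y l i, att k y l i → c k y ∈ F i
  ne : ∀ k y y' l i, B.Adj y y' → att k y l i → c k y' ≠ a i
  ne' : ∀ k y l i l' i', att k y l i → att k y l' i' → a i = a i' → l = l' ∧ i = i'
  dis : ∀ l i k y k' y', att k y l i → att k' y' l i → c k y = c k' y' → k = k' ∧ y = y'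

/-- one finite graph containing the four pins of a kit -/
structure Gad {V : Type} (H : SimpleGraph V) extends Kit H where
  n : ℕ
  P : SimpleGraph (Fin n)
  r : Fin 4 → Fin n
  r_inj : Function.Injective r
  ex_p : ∃ p : Fin n → V, LocInj P H p
  pin : ∀ f : Fin n → V, LocInj P H f → ∀ i, f (r i) = toKit.a i ∧
    f '' P.neighborSet (r i) = H.neighborSet (toKit.a i) \ toKit.F i

/-! ## Networks -/

/-- A network: `K` cells; `lk i k l`: the end of the arm `i` of the cell `k` is attached to the root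
number `i + 1` of the cell `l`. -/
structure Ntw where
  K : ℕ
  lk : Fin 3 → ℕ → ℕ → Prop
  dom : ∀ i k l, lk i k l → k < K ∧ l < K
  fn : ∀ i k l l', lk i k l → lk i k l' → l = l'
  tot : ∀ i k, i ≠ 2 → k < K → ∃ l, lk i k l

/-- the free vertex `y` of the cell `k` is attached to the root `i` of the cell `l` -/
def atZ {V : Type} {H : SimpleGraph V} (D : Kit H) (lk : Fin 3 → ℕ → ℕ → Prop) (k : ℕ)
    (y : Fin 3 × Fin D.len) (l : ℕ) (i : Fin 4) : Prop :=
  (i = 0 ∧ k = l ∧ (y = D.fv 0 0 ∨ y = D.fv 2 0)) ∨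
    ∃ q : Fin 3, i = q.succ ∧ y = D.en q ∧ lk q k l

/-- the attachments of a network -/
def atN {V : Type} {H : SimpleGraph V} (D : Kit H) (N : Ntw) (k : Fin N.K) (y : Fin 3 × Fin D.len)
    (l : Fin N.K) (i : Fin 4) : Prop := atZ D N.lk k.1 y l.1 i

/-- solutions of a network -/
def Sol (R : Bool → Fin 3 → Prop) (N : Ntw) : Prop :=
  ∃ (s : ℕ → Bool) (y : ℕ → Fin 3),
    (∀ i k k' l, i ≠ 2 → k ≠ k' → N.lk i k l → N.lk i k' l → s k ≠ s k') ∧
    (∀ k l, N.lk 2 k l → R (s k) (y k)) ∧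
    ∀ k k' l, k ≠ k' → N.lk 2 k l → N.lk 2 k' l → y k ≠ y k'

/-! ## Numbering -/

/-- the vertices of a cell -/
abbrev Gad.Z {V : Type} {H : SimpleGraph V} (D : Gad H) : Type :=
  Fin D.n ⊕ (Fin 3 × Fin D.toKit.len)

/-- number of vertices of a cell -/
noncomputable def Gad.M {V : Type} {H : SimpleGraph V} (D : Gad H) : ℕ := Fintype.card D.Z

/-- numbering of the vertices of a cell -/
noncomputable def Gad.num {V : Type} {H : SimpleGraph V} (D : Gad H) : D.Z ≃ Fin D.M :=
  Fintype.equivFin _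

/-- the graph of a network -/
def netG {V : Type} {H : SimpleGraph V} (D : Gad H) (N : Ntw) : SimpleGraph (Fin N.K × D.Z) :=
  glue D.P D.r D.toKit.B (atN D.toKit N)

/-- adjacency of the vertex `x` of the cell `k` and the vertex `y` of the cell `l` -/
def adjZ {V : Type} {H : SimpleGraph V} (D : Gad H) (lk : Fin 3 → ℕ → ℕ → Prop) (k l : ℕ) :
    D.Z → D.Z → Prop
  | .inl x, .inl y => k = l ∧ D.P.Adj x y
  | .inr x, .inr y => k = l ∧ D.toKit.B.Adj x y
  | .inr y, .inl x => ∃ i, x = D.r i ∧ atZ D.toKit lk k y l i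
  | .inl x, .inr y => ∃ i, x = D.r i ∧ atZ D.toKit lk l y k i

/-- adjacency in terms of the numbers of the vertices -/
def adjM {V : Type} {H : SimpleGraph V} (D : Gad H) (K : ℕ) (lk : Fin 3 → ℕ → ℕ → Prop)
    (a b : ℕ) : Prop :=
  ∃ x y : D.Z, ∃ k < K, ∃ l < K, a = (D.num x).1 + D.M * k ∧ b = (D.num y).1 + D.M * l ∧
    adjZ D lk k l x y

/-! ## Systems of triples -/

/-- the value of the literal `l` (`2 x` is the variable `x`, `2 x + 1` its negation) -/
def lval (a : ℕ → Bool) (l : ℕ) : Bool := xor (a (l / 2)) (decide (l % 2 = 1))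

/-- three arms with the states `b` can end at distinct `Y i` -/
def Trip (R : Bool → Fin 3 → Prop) (b : Fin 3 → Bool) : Prop :=
  ∃ y : Fin 3 → Fin 3, Function.Injective y ∧ ∀ i, R (b i) (y i)

/-- a system of `Θ` triples of literals has a solution -/
def TSol (C : (Fin 3 → Bool) → Prop) (Θ : ℕ) (lit : ℕ → ℕ) : Prop :=
  ∃ a : ℕ → Bool, ∀ θ < Θ, C (fun i => lval a (lit (3 * θ + i.1)))

/-- the three possible constraints: exactly one is true / not all equal / at least one is true -/
def modeOK : Fin 3 → (Fin 3 → Bool) → Prop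
  | 0, b => (b 0 = true ∧ b 1 = false ∧ b 2 = false) ∨ (b 0 = false ∧ b 1 = true ∧ b 2 = false) ∨
      (b 0 = false ∧ b 1 = false ∧ b 2 = true)
  | 1, b => ¬ (b 0 = b 1 ∧ b 1 = b 2)
  | 2, b => b 0 = true ∨ b 1 = true ∨ b 2 = true

/-- literals of the triples; `Nv` variables, `L` literals in clauses of length `m`; new variables
`c τ = Nv + 3 τ`, `u τ = Nv + 3 τ + 1`, `w τ = Nv + 3 τ + 2`, `one = Nv + 3 L` -/
def lone (Nv L : ℕ) : ℕ := 2 * (Nv + 3 * L)

/-- the negation of `c (τ + 1)` (which is `true` at the end of a clause) -/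
def lncn (Nv L m τ : ℕ) : ℕ := if (τ + 1) % m = 0 then lone Nv L + 1 else 2 * (Nv + 3 * (τ + 1)) + 1

/-- `c τ` (which is `false` at the beginning of a clause) -/
def lcc (Nv L m τ : ℕ) : ℕ := if τ % m = 0 then lone Nv L + 1 else 2 * (Nv + 3 * τ)

/-- the negation of `c τ` -/
def lncc (Nv L m τ : ℕ) : ℕ := if τ % m = 0 then lone Nv L else 2 * (Nv + 3 * τ) + 1

/-- the six literals of the two triples number `2 τ`, `2 τ + 1` -/
def six (Nv L m : ℕ) (lit : ℕ → ℕ) (τ : ℕ) : Fin 3 → Fin 6 → ℕ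
  | 0 => ![lncn Nv L m τ, lit τ, 2 * (Nv + 3 * τ + 1), 2 * (Nv + 3 * τ + 1), lncc Nv L m τ,
      2 * (Nv + 3 * τ + 2)]
  | 1 => ![lncn Nv L m τ, lcc Nv L m τ, 2 * (Nv + 3 * τ + 1), 2 * (Nv + 3 * τ + 1) + 1, lit τ,
      lone Nv L + 1]
  | 2 => ![lncn Nv L m τ, lcc Nv L m τ, lit τ, lone Nv L, lone Nv L, lone Nv L]

/-- the three literals of the last triple -/
def last3 (Nv L : ℕ) : Fin 3 → Fin 3 → ℕ
  | 0 => ![lone Nv L + 1, lone Nv L + 1, lone Nv L]
  | 1 => ![lone Nv L, lone Nv L + 1, lone Nv L]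
  | 2 => ![lone Nv L, lone Nv L, lone Nv L]

/-- the literal number `o < 3 (2 L + 1)` of the system of triples -/
def lit3 (μ : Fin 3) (Nv L m : ℕ) (lit : ℕ → ℕ) (o : ℕ) : ℕ :=
  if o / 6 < L then six Nv L m lit (o / 6) μ ⟨o % 6, Nat.mod_lt _ (by norm_num)⟩
  else last3 Nv L μ ⟨o % 6 % 3, Nat.mod_lt _ (by norm_num)⟩

/-- number of cells per variable -/
def TT (L : ℕ) : ℕ := 6 * (2 * L + 1)

/-- number of cells -/
def KK (Nv L : ℕ) : ℕ := (Nv + 3 * L + 1) * TT L

/-- the links of the network of a system of triples (`Θ = 2 L + 1`, `3 Θ` literals `lt o`); the cell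
`(x, t)` has the number `x * TT L + t` -/
def lk3 (Nv L : ℕ) (lt : ℕ → ℕ) : Fin 3 → ℕ → ℕ → Prop
  | 0, k, l => k < KK Nv L ∧ l = k - k % 2
  | 1, k, l => k < KK Nv L ∧ ((l = k ∧ (k % TT L = 0 ∨ k % 2 = 1)) ∨
      (l + 1 = k ∧ k % TT L ≠ 0 ∧ k % 2 = 0))
  | 2, k, l => k < KK Nv L ∧ lt (k % TT L / 2) = 2 * (k / TT L) + k % TT L % 2 ∧
      l = k % TT L / 6

/-! ## Balls of the universal cover -/

/-- What we use of the ball of radius `R` around `a` in the universal cover (the tree of the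
non-backtracking walks from `a` of length at most `R`): `e l` the end of the walk `l`, `d l` its
length, `sw b c l` the neighbour of `l` in the tree along an edge of type `{b, c}` (`l` itself if
there is none in the ball). -/
structure Ball {V : Type} (H : SimpleGraph V) (a : V) (R : ℕ) where
  I : Type
  fin : Finite I
  e : I → V
  d : I → ℕ
  root : I
  sw : V → V → I → I
  d_le : ∀ l, d l ≤ R
  e_root : e root = a
  d_root : d root = 0
  sw_comm : ∀ b c l, sw b c l = sw c b l
  sw_sw : ∀ b c l, H.Adj b c → sw b c (sw b c l) = l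
  sw_e : ∀ b c l, H.Adj b c → sw b c l ≠ l →
    (e l = b ∧ e (sw b c l) = c) ∨ (e l = c ∧ e (sw b c l) = b)
  d_sw : ∀ b c l, H.Adj b c → d (sw b c l) ≤ d l + 1
  full : ∀ c l, H.Adj (e l) c → d l < R → sw (e l) c l ≠ l
  eq_root : ∀ l, d l = 0 → l = root
  up : ∀ c l, H.Adj (e l) c → d (sw (e l) c l) = d l + 1 → ∀ c', H.Adj c c' → c' ≠ e l →
    sw c c' (sw (e l) c l) = sw (e l) c l ∨ d (sw c c' (sw (e l) c l)) = d l + 2
  child : ∀ l, d l < R → ∃ c, H.Adj (e l) c ∧ d (sw (e l) c l) = d l + 1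
  leaf : ∀ l, d l = R → ∃ c, H.Adj (e l) c ∧ sw (e l) c l = l
  root_child : ∀ c, H.Adj a c → d (sw a c root) = 1

namespace Ball

variable {V : Type} {H : SimpleGraph V} {a : V} {R : ℕ} (T : Ball H a R)

/-- The vertices: the old vertices `(b, l)` and the vertices `x` of the cells `(b, c, l)`. -/
abbrev W : Type := (V × T.I) ⊕ (V × V × T.I × V)

/-- projection to `H` -/
def p : T.W → V
  | .inl (b, _) => b
  | .inr (_, _, _, x) => x

/-- the edge over `{b, c}` at `(b, l)` is an edge of the tree -/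
def plain (b c : V) (l : T.I) : Prop := T.e l = b ∧ T.sw b c l ≠ l

/-- the cell `(b, c, l)` is used -/
def good (b c : V) (l : T.I) : Prop := H.Adj b c ∧ ¬ T.plain b c l

open Classical in
/-- the neighbour of `u` over the vertex `y` of `H` (if `p u` and `y` are adjacent) -/
noncomputable def nb : T.W → V → T.W
  | .inl (b, l), c => if T.plain b c l then .inl (c, T.sw b c l) else .inr (b, c, l, c)
  | .inr (b, c, l, x), y =>
    if T.good b c l ∧ x = b ∧ y = c then .inr (c, b, T.sw b c l, c)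
    else if T.good b c l ∧ x = c ∧ y = b then .inl (b, l)
    else .inr (b, c, l, y)

/-- the root -/
def ro : T.W := .inl (a, T.root)

/-- adjacency in the cover -/
def cAdj (u v : T.W) : Prop := H.Adj (T.p u) (T.p v) ∧ T.nb u (T.p v) = v

/-- the edges from the root to its neighbours over `F` -/
def cut (F : Set V) (u v : T.W) : Prop := (u = T.ro ∧ T.p v ∈ F) ∨ (v = T.ro ∧ T.p u ∈ F)

/-- the pin: the cover without the edges from the root to its neighbours over `F` -/
def PG (F : Set V) : SimpleGraph T.W := SimpleGraph.fromRel (fun u v => T.cAdj u v ∧ ¬ T.cut F u v)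

open Classical in
/-- depth -/
noncomputable def dep : T.W → ℕ
  | .inl (b, l) => if T.e l = b then T.d l else R
  | .inr (b, c, l, _) => if T.good b c l then R else R + 1

end Ball

/-! ## Covers with a depth -/

/-- a finite graph `P` with a locally injective homomorphism `p` to `H` which is locally bijective at
the vertices of depth at least two -/
structure Dp {V W : Type} (H : SimpleGraph V) (P : SimpleGraph W) (p : W → V) (δ : W → ℕ) : Prop
    where
  li : LocInj P H p
  full : ∀ u, 2 ≤ δ u → ∀ y, H.Adj (p u) y → ∃ v, P.Adj u v ∧ p v = y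
  lip : ∀ u v, P.Adj u v → δ u ≤ δ v + 1

/-- `f` is locally surjective at `u` -/
def Srj {V W : Type} (H : SimpleGraph V) (P : SimpleGraph W) (f : W → V) (u : W) : Prop :=
  ∀ y, H.Adj (f u) y → ∃ v, P.Adj u v ∧ f v = y

/-- in the pins all vertices of depth `R` are mapped as by the projection -/
def Outer {V : Type} (H : SimpleGraph V) : Prop :=
  ∃ R0, ∀ (a : V) (R : ℕ) (T : Ball H a R) (F : Set V), R0 ≤ R → F ⊂ H.neighborSet a →
    ∀ f : T.W → V, LocInj (T.PG F) H f → ∀ u, T.dep u = R → f u = T.p u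

/-! ## The two classes of graphs -/

/-- `κ` is (the colouring by the classes of) an equitable partition -/
def Equit {V : Type} (H : SimpleGraph V) (κ : V → ℕ) : Prop :=
  ∀ x y, κ x = κ y → ∀ c, (H.neighborSet x ∩ {z | κ z = c}).ncard =
    (H.neighborSet y ∩ {z | κ z = c}).ncard

/-- bridgeless and asymmetric -/
def ClsA {V : Type} (H : SimpleGraph V) : Prop :=
  (∀ e ∈ H.edgeSet, ¬ H.IsBridge e) ∧ ∀ (φ : H ≃g H) (x : V), φ x = x

/-- the only equitable partition is the partition into single vertices -/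
def ClsD {V : Type} (H : SimpleGraph V) : Prop :=
  ∀ κ : V → ℕ, Equit H κ → Function.Injective κ

/-- refinement of colours -/
def crel {V : Type} (H : SimpleGraph V) : ℕ → V → V → Prop
  | 0, _, _ => True
  | k + 1, x, y => crel H k x y ∧ ∃ φ : H.neighborSet x ≃ H.neighborSet y,
      ∀ z, crel H k z.1 (φ z).1

end Pool.Agent.LHA
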