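import Pool.Agent.LHA.Defs
import Pool.Agent.LHA.CellL

/-!
# The four pins in one graph

Take the pins `(n i, P i, r i)` for `(D.a i, D.F i)` (`F_ssub`, `hp`). Let `W = Σ i, Fin (n i)`,
`G.Adj x y := ∃ i u v, x = ⟨i, u⟩ ∧ y = ⟨i, v⟩ ∧ (P i).Adj u v`. A map `f : W → V` is locally injective iff all
`f ⟨i, ·⟩` are. Roots `⟨i, r i⟩` (injective). Transport to `Fin (card W)` by `Fintype.equivFin`.
-/

namespace Pool.Agent.LHA

open Pool.Agent.LIH

/-- the disjoint union -/
def GadExG {n : Fin 4 → ℕ} (P : ∀ i, SimpleGraph (Fin (n i))) : SimpleGraph (Σ i, Fin (n i)) where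
  Adj x y := ∃ (i : Fin 4) (u v : Fin (n i)), x = ⟨i, u⟩ ∧ y = ⟨i, v⟩ ∧ (P i).Adj u v
  symm := by
    constructor
    rintro x y ⟨i, u, v, rfl, rfl, h⟩
    exact ⟨i, v, u, rfl, rfl, h.symm⟩
  loopless := by
    constructor
    rintro x ⟨i, u, v, h1, h2, h⟩
    rw [h1] at h2
    have h3 : u = v := by simpa using h2
    rw [h3] at h
    exact (P i).loopless.irrefl _ h

theorem GadExG_adj {n : Fin 4 → ℕ} (P : ∀ i, SimpleGraph (Fin (n i))) (i : Fin 4)
    (u : Fin (n i)) (y : Σ i, Fin (n i)) :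
    (GadExG P).Adj ⟨i, u⟩ y ↔ ∃ v, y = ⟨i, v⟩ ∧ (P i).Adj u v := by
  constructor
  · rintro ⟨i', u', v, h1, h2, h⟩
    obtain ⟨rfl, h3⟩ := Sigma.mk.inj_iff.1 h1
    have h4 := eq_of_heq h3
    subst h4
    exact ⟨v, h2, h⟩
  · rintro ⟨v, rfl, h⟩
    exact ⟨i, u, v, rfl, rfl, h⟩

theorem gad_exists {V : Type} {H : SimpleGraph V} (D : Kit H) (hp : Pins H) :
    Nonempty (Gad H) := by
  classical
  have hpp : ∀ i, Pin H (D.a i) (D.F i) := fun i => hp _ _ (D.F_ssub i)
  choose n P r hex hpin using hpp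
  obtain ⟨e⟩ : Nonempty ((Σ i, Fin (n i)) ≃ Fin (Fintype.card (Σ i, Fin (n i)))) :=
    ⟨Fintype.equivFin _⟩
  have hloc : ∀ f : Fin (Fintype.card (Σ i, Fin (n i))) → V,
      LocInj ((GadExG P).comap e.symm) H f → ∀ i, LocInj (P i) H (fun u => f (e ⟨i, u⟩)) := by
    intro f hf i
    constructor
    · intro u v huv
      apply hf.1
      rw [SimpleGraph.comap_adj, Equiv.symm_apply_apply, Equiv.symm_apply_apply]
      exact ⟨i, u, v, rfl, rfl, huv⟩
    · intro u x hx y hy hxy
      have h1 : e ⟨i, x⟩ ∈ ((GadExG P).comap e.symm).neighborSet (e ⟨i, u⟩) := by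
        rw [SimpleGraph.mem_neighborSet, SimpleGraph.comap_adj, Equiv.symm_apply_apply,
          Equiv.symm_apply_apply]
        exact ⟨i, u, x, rfl, rfl, hx⟩
      have h2 : e ⟨i, y⟩ ∈ ((GadExG P).comap e.symm).neighborSet (e ⟨i, u⟩) := by
        rw [SimpleGraph.mem_neighborSet, SimpleGraph.comap_adj, Equiv.symm_apply_apply,
          Equiv.symm_apply_apply]
        exact ⟨i, u, y, rfl, rfl, hy⟩
      have h3 := e.injective (hf.2 _ h1 h2 hxy)
      simpa using h3
  exact ⟨{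
    toKit := D
    n := Fintype.card (Σ i, Fin (n i))
    P := (GadExG P).comap e.symm
    r := fun i => e ⟨i, r i⟩
    r_inj := by
      intro i i' h
      exact congrArg Sigma.fst (e.injective h)
    ex_p := by
      choose p hpl using hex
      refine ⟨fun a => p (e.symm a).1 (e.symm a).2, ?_, ?_⟩
      · rintro a b hab
        rw [SimpleGraph.comap_adj] at hab
        obtain ⟨i, u, v, h1, h2, h⟩ := hab
        change H.Adj (p (e.symm a).1 (e.symm a).2) (p (e.symm b).1 (e.symm b).2)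
        rw [h1, h2]
        exact (hpl i).1 u v h
      · intro a x hx y hy hxy
        rw [SimpleGraph.mem_neighborSet, SimpleGraph.comap_adj] at hx hy
        obtain ⟨i, u, v, h1, h2, h⟩ := hx
        rw [h1, GadExG_adj] at hy
        obtain ⟨v', h3, h4⟩ := hy
        have h6 : p (e.symm x).1 (e.symm x).2 = p (e.symm y).1 (e.symm y).2 := hxy
        rw [h2, h3] at h6
        have h5 := (hpl i).2 u h h4 h6
        apply e.symm.injective
        rw [h2, h3, h5]
    pin := by
      intro f hf i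
      obtain ⟨h1, h2⟩ := hpin i _ (hloc f hf i)
      refine ⟨h1, ?_⟩
      rw [← h2]
      ext z
      constructor
      · rintro ⟨x, hx, rfl⟩
        rw [SimpleGraph.mem_neighborSet, SimpleGraph.comap_adj, Equiv.symm_apply_apply,
          GadExG_adj] at hx
        obtain ⟨v, h3, h4⟩ := hx
        refine ⟨v, h4, ?_⟩
        change f (e ⟨i, v⟩) = f x
        rw [← h3, Equiv.apply_symm_apply]
      · rintro ⟨v, hv, rfl⟩
        refine ⟨e ⟨i, v⟩, ?_, rfl⟩
        rw [SimpleGraph.mem_neighborSet, SimpleGraph.comap_adj, Equiv.symm_apply_apply,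
          Equiv.symm_apply_apply, GadExG_adj]
        exact ⟨v, rfl, hv⟩ }⟩

end Pool.Agent.LHA
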