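import Pool.Agent.LHA.Defs

/-!
# Gluing

(→) Let `f` be locally injective on `glue P r B att`, `c k y = f (k, inr y)`. For every `l` the map
`x ↦ f (l, inl x)` is locally injective on `P`; by `hpin`: `f (l, inl (r i)) = a i` and
`f (l, inl ·)` maps `P.neighborSet (r i)` onto `N(a i) \ F i`. `hom`, `inj` clear. `mem`: `(k, inr y)` is adjacent to
`(l, inl (r i))`, so `c k y ∈ N(a i)`; it is different from the values of the neighbours
`(l, inl x)`, `P.Adj (r i) x` (local injectivity at `(l, inl (r i))`), so not in `N(a i) \ F i`; hence in `F i`.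
`ne`, `ne'`: local injectivity at `(k, inr y)` (use `r` injective for `ne'`). `dis`: local injectivity at
`(l, inl (r i))`.
(←) `f (k, inl x) = p x`, `f (k, inr y) = c k y`; `p (r i) = a i` and `p '' P.neighborSet (r i) = N(a i) \ F i` by
`hpin`. Edges: clear, and for `att k y l i`: `c k y ∈ F i ⊆ N(a i)`. Local injectivity at `(l, inl x)`: two neighbours
`inl`: `p`. One `inl`, one `inr y` (so `x = r i`): the first value is in `N(a i) \ F i`, the second one in `F i`. Two
`inr`: `x = r i = r i'`, `i = i'`, `dis`. At `(k, inr y)`: two `inr`: `inj`; one `inr`, one `inl`: `ne`; two `inl`: `ne'`.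
-/

namespace Pool.Agent.LHA

open Pool.Agent.LIH

theorem Glue_inj {V W' : Type} {H : SimpleGraph V} {G : SimpleGraph W'} {f : W' → V}
    (hf : LocInj G H f) {v x y : W'} (hx : G.Adj v x) (hy : G.Adj v y) (h : f x = f y) : x = y :=
  hf.2 v (by simpa using hx) (by simpa using hy) h

theorem glue_iff {V κ W Y : Type} {H : SimpleGraph V} (P : SimpleGraph W) (r : Fin 4 → W)
    (B : SimpleGraph Y) (att : κ → Y → κ → Fin 4 → Prop) (a : Fin 4 → V) (F : Fin 4 → Set V)
    (hF : ∀ i, F i ⊆ H.neighborSet (a i)) (hr : Function.Injective r)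
    (hp : ∃ p : W → V, LocInj P H p)
    (hpin : ∀ f : W → V, LocInj P H f → ∀ i, f (r i) = a i ∧
      f '' P.neighborSet (r i) = H.neighborSet (a i) \ F i) :
    (∃ f, LocInj (glue P r B att) H f) ↔ ∃ c : κ → Y → V, GoodCol H a F B att c := by
  constructor
  · rintro ⟨f, hf⟩
    have hP : ∀ l, LocInj P H (fun x => f (l, .inl x)) := by
      intro l
      refine ⟨fun u v huv => hf.1 _ _ ?_, ?_⟩
      · rw [glue_adj]; exact ⟨rfl, huv⟩
      · intro v x hx y hy hxy
        have hx' : (glue P r B att).Adj (l, .inl v) (l, .inl x) := by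
          rw [glue_adj]; exact ⟨rfl, hx⟩
        have hy' : (glue P r B att).Adj (l, .inl v) (l, .inl y) := by
          rw [glue_adj]; exact ⟨rfl, hy⟩
        have := Glue_inj hf hx' hy' hxy
        simpa using this
    have hatt : ∀ {k y l i}, att k y l i → (glue P r B att).Adj (k, .inr y) (l, .inl (r i)) := by
      intro k y l i h
      rw [glue_adj]
      exact ⟨i, rfl, h⟩
    have hB : ∀ {k y y'}, B.Adj y y' → (glue P r B att).Adj (k, .inr y) (k, .inr y') := by
      intro k y y' h
      rw [glue_adj]
      exact ⟨rfl, h⟩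
    refine ⟨fun k y => f (k, .inr y), ?_, ?_, ?_, ?_, ?_, ?_⟩
    · intro k y y' h
      exact hf.1 _ _ (hB h)
    · intro k y y1 y2 h1 h2 h
      have := Glue_inj hf (hB h1) (hB h2) h
      simpa using this
    · intro k y l i h
      have h1 := hf.1 _ _ (hatt h)
      obtain ⟨e1, e2⟩ := hpin _ (hP l) i
      rw [e1] at h1
      by_contra hn
      have h2 : f (k, .inr y) ∈ H.neighborSet (a i) \ F i := ⟨by simpa using h1.symm, hn⟩
      rw [← e2] at h2
      obtain ⟨x, hx, hx'⟩ := h2
      simp only at hx'
      have hx2 : (glue P r B att).Adj (l, .inl (r i)) (l, .inl x) := by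
        rw [glue_adj]; exact ⟨rfl, hx⟩
      have := Glue_inj hf hx2 (hatt h).symm hx'
      simp at this
    · intro k y y' l i h h' he
      have e1 := (hpin _ (hP l) i).1
      rw [← e1] at he
      have := Glue_inj hf (hB h) (hatt h') he
      simp at this
    · intro k y l i l' i' h h' he
      have e1 := (hpin _ (hP l) i).1
      have e1' := (hpin _ (hP l') i').1
      rw [← e1, ← e1'] at he
      have := Glue_inj hf (hatt h) (hatt h') he
      simp only [Prod.mk.injEq, Sum.inl.injEq] at this
      exact ⟨this.1, hr this.2⟩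
    · intro l i k y k' y' h h' he
      have := Glue_inj hf (hatt h).symm (hatt h').symm he
      simpa using this
  · rintro ⟨c, hc⟩
    obtain ⟨p, hp⟩ := hp
    have hpr := hpin p hp
    refine ⟨fun z => match z with
      | (_, .inl x) => p x
      | (k, .inr y) => c k y, ?_, ?_⟩
    · rintro ⟨k, x | x⟩ ⟨l, y | y⟩ h <;> rw [glue_adj] at h
      · exact hp.1 _ _ h.2
      · obtain ⟨i, rfl, h⟩ := h
        show H.Adj (p (r i)) (c l y)
        rw [(hpr i).1]
        simpa using hF i (hc.mem _ _ _ _ h)
      · obtain ⟨i, rfl, h⟩ := h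
        show H.Adj (c k x) (p (r i))
        rw [(hpr i).1]
        have := hF i (hc.mem _ _ _ _ h)
        simp only [SimpleGraph.mem_neighborSet] at this
        exact this.symm
      · obtain ⟨h1, h2⟩ := h
        subst h1
        exact hc.hom _ _ _ h2
    · -- values of the neighbours of a root
      have hval : ∀ i x, P.Adj (r i) x → p x ∉ F i := by
        intro i x hx hn
        have h1 : p x ∈ p '' P.neighborSet (r i) := ⟨x, hx, rfl⟩
        rw [(hpr i).2] at h1
        exact h1.2 hn
      rintro ⟨k, v | v⟩ ⟨k1, x | x⟩ hx ⟨k2, y | y⟩ hy he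
      · rw [SimpleGraph.mem_neighborSet, glue_adj] at hx hy
        obtain ⟨hx1, hx2⟩ := hx
        obtain ⟨hy1, hy2⟩ := hy
        have e := Glue_inj hp hx2 hy2 he
        subst hx1 hy1 e
        rfl
      · rw [SimpleGraph.mem_neighborSet, glue_adj] at hx hy
        obtain ⟨hx1, hx2⟩ := hx
        obtain ⟨i, hi, hi'⟩ := hy
        subst hi
        exact (hval i x hx2 (by
          change p x = c k2 y at he
          rw [he]; exact hc.mem _ _ _ _ hi')).elim
      · rw [SimpleGraph.mem_neighborSet, glue_adj] at hx hy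
        obtain ⟨hy1, hy2⟩ := hy
        obtain ⟨i, hi, hi'⟩ := hx
        subst hi
        exact (hval i y hy2 (by
          change c k1 x = p y at he
          rw [← he]; exact hc.mem _ _ _ _ hi')).elim
      · rw [SimpleGraph.mem_neighborSet, glue_adj] at hx hy
        obtain ⟨i, hi, hi1⟩ := hx
        obtain ⟨j, hj, hj1⟩ := hy
        subst hi
        have e := hr hj
        subst e
        obtain ⟨e1, e2⟩ := hc.dis _ _ _ _ _ _ hi1 hj1 he
        subst e1 e2
        rfl
      · rw [SimpleGraph.mem_neighborSet, glue_adj] at hx hy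
        obtain ⟨i, hi, hi1⟩ := hx
        obtain ⟨j, hj, hj1⟩ := hy
        subst hi hj
        change p (r i) = p (r j) at he
        rw [(hpr i).1, (hpr j).1] at he
        obtain ⟨e1, e2⟩ := hc.ne' _ _ _ _ _ _ hi1 hj1 he
        subst e1 e2
        rfl
      · rw [SimpleGraph.mem_neighborSet, glue_adj] at hx hy
        obtain ⟨i, hi, hi1⟩ := hx
        obtain ⟨hy1, hy2⟩ := hy
        subst hi hy1
        change p (r i) = c k y at he
        rw [(hpr i).1] at he
        exact (hc.ne _ _ _ _ _ hy2 hi1 he.symm).elim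
      · rw [SimpleGraph.mem_neighborSet, glue_adj] at hx hy
        obtain ⟨i, hi, hi1⟩ := hy
        obtain ⟨hx1, hx2⟩ := hx
        subst hi hx1
        change c k x = p (r i) at he
        rw [(hpr i).1] at he
        exact (hc.ne _ _ _ _ _ hx2 hi1 he).elim
      · rw [SimpleGraph.mem_neighborSet, glue_adj] at hx hy
        obtain ⟨hx1, hx2⟩ := hx
        obtain ⟨hy1, hy2⟩ := hy
        subst hx1 hy1
        have e := hc.inj _ _ _ _ hx2 hy2 he
        subst e
        rfl

end Pool.Agent.LHA
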