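import Pool.Agent.LHA.Defs

/-!
# The constraint of a triple

Case distinction on `q1 = R true 1`, `q2 = R true 2`: neither: `μ = 0`; exactly one: `μ = 1`; both: `μ = 2`.
`Trip R b` for the 8 values of `b`: all false: only the values 1, 2 are possible for three different `y i`: no. One true:
`y = 0` for it, `1, 2` for the others: yes. Two true: `y = 0` and the possible one of `1, 2` for the true ones, the
rest for the false one: yes iff `q1 ∨ q2`. All true: all three values: iff `q1 ∧ q2`.
-/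

namespace Pool.Agent.LHA

open Pool.Agent.LIH

/-- the table of `R` -/
def ModeR (q1 q2 : Bool) : Bool → Fin 3 → Bool
  | false, 0 => false
  | false, 1 => true
  | false, 2 => true
  | true, 0 => true
  | true, 1 => q1
  | true, 2 => q2

theorem Mode_tab (R : Bool → Fin 3 → Prop) (h0 : ¬ R false 0) (h1 : R false 1)
    (h2 : R false 2) (h3 : R true 0) : ∃ q1 q2 : Bool, ∀ b i, R b i ↔ ModeR q1 q2 b i = true := by
  classical
  refine ⟨decide (R true 1), decide (R true 2), fun b i => ?_⟩
  cases b <;> fin_cases i <;> simp [ModeR, h0, h1, h2, h3]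

/-- the same as `modeOK`, with values in `Bool` -/
def ModeB : Fin 3 → Bool → Bool → Bool → Bool
  | 0, a, b, c => (a && !b && !c) || (!a && b && !c) || (!a && !b && c)
  | 1, a, b, c => !((a == b) && (b == c))
  | 2, a, b, c => a || b || c

theorem Mode_ok (μ : Fin 3) (b : Fin 3 → Bool) : modeOK μ b ↔ ModeB μ (b 0) (b 1) (b 2) = true := by
  generalize h0 : b 0 = x
  generalize h1 : b 1 = y
  generalize h2 : b 2 = z
  fin_cases μ
  · change ((b 0 = true ∧ b 1 = false ∧ b 2 = false) ∨ (b 0 = false ∧ b 1 = true ∧ b 2 = false) ∨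
      (b 0 = false ∧ b 1 = false ∧ b 2 = true)) ↔ _
    rw [h0, h1, h2]
    revert x y z
    decide +revert
  · change ¬ (b 0 = b 1 ∧ b 1 = b 2) ↔ _
    rw [h0, h1, h2]
    revert x y z
    decide +revert
  · change (b 0 = true ∨ b 1 = true ∨ b 2 = true) ↔ _
    rw [h0, h1, h2]
    revert x y z
    decide +revert

theorem Mode_fin : ∀ q1 q2 : Bool, ∃ μ : Fin 3, ∀ b : Fin 3 → Bool,
    (∃ y : Fin 3 → Fin 3, Function.Injective y ∧ ∀ i, ModeR q1 q2 (b i) (y i) = true) ↔
      ModeB μ (b 0) (b 1) (b 2) = true := by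
  decide +kernel

theorem trip_mode (R : Bool → Fin 3 → Prop) (h0 : ¬ R false 0) (h1 : R false 1)
    (h2 : R false 2) (h3 : R true 0) : ∃ μ : Fin 3, ∀ b, Trip R b ↔ modeOK μ b := by
  obtain ⟨q1, q2, hq⟩ := Mode_tab R h0 h1 h2 h3
  obtain ⟨μ, hμ⟩ := Mode_fin q1 q2
  refine ⟨μ, fun b => ?_⟩
  rw [Mode_ok, ← hμ b]
  unfold Trip
  simp only [hq]

end Pool.Agent.LHA
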