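import Pool.Agent.LHA.Defs

/-!
# The network of a system of triples

`TT L = 6 (2 L + 1)` is even and positive. `dom`: for `lk 2`: `l = k % TT / 6 < 2 L + 1 ≤ KK`. Write `T = TT L`.
`net_sound`: let `s, y` be a solution of the network, `a x = s (x * T)`. For `x < Nv + 3 L + 1` and `t < T`:
`s (x * T + t) = xor (a x) (t is odd)`: induction on `t`. `t → t + 1`, `k = x T + t`: if `t` is even then
`lk 0 k k` and `lk 0 (k+1) k` (`(k+1) - (k+1) % 2 = k`), if `t` is odd then `lk 1 k k` and `lk 1 (k+1) k`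
(`(k+1) % T = t + 1 ≠ 0`, `(k+1) % 2 = 0`); so `s k ≠ s (k+1)`.
For `θ < 2 L + 1`, `i < 3`: `o = 3 θ + i < 3 (2 L + 1)`, `l = lt o < 2 (Nv + 3 L + 1)`, `k i = (l / 2) * T + (2 o + l % 2)`
(`2 o + l % 2 < T`): `k i % T / 2 = o`, so `lk 2 (k i) θ` (`k % T / 6 = o / 3 = θ`). `s (k i) = xor (a (l/2)) (l % 2 = 1) =
lval a l`. The `k i` are different (different `o`), so `y (k i)` are different and `R (s (k i)) (y (k i))`.
`net_complete`: `s k = xor (a (k / T)) (k % 2 = 1)`; for `lk 2 k l`: `o = k % T / 2`, `θ = o / 3 < 2 L + 1`, `y k = yθ (o % 3)` where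
`yθ` is the injection of the triple `θ`; `s k = lval a (lt o)` since `lt o = 2 (k / T) + k % T % 2` and
`k % T % 2 = k % 2` (T even). Different `k, k'` linked to the same `θ`: if `o = o'` then `lt o` determines `k / T` and
`k % T % 2`, so `k = k'`; so `o ≠ o'`, `o / 3 = o' / 3`, `o % 3 ≠ o' % 3`. `lk 0`: `k ≠ k'`, `k - k % 2 = k' - k' % 2`:
`{k, k'} = {2q, 2q+1}`, same `k / T` (T even), different parity. `lk 1`: `{k, k'} = {2q+1, 2q+2}`,
`(2q+2) % T ≠ 0`: same `k / T`, different parity.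
-/

namespace Pool.Agent.LHA

open Pool.Agent.LIH

theorem Net3_pos (L : ℕ) : 0 < TT L := by unfold TT; omega

theorem Net3_even (L : ℕ) : TT L % 2 = 0 := by unfold TT; omega

theorem Net3_div (L x t : ℕ) (ht : t < TT L) : (x * TT L + t) / TT L = x := by
  rw [mul_comm, Nat.mul_add_div (Net3_pos L), Nat.div_eq_of_lt ht, Nat.add_zero]

theorem Net3_mod (L x t : ℕ) (ht : t < TT L) : (x * TT L + t) % TT L = t := by
  rw [mul_comm, Nat.mul_add_mod, Nat.mod_eq_of_lt ht]

theorem Net3_mod2 (L x t : ℕ) : (x * TT L + t) % 2 = t % 2 := by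
  have h : x * TT L = 2 * (x * (3 * (2 * L + 1))) := by unfold TT; ring
  rw [h]; omega

theorem Net3_lt (Nv L x t : ℕ) (hx : x < Nv + 3 * L + 1) (ht : t < TT L) :
    x * TT L + t < KK Nv L := by
  unfold KK
  calc x * TT L + t < x * TT L + TT L := by omega
    _ = (x + 1) * TT L := by ring
    _ ≤ (Nv + 3 * L + 1) * TT L := Nat.mul_le_mul_right _ (by omega)

theorem Net3_modmod (L k : ℕ) : k % TT L % 2 = k % 2 := by
  have h1 := Nat.div_add_mod k (TT L)
  have h2 := Net3_mod2 L (k / TT L) (k % TT L)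
  rw [mul_comm, h1] at h2
  exact h2.symm

theorem Net3_rec (L k : ℕ) : k = (k / TT L) * TT L + k % TT L := by
  have h1 := Nat.div_add_mod k (TT L)
  rw [mul_comm] at h1
  exact h1.symm

/-- the network of a system of triples -/
def ntw3 (Nv L : ℕ) (lt : ℕ → ℕ) : Ntw where
  K := KK Nv L
  lk := lk3 Nv L lt
  dom := by
    intro i k l h
    fin_cases i
    · obtain ⟨h1, h2⟩ := h
      exact ⟨h1, by omega⟩
    · obtain ⟨h1, h2⟩ := h
      refine ⟨h1, ?_⟩
      rcases h2 with h2 | h2 <;> omega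
    · obtain ⟨h1, h2, h3⟩ := h
      refine ⟨h1, ?_⟩
      have h4 : k % TT L / 6 ≤ k := le_trans (Nat.div_le_self _ _) (Nat.mod_le _ _)
      omega
  fn := by
    intro i k l l' h h'
    fin_cases i
    · exact h.2.trans h'.2.symm
    · obtain ⟨h1, h2⟩ := h
      obtain ⟨h1', h2'⟩ := h'
      rcases h2 with h2 | h2 <;> rcases h2' with h2' | h2' <;> omega
    · exact h.2.2.trans h'.2.2.symm
  tot := by
    intro i k hi hk
    fin_cases i
    · exact ⟨_, hk, rfl⟩
    · by_cases h : k % TT L = 0 ∨ k % 2 = 1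
      · exact ⟨k, hk, Or.inl ⟨rfl, h⟩⟩
      · have h0 : k ≠ 0 := by
          rintro rfl
          exact h (Or.inl (Nat.zero_mod _))
        refine ⟨k - 1, hk, Or.inr ⟨by omega, ?_, ?_⟩⟩
        · intro h'; exact h (Or.inl h')
        · by_contra h'
          exact h (Or.inr (by omega))
    · exact absurd rfl hi

/-- the states alternate along a variable -/
theorem Net3_alt (Nv L : ℕ) (lt : ℕ → ℕ) (s : ℕ → Bool)
    (h1 : ∀ i k k' l, i ≠ 2 → k ≠ k' → (ntw3 Nv L lt).lk i k l → (ntw3 Nv L lt).lk i k' l →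
      s k ≠ s k') (x : ℕ) (hx : x < Nv + 3 * L + 1) :
    ∀ t, t < TT L → s (x * TT L + t) = xor (s (x * TT L)) (decide (t % 2 = 1)) := by
  intro t
  induction t with
  | zero => intro _; simp
  | succ t ih =>
    intro ht
    have ih := ih (by omega)
    have hk := Net3_lt Nv L x t hx (by omega)
    have hk' := Net3_lt Nv L x (t + 1) hx ht
    have hne : s (x * TT L + t) ≠ s (x * TT L + (t + 1)) := by
      by_cases hp : t % 2 = 0
      · refine h1 0 _ _ (x * TT L + t) (by decide) (by omega) ⟨hk, ?_⟩ ⟨hk', ?_⟩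
        · rw [Net3_mod2]; omega
        · rw [Net3_mod2]; omega
      · refine h1 1 _ _ (x * TT L + t) (by decide) (by omega) ⟨hk, ?_⟩ ⟨hk', ?_⟩
        · left
          refine ⟨rfl, Or.inr ?_⟩
          rw [Net3_mod2]; omega
        · right
          refine ⟨by omega, ?_, ?_⟩
          · rw [Net3_mod _ _ _ ht]; omega
          · rw [Net3_mod2]; omega
    rw [ih] at hne
    have hd : decide ((t + 1) % 2 = 1) = !decide (t % 2 = 1) := by
      by_cases hp : t % 2 = 1
      · have : ¬ (t + 1) % 2 = 1 := by omega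
        simp [hp, this]
      · have : (t + 1) % 2 = 1 := by omega
        simp [hp, this]
    rw [hd]
    revert hne
    cases s (x * TT L + (t + 1)) <;> cases s (x * TT L) <;> cases decide (t % 2 = 1) <;> simp

theorem net_sound (R : Bool → Fin 3 → Prop) (Nv L : ℕ) (lt : ℕ → ℕ)
    (hlt : ∀ o < 3 * (2 * L + 1), lt o < 2 * (Nv + 3 * L + 1)) (h : Sol R (ntw3 Nv L lt)) :
    TSol (Trip R) (2 * L + 1) lt := by
  obtain ⟨s, y, h1, h2, h3⟩ := h
  have halt := Net3_alt Nv L lt s h1
  refine ⟨fun x => s (x * TT L), ?_⟩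
  intro θ hθ
  -- the cell of a literal
  have hcell : ∀ i : Fin 3, ∃ k, (ntw3 Nv L lt).lk 2 k θ ∧
      s k = lval (fun x => s (x * TT L)) (lt (3 * θ + i.1)) ∧ k % TT L / 2 = 3 * θ + i.1 := by
    intro i
    have ho : 3 * θ + i.1 < 3 * (2 * L + 1) := by have := i.2; omega
    have hl := hlt _ ho
    generalize hle : lt (3 * θ + i.1) = l at hl
    have ht : 2 * (3 * θ + i.1) + l % 2 < TT L := by unfold TT; omega
    have hx : l / 2 < Nv + 3 * L + 1 := by omega
    refine ⟨(l / 2) * TT L + (2 * (3 * θ + i.1) + l % 2), ⟨Net3_lt _ _ _ _ hx ht, ?_, ?_⟩, ?_, ?_⟩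
    · rw [Net3_mod _ _ _ ht, Net3_div _ _ _ ht]
      have e : (2 * (3 * θ + i.1) + l % 2) / 2 = 3 * θ + i.1 := by omega
      rw [e, hle]
      omega
    · rw [Net3_mod _ _ _ ht]
      have := i.2
      omega
    · rw [halt _ hx _ ht]
      have e : (2 * (3 * θ + i.1) + l % 2) % 2 = l % 2 := by omega
      rw [e]
      rfl
    · rw [Net3_mod _ _ _ ht]
      omega
  choose k hk1 hk2 hk3 using hcell
  refine ⟨fun i => y (k i), ?_, ?_⟩
  · intro i j hij
    by_contra hne
    refine h3 (k i) (k j) θ ?_ (hk1 i) (hk1 j) hij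
    intro e
    apply hne
    have e1 := hk3 i
    have e2 := hk3 j
    rw [e] at e1
    apply Fin.ext
    omega
  · intro i
    have := h2 (k i) θ (hk1 i)
    rw [hk2 i] at this
    exact this

theorem net_complete (R : Bool → Fin 3 → Prop) (Nv L : ℕ) (lt : ℕ → ℕ)
    (h : TSol (Trip R) (2 * L + 1) lt) : Sol R (ntw3 Nv L lt) := by
  obtain ⟨a, ha⟩ := h
  have ha' : ∀ θ, ∃ Y : Fin 3 → Fin 3, θ < 2 * L + 1 → Function.Injective Y ∧
      ∀ i, R (lval a (lt (3 * θ + i.1))) (Y i) := by
    intro θ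
    by_cases hθ : θ < 2 * L + 1
    · obtain ⟨Y, hY⟩ := ha θ hθ
      exact ⟨Y, fun _ => hY⟩
    · exact ⟨id, fun h => absurd h hθ⟩
  choose Y hY using ha'
  have hsame : ∀ k k' : ℕ, k ≠ k' → k / TT L = k' / TT L → k % 2 ≠ k' % 2 →
      xor (a (k / TT L)) (decide (k % 2 = 1)) ≠ xor (a (k' / TT L)) (decide (k' % 2 = 1)) := by
    intro k k' _ e hp
    rw [e]
    rcases Nat.mod_two_eq_zero_or_one k with h | h <;>
      rcases Nat.mod_two_eq_zero_or_one k' with h' | h' <;> simp_all
  have hdiv : ∀ q, (2 * q) / TT L = (2 * q + 1) / TT L := by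
    intro q
    have h1 := Net3_rec L (2 * q)
    have hm := Nat.mod_lt (2 * q) (Net3_pos L)
    have h2 := Net3_modmod L (2 * q)
    have h3 := Net3_even L
    have h4 : 2 * q % TT L + 1 < TT L := by omega
    have h5 := Net3_div L (2 * q / TT L) (2 * q % TT L + 1) h4
    rw [← add_assoc, ← h1] at h5
    exact h5.symm
  have hdiv' : ∀ k, (k + 1) % TT L ≠ 0 → k / TT L = (k + 1) / TT L := by
    intro k hk
    have h1 := Net3_rec L (k + 1)
    have hm := Nat.mod_lt (k + 1) (Net3_pos L)
    have h5 := Net3_div L ((k + 1) / TT L) ((k + 1) % TT L - 1) (by omega)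
    have e : (k + 1) / TT L * TT L + ((k + 1) % TT L - 1) = k := by omega
    rw [e] at h5
    exact h5
  refine ⟨fun k => xor (a (k / TT L)) (decide (k % 2 = 1)),
    fun k => Y (k % TT L / 6) ⟨k % TT L / 2 % 3, Nat.mod_lt _ (by norm_num)⟩, ?_, ?_, ?_⟩
  · intro i k k' l hi hne hk hk'
    fin_cases i
    · obtain ⟨-, h1⟩ := hk
      obtain ⟨-, h1'⟩ := hk'
      refine hsame k k' hne ?_ (by omega)
      rcases Nat.mod_two_eq_zero_or_one k with h | h
      · have e1 : k = 2 * (k / 2) := by omega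
        have e2 : k' = 2 * (k / 2) + 1 := by omega
        rw [e1, e2]
        rw [← e1]
        have := hdiv (k / 2)
        rw [← e1] at this
        exact this
      · have e1 : k = 2 * (k / 2) + 1 := by omega
        have e2 : k' = 2 * (k / 2) := by omega
        have := hdiv (k / 2)
        rw [← e1, ← e2] at this
        exact this.symm
    · obtain ⟨-, h1⟩ := hk
      obtain ⟨-, h1'⟩ := hk'
      rcases h1 with ⟨h1, h2⟩ | ⟨h1, h2, h3⟩ <;> rcases h1' with ⟨h1', h2'⟩ | ⟨h1', h2', h3'⟩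
      · exact absurd (h1.symm.trans h1') hne
      · subst h1
        subst h1'
        refine hsame _ _ hne (hdiv' _ h2') ?_
        rcases h2 with h2 | h2
        · omega
        · omega
      · subst h1
        subst h1'
        refine hsame _ _ hne (hdiv' _ h2).symm ?_
        rcases h2' with h2' | h2'
        · omega
        · omega
      · exact absurd (by omega) hne
    · exact absurd rfl hi
  · intro k l hk
    obtain ⟨h1, h2, h3⟩ := hk
    have hm := Nat.mod_lt k (Net3_pos L)
    have hθ : k % TT L / 6 < 2 * L + 1 := by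
      have : TT L = 6 * (2 * L + 1) := rfl
      omega
    have := (hY _ hθ).2 ⟨k % TT L / 2 % 3, Nat.mod_lt _ (by norm_num)⟩
    have e : 3 * (k % TT L / 6) + k % TT L / 2 % 3 = k % TT L / 2 := by omega
    simp only [e, h2] at this
    have e2 : lval a (2 * (k / TT L) + k % TT L % 2) = xor (a (k / TT L)) (decide (k % 2 = 1)) := by
      unfold lval
      have e3 : (2 * (k / TT L) + k % TT L % 2) / 2 = k / TT L := by omega
      have e4 : (2 * (k / TT L) + k % TT L % 2) % 2 = k % 2 := by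
        rw [← Net3_modmod L k]; omega
      rw [e3, e4]
    rw [e2] at this
    exact this
  · intro k k' l hne hk hk' he
    obtain ⟨h1, h2, h3⟩ := hk
    obtain ⟨h1', h2', h3'⟩ := hk'
    have hm := Nat.mod_lt k (Net3_pos L)
    have hθ : l < 2 * L + 1 := by
      have : TT L = 6 * (2 * L + 1) := rfl
      omega
    simp only [← h3, ← h3'] at he
    have e := (hY l hθ).1 he
    simp only [Fin.mk.injEq] at e
    have eo : k % TT L / 2 = k' % TT L / 2 := by omega
    rw [eo, h2'] at h2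
    have e1 : k / TT L = k' / TT L := by omega
    have e2 : k % TT L = k' % TT L := by omega
    apply hne
    rw [Net3_rec L k, Net3_rec L k', e1, e2]

end Pool.Agent.LHA
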