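import Pool.Agent.LHA.Defs

/-!
# Numbering the graph of a network

Equivalence `Fin K × Z ≃ Fin (K * M)`: `finProdFinEquiv` after `D.num`; the number of `(k, x)` is
`(num x).1 + M * k`. Define `G` as the image (`SimpleGraph.comap` of the inverse). Compare
`Pool/Agent/LIH/Num.lean`, `exists_numG`: the same proof. `(netG D N).Adj (k, x) (l, y) ↔ adjZ D N.lk k.1 l.1 x y`: by
`glue_adj`, cases on `x`, `y`, and `k = l ↔ k.1 = l.1` (`Fin.ext_iff`).
-/

namespace Pool.Agent.LHA

open Pool.Agent.LIH

theorem netG_adj {V : Type} {H : SimpleGraph V} (D : Gad H) (N : Ntw) (k l : Fin N.K)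
    (x y : D.Z) : (netG D N).Adj (k, x) (l, y) ↔ adjZ D N.lk k.1 l.1 x y := by
  unfold netG
  rw [glue_adj]
  obtain x | x := x <;> obtain y | y := y <;> simp only [gAdj, adjZ, atN, Fin.ext_iff]

/-- the numbering -/
noncomputable def NumG_e {V : Type} {H : SimpleGraph V} (D : Gad H) (K : ℕ) :
    Fin K × D.Z ≃ Fin (K * D.M) :=
  (Equiv.prodCongr (Equiv.refl (Fin K)) D.num).trans finProdFinEquiv

theorem NumG_e_val {V : Type} {H : SimpleGraph V} (D : Gad H) (K : ℕ) (k : Fin K) (x : D.Z) :
    (NumG_e D K (k, x)).1 = (D.num x).1 + D.M * k.1 := by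
  simp [NumG_e, finProdFinEquiv]

theorem exists_numN {V : Type} {H : SimpleGraph V} (D : Gad H) (N : Ntw) :
    ∃ G : SimpleGraph (Fin (N.K * D.M)),
      (∀ a b, G.Adj a b ↔ adjM D N.K N.lk a.1 b.1) ∧
      ((∃ f, LocInj G H f) ↔ ∃ f, LocInj (netG D N) H f) := by
  refine ⟨(netG D N).comap (NumG_e D N.K).symm, ?_, ?_⟩
  · intro a b
    obtain ⟨⟨k, s⟩, rfl⟩ := (NumG_e D N.K).surjective a
    obtain ⟨⟨l, t⟩, rfl⟩ := (NumG_e D N.K).surjective b
    rw [SimpleGraph.comap_adj, Equiv.symm_apply_apply, Equiv.symm_apply_apply, netG_adj]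
    constructor
    · intro hh
      exact ⟨s, t, k.1, k.2, l.1, l.2, NumG_e_val _ _ _ _, NumG_e_val _ _ _ _, hh⟩
    · rintro ⟨s', t', k', hk', l', hl', h1, h2, h4⟩
      rw [← NumG_e_val D N.K ⟨k', hk'⟩ s'] at h1
      rw [← NumG_e_val D N.K ⟨l', hl'⟩ t'] at h2
      have e1 := (NumG_e D N.K).injective (Fin.ext h1)
      have e2 := (NumG_e D N.K).injective (Fin.ext h2)
      rw [Prod.mk.injEq] at e1 e2
      obtain ⟨rfl, rfl⟩ := e1
      obtain ⟨rfl, rfl⟩ := e2
      exact h4
  · constructor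
    · rintro ⟨f, hf1, hf2⟩
      refine ⟨fun v => f (NumG_e D N.K v), ?_, ?_⟩
      · intro u v huv
        apply hf1
        rw [SimpleGraph.comap_adj, Equiv.symm_apply_apply, Equiv.symm_apply_apply]
        exact huv
      · intro v a ha b hb hab
        have := @hf2 (NumG_e D N.K v) (NumG_e D N.K a)
          (by
            rw [SimpleGraph.mem_neighborSet, SimpleGraph.comap_adj, Equiv.symm_apply_apply,
              Equiv.symm_apply_apply]
            exact ha) (NumG_e D N.K b)
          (by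
            rw [SimpleGraph.mem_neighborSet, SimpleGraph.comap_adj, Equiv.symm_apply_apply,
              Equiv.symm_apply_apply]
            exact hb) hab
        exact (NumG_e D N.K).injective this
    · rintro ⟨f, hf1, hf2⟩
      refine ⟨fun v => f ((NumG_e D N.K).symm v), ?_, ?_⟩
      · intro u v huv
        exact hf1 _ _ huv
      · intro v a ha b hb hab
        have := @hf2 ((NumG_e D N.K).symm v) ((NumG_e D N.K).symm a) ha
          ((NumG_e D N.K).symm b) hb hab
        exact (NumG_e D N.K).symm.injective this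

end Pool.Agent.LHA
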