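import Pool.Agent.LHA.Defs
import Pool.Agent.LIH.SatNet

/-!
# Literals of the system of triples

Write `L = J * m`, `T l = lval a l` for the truth value of a literal, `one = lone Nv L`. The triple number `2 τ`
(`τ < L`) consists of the first three, the triple `2 τ + 1` of the last three entries of `six`, the triple
`2 L` of `last3` (`lit3 (6 τ + r)`: `o / 6 = τ`). `SatOK J m lit`: `∃ s, ∀ j < J, ∃ i < m, lval s (lit (j m + i)) = true`
(`lval s l = true ↔ s (l / 2) = decide (l % 2 = 0)`).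
Put `C τ` = value of `c τ` = `false` if `τ % m = 0`, `a (Nv + 3 τ)` otherwise, and `C' τ` = `true` if `(τ+1) % m = 0`,
`a (Nv + 3 (τ+1))` otherwise. If `T one = true` then `T (lcc τ) = C τ`, `T (lncc τ) = !C τ`, `T (lncn τ) = !C' τ`.
Chain argument (⟹): if for all `τ < L`: `C' τ = true → C τ = true ∨ T (lit τ) = true`, then every clause has a true literal:
suppose clause `j` has none; by induction on `i < m` `C' (j m + i) = false` : `C (j m) = false`; for `i + 1 < m`
`C (j m + i + 1) = C' (j m + i)`; contradiction at `i = m - 1` where `C' = true`.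
(⟸) given `s`, define `a` = `s` on `x < Nv`, `a (Nv + 3 L) = true`, `a (Nv + 3 τ) = ` some literal `τ'` with
`τ - τ % m ≤ τ' < τ` is true. Then `C' τ = true ↔ C τ = true ∨ T (lit τ) = true` for `(τ+1) % m ≠ 0`, and for
`(τ+1) % m = 0`: `C τ = true ∨ T (lit τ) = true` since the clause is satisfied (`C' τ = true`).

`lit3_lt`: all literals are `< 2 (Nv + 3 L + 1)` (for `lncn`: `τ + 1 < L` if `(τ+1) % m ≠ 0`, since `L = J * m`;
`hlit` for `lit τ`).
`lit3_a`, `lit3_b`, `lit3_c`: the literals of the triples.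
`chain`, `chain'`: the two arguments above. In `chain'` the function `a` extends `s`.
-/

namespace Pool.Agent.LHA

open Pool.Agent.LIH

theorem satl_six_lt (μ : Fin 3) (Nv J m : ℕ) (hm : 0 < m) (lit : ℕ → ℕ)
    (hlit : ∀ τ < J * m, lit τ < 2 * Nv) (τ : ℕ) (hτ : τ < J * m) (i : Fin 6) :
    six Nv (J * m) m lit τ μ i < 2 * (Nv + 3 * (J * m) + 1) := by
  have h1 := hlit τ hτ
  have h2 : lncn Nv (J * m) m τ < 2 * (Nv + 3 * (J * m) + 1) := by
    unfold lncn lone
    split_ifs with h
    · omega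
    · have h3 : τ + 1 ≠ J * m := by
        intro h4
        rw [h4] at h
        exact h (Nat.mul_mod_left J m)
      omega
  have h4 : lcc Nv (J * m) m τ < 2 * (Nv + 3 * (J * m) + 1) := by
    unfold lcc lone
    split_ifs <;> omega
  have h5 : lncc Nv (J * m) m τ < 2 * (Nv + 3 * (J * m) + 1) := by
    unfold lncc lone
    split_ifs <;> omega
  have h6 : lone Nv (J * m) = 2 * (Nv + 3 * (J * m)) := rfl
  fin_cases μ <;> fin_cases i <;> simp [six] <;> omega

theorem lit3_lt (μ : Fin 3) (Nv J m : ℕ) (hm : 0 < m) (lit : ℕ → ℕ)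
    (hlit : ∀ τ < J * m, lit τ < 2 * Nv) :
    ∀ o < 3 * (2 * (J * m) + 1), lit3 μ Nv (J * m) m lit o < 2 * (Nv + 3 * (J * m) + 1) := by
  intro o ho
  unfold lit3
  split_ifs with h
  · exact satl_six_lt μ Nv J m hm lit hlit _ h _
  · have h6 : lone Nv (J * m) = 2 * (Nv + 3 * (J * m)) := rfl
    generalize (⟨o % 6 % 3, Nat.mod_lt _ (by norm_num)⟩ : Fin 3) = i
    fin_cases μ <;> fin_cases i <;> simp [last3] <;> omega

theorem lit3_a (μ : Fin 3) (Nv L m : ℕ) (lit : ℕ → ℕ) {τ : ℕ} (hτ : τ < L) (i : Fin 3) :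
    lit3 μ Nv L m lit (3 * (2 * τ) + i.1) = six Nv L m lit τ μ ⟨i.1, by omega⟩ := by
  have hi := i.2
  have h1 : (3 * (2 * τ) + i.1) / 6 = τ := by omega
  have h2 : (3 * (2 * τ) + i.1) % 6 = i.1 := by omega
  unfold lit3
  rw [if_pos (by rw [h1]; exact hτ)]
  have h3 : (⟨(3 * (2 * τ) + i.1) % 6, Nat.mod_lt _ (by norm_num)⟩ : Fin 6) = ⟨i.1, by omega⟩ :=
    Fin.ext h2
  rw [h3, h1]

theorem lit3_b (μ : Fin 3) (Nv L m : ℕ) (lit : ℕ → ℕ) {τ : ℕ} (hτ : τ < L) (i : Fin 3) :
    lit3 μ Nv L m lit (3 * (2 * τ + 1) + i.1) = six Nv L m lit τ μ ⟨3 + i.1, by omega⟩ := by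
  have hi := i.2
  have h1 : (3 * (2 * τ + 1) + i.1) / 6 = τ := by omega
  have h2 : (3 * (2 * τ + 1) + i.1) % 6 = 3 + i.1 := by omega
  unfold lit3
  rw [if_pos (by rw [h1]; exact hτ)]
  have h3 : (⟨(3 * (2 * τ + 1) + i.1) % 6, Nat.mod_lt _ (by norm_num)⟩ : Fin 6) =
      ⟨3 + i.1, by omega⟩ := Fin.ext h2
  rw [h3, h1]

theorem lit3_c (μ : Fin 3) (Nv L m : ℕ) (lit : ℕ → ℕ) (i : Fin 3) :
    lit3 μ Nv L m lit (3 * (2 * L) + i.1) = last3 Nv L μ i := by
  have hi := i.2
  have h1 : (3 * (2 * L) + i.1) / 6 = L := by omega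
  have h2 : (3 * (2 * L) + i.1) % 6 % 3 = i.1 := by omega
  unfold lit3
  rw [if_neg (by rw [h1]; exact lt_irrefl L)]
  congr 1
  exact Fin.ext h2

/-- a system of triples, split in the triples of the literals and the last one -/
theorem tsol_split (C : (Fin 3 → Bool) → Prop) (μ : Fin 3) (Nv L m : ℕ) (lit : ℕ → ℕ)
    (a : ℕ → Bool) :
    (∀ θ < 2 * L + 1, C (fun i => lval a (lit3 μ Nv L m lit (3 * θ + i.1)))) ↔
      (∀ τ < L, C (fun i => lval a (six Nv L m lit τ μ ⟨i.1, by omega⟩)) ∧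
        C (fun i => lval a (six Nv L m lit τ μ ⟨3 + i.1, by omega⟩))) ∧
      C (fun i => lval a (last3 Nv L μ i)) := by
  have hA : ∀ τ < L, (fun i : Fin 3 => lval a (lit3 μ Nv L m lit (3 * (2 * τ) + i.1))) =
      (fun i : Fin 3 => lval a (six Nv L m lit τ μ ⟨i.1, by omega⟩)) := by
    intro τ hτ
    funext i
    rw [lit3_a μ Nv L m lit hτ i]
  have hB : ∀ τ < L, (fun i : Fin 3 => lval a (lit3 μ Nv L m lit (3 * (2 * τ + 1) + i.1))) =
      (fun i : Fin 3 => lval a (six Nv L m lit τ μ ⟨3 + i.1, by omega⟩)) := by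
    intro τ hτ
    funext i
    rw [lit3_b μ Nv L m lit hτ i]
  have hC : (fun i : Fin 3 => lval a (lit3 μ Nv L m lit (3 * (2 * L) + i.1))) =
      (fun i : Fin 3 => lval a (last3 Nv L μ i)) := by
    funext i
    rw [lit3_c μ Nv L m lit i]
  constructor
  · intro h
    refine ⟨fun τ hτ => ⟨?_, ?_⟩, ?_⟩
    · have := h (2 * τ) (by omega)
      rwa [hA τ hτ] at this
    · have := h (2 * τ + 1) (by omega)
      rwa [hB τ hτ] at this
    · have := h (2 * L) (by omega)
      rwa [hC] at this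
  · rintro ⟨h1, h2⟩ θ hθ
    by_cases h3 : θ = 2 * L
    · subst h3
      rw [hC]
      exact h2
    · rcases Nat.even_or_odd' θ with ⟨τ, h4 | h4⟩
      · subst h4
        rw [hA τ (by omega)]
        exact (h1 τ (by omega)).1
      · subst h4
        rw [hB τ (by omega)]
        exact (h1 τ (by omega)).2

/-- value of `c τ` -/
def cv (Nv m : ℕ) (a : ℕ → Bool) (τ : ℕ) : Bool := if τ % m = 0 then false else a (Nv + 3 * τ)

/-- value of `c (τ + 1)` -/
def cv' (Nv m : ℕ) (a : ℕ → Bool) (τ : ℕ) : Bool :=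
  if (τ + 1) % m = 0 then true else a (Nv + 3 * (τ + 1))

theorem lval_one (Nv L : ℕ) (a : ℕ → Bool) : lval a (lone Nv L) = a (Nv + 3 * L) ∧
    lval a (lone Nv L + 1) = !a (Nv + 3 * L) := by
  have h1 : (2 * (Nv + 3 * L)) / 2 = Nv + 3 * L := by omega
  have h2 : (2 * (Nv + 3 * L) + 1) / 2 = Nv + 3 * L := by omega
  have h3 : (2 * (Nv + 3 * L)) % 2 = 0 := by omega
  have h4 : (2 * (Nv + 3 * L) + 1) % 2 = 1 := by omega
  unfold lval lone
  rw [h1, h2, h3, h4]
  simp

theorem satl_lval_even (a : ℕ → Bool) (x : ℕ) : lval a (2 * x) = a x := by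
  have h1 : (2 * x) / 2 = x := by omega
  have h3 : (2 * x) % 2 = 0 := by omega
  unfold lval
  rw [h1, h3]
  simp

theorem satl_lval_odd (a : ℕ → Bool) (x : ℕ) : lval a (2 * x + 1) = !a x := by
  have h1 : (2 * x + 1) / 2 = x := by omega
  have h3 : (2 * x + 1) % 2 = 1 := by omega
  unfold lval
  rw [h1, h3]
  simp

theorem lval_c (Nv L m τ : ℕ) (a : ℕ → Bool) (h : a (Nv + 3 * L) = true) :
    lval a (lcc Nv L m τ) = cv Nv m a τ ∧ lval a (lncc Nv L m τ) = !cv Nv m a τ ∧
      lval a (lncn Nv L m τ) = !cv' Nv m a τ := by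
  obtain ⟨h1, h2⟩ := lval_one Nv L a
  rw [h] at h1 h2
  refine ⟨?_, ?_, ?_⟩
  · unfold lcc cv
    split_ifs
    · exact h2
    · exact satl_lval_even a _
  · unfold lncc cv
    split_ifs
    · exact h1
    · exact satl_lval_odd a _
  · unfold lncn cv'
    split_ifs
    · exact h2
    · exact satl_lval_odd a _

theorem satl_true (s : ℕ → Bool) (l : ℕ) :
    lval s l = true ↔ s (l / 2) = decide (l % 2 = 0) := by
  unfold lval
  rcases Nat.mod_two_eq_zero_or_one l with h | h <;> rw [h] <;> cases s (l / 2) <;> simp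

theorem chain (Nv J m : ℕ) (hm : 0 < m) (lit : ℕ → ℕ) (a : ℕ → Bool)
    (h : ∀ τ < J * m, cv' Nv m a τ = true → cv Nv m a τ = true ∨ lval a (lit τ) = true) :
    SatOK J m lit := by
  refine ⟨a, fun j hj => ?_⟩
  by_contra hcon
  push Not at hcon
  have hno : ∀ i < m, lval a (lit (j * m + i)) ≠ true := by
    intro i hi h1
    exact hcon i hi ((satl_true a _).1 h1)
  have hlt : ∀ i < m, j * m + i < J * m := by
    intro i hi
    have h2 : (j + 1) * m ≤ J * m := Nat.mul_le_mul_right m hj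
    have h3 : (j + 1) * m = j * m + m := by ring
    omega
  have hmod : ∀ i < m, (j * m + i) % m = i := by
    intro i hi
    rw [Nat.add_comm, Nat.add_mul_mod_self_right, Nat.mod_eq_of_lt hi]
  have key : ∀ i < m, cv Nv m a (j * m + i) ≠ true := by
    intro i
    induction i with
    | zero =>
      intro _
      unfold cv
      rw [hmod 0 hm]
      simp
    | succ i ih =>
      intro hi
      have h4 := ih (by omega)
      have h5 : cv' Nv m a (j * m + i) ≠ true := by
        intro h6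
        rcases h _ (hlt i (by omega)) h6 with h7 | h7
        · exact h4 h7
        · exact hno i (by omega) h7
      have h6 : (j * m + (i + 1)) % m ≠ 0 := by
        rw [hmod (i + 1) hi]
        omega
      unfold cv' at h5
      unfold cv
      rw [if_neg (by rw [Nat.add_assoc]; exact h6)] at h5
      rw [if_neg h6]
      rw [Nat.add_assoc] at h5
      exact h5
  have h8 : cv' Nv m a (j * m + (m - 1)) = true := by
    unfold cv'
    have h9 : j * m + (m - 1) + 1 = (j + 1) * m := by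
      have h3 : (j + 1) * m = j * m + m := by ring
      omega
    rw [h9, if_pos (Nat.mul_mod_left _ _)]
  rcases h _ (hlt (m - 1) (by omega)) h8 with h7 | h7
  · exact key (m - 1) (by omega) h7
  · exact hno (m - 1) (by omega) h7

theorem chain' (Nv J m : ℕ) (hm : 0 < m) (lit : ℕ → ℕ) (hlit : ∀ τ < J * m, lit τ < 2 * Nv)
    (h : SatOK J m lit) (U W : ℕ → Bool → Bool → Bool) :
    ∃ a : ℕ → Bool, a (Nv + 3 * (J * m)) = true ∧
      (∀ τ < J * m, (cv' Nv m a τ = true ↔ cv Nv m a τ = true ∨ lval a (lit τ) = true)) ∧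
      ∀ τ < J * m, a (Nv + 3 * τ + 1) = U τ (cv Nv m a τ) (lval a (lit τ)) ∧
        a (Nv + 3 * τ + 2) = W τ (cv Nv m a τ) (lval a (lit τ)) := by
  classical
  obtain ⟨s, hs⟩ := h
  let c : ℕ → Bool := fun τ => decide (∃ t, τ - τ % m ≤ t ∧ t < τ ∧ lval s (lit t) = true)
  let a : ℕ → Bool := fun x =>
    if x < Nv then s x
    else if (x - Nv) % 3 = 0 then (if (x - Nv) / 3 = J * m then true else c ((x - Nv) / 3))
    else if (x - Nv) % 3 = 1 then U ((x - Nv) / 3) (c ((x - Nv) / 3)) (lval s (lit ((x - Nv) / 3)))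
    else W ((x - Nv) / 3) (c ((x - Nv) / 3)) (lval s (lit ((x - Nv) / 3)))
  have ha0 : ∀ τ, a (Nv + 3 * τ) = if τ = J * m then true else c τ := by
    intro τ
    have e1 : (Nv + 3 * τ - Nv) % 3 = 0 := by omega
    have e2 : (Nv + 3 * τ - Nv) / 3 = τ := by omega
    have e3 : ¬ Nv + 3 * τ < Nv := by omega
    simp only [a]
    rw [if_neg e3, if_pos e1, e2]
  have ha1 : ∀ τ, a (Nv + 3 * τ + 1) = U τ (c τ) (lval s (lit τ)) := by
    intro τ
    have e1 : (Nv + 3 * τ + 1 - Nv) % 3 = 1 := by omega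
    have e2 : (Nv + 3 * τ + 1 - Nv) / 3 = τ := by omega
    have e3 : ¬ Nv + 3 * τ + 1 < Nv := by omega
    simp only [a]
    rw [if_neg e3, if_neg (by omega), if_pos e1, e2]
  have ha2 : ∀ τ, a (Nv + 3 * τ + 2) = W τ (c τ) (lval s (lit τ)) := by
    intro τ
    have e2 : (Nv + 3 * τ + 2 - Nv) / 3 = τ := by omega
    have e3 : ¬ Nv + 3 * τ + 2 < Nv := by omega
    simp only [a]
    rw [if_neg e3, if_neg (by omega), if_neg (by omega), e2]
  have hl : ∀ τ < J * m, lval a (lit τ) = lval s (lit τ) := by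
    intro τ hτ
    have h1 : lit τ / 2 < Nv := by
      have := hlit τ hτ
      omega
    unfold lval
    have h2 : a (lit τ / 2) = s (lit τ / 2) := by
      simp only [a]
      rw [if_pos h1]
    rw [h2]
  have hc0 : ∀ τ, τ % m = 0 → c τ = false := by
    intro τ h1
    simp only [c]
    rw [decide_eq_false_iff_not]
    rintro ⟨t, h2, h3, -⟩
    omega
  have hcv : ∀ τ < J * m, cv Nv m a τ = c τ := by
    intro τ hτ
    unfold cv
    split_ifs with h1
    · exact (hc0 τ h1).symm
    · rw [ha0, if_neg (by omega)]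
  have hstep : ∀ τ, (τ + 1) % m ≠ 0 → (c (τ + 1) = true ↔ c τ = true ∨ lval s (lit τ) = true) := by
    intro τ h1
    have h2 : (τ + 1) % m = τ % m + 1 := by
      have h3 : τ % m < m := Nat.mod_lt _ hm
      rw [Nat.add_mod] at h1 ⊢
      rcases Nat.lt_or_ge 1 m with h4 | h4
      · rw [Nat.mod_eq_of_lt h4] at h1 ⊢
        rcases Nat.lt_or_ge (τ % m + 1) m with h5 | h5
        · exact Nat.mod_eq_of_lt h5
        · have h6 : τ % m + 1 = m := by omega
          rw [h6, Nat.mod_self] at h1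
          exact absurd rfl h1
      · have h5 : m = 1 := by omega
        subst h5
        exact absurd (Nat.mod_one _) h1
    have h3 : τ % m ≤ τ := Nat.mod_le _ _
    simp only [c, decide_eq_true_eq]
    constructor
    · rintro ⟨t, ht1, ht2, ht3⟩
      by_cases h4 : t = τ
      · right
        rw [← h4]
        exact ht3
      · left
        exact ⟨t, by omega, by omega, ht3⟩
    · rintro (⟨t, ht1, ht2, ht3⟩ | h4)
      · exact ⟨t, by omega, by omega, ht3⟩
      · exact ⟨τ, by omega, by omega, h4⟩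
  refine ⟨a, ?_, ?_, ?_⟩
  · rw [ha0, if_pos rfl]
  · intro τ hτ
    rw [hcv τ hτ, hl τ hτ]
    unfold cv'
    split_ifs with h1
    · have h2 : c τ = true ∨ lval s (lit τ) = true := by
        obtain ⟨q, hq⟩ := Nat.dvd_of_mod_eq_zero h1
        have hq0 : 0 < q := by
          rcases Nat.eq_zero_or_pos q with h3 | h3
          · subst h3
            simp at hq
          · exact h3
        obtain ⟨j, rfl⟩ : ∃ j, q = j + 1 := ⟨q - 1, by omega⟩
        have e1 : m * (j + 1) = j * m + m := by ring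
        have hj : j < J := by
          by_contra hcon
          have h4 : J * m ≤ j * m := Nat.mul_le_mul_right m (not_lt.1 hcon)
          omega
        obtain ⟨i, hi, hi2⟩ := hs j hj
        have hi3 := (satl_true s _).2 hi2
        have e2 : τ = j * m + (m - 1) := by omega
        have e3 : τ % m = m - 1 := by
          rw [e2, Nat.add_comm, Nat.add_mul_mod_self_right, Nat.mod_eq_of_lt (by omega)]
        by_cases h5 : i = m - 1
        · right
          rw [e2, ← h5]
          exact hi3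
        · left
          simp only [c, decide_eq_true_eq]
          exact ⟨j * m + i, by omega, by omega, hi3⟩
      simp [h2]
    · have h3 : τ + 1 ≠ J * m := by
        intro h4
        rw [h4] at h1
        exact h1 (Nat.mul_mod_left J m)
      rw [ha0, if_neg h3]
      exact hstep τ h1
  · intro τ hτ
    rw [hcv τ hτ, hl τ hτ]
    exact ⟨ha1 τ, ha2 τ⟩

end Pool.Agent.LHA
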