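import Pool.Agent.LHA.Defs
import Pool.Agent.LHA.SatL

/-!
# The system of triples is equivalent to the formula

See `SatL` for the notation. By `tsol_split`. `C = cv τ`, `C' = cv' τ`, `ℓ = lval a (lit τ)`, `u = a (Nv+3τ+1)`,
`w = a (Nv+3τ+2)`.
`μ = 0` (exactly one true). (⟹) the last triple `(¬one, ¬one, one)` forces `a one = true`. Triples `(¬C', ℓ, u)`,
`(u, ¬C, w)`. If `C' = true` then exactly one of `ℓ, u`; if `ℓ = false` then `u = true`, so `¬C = false`: `C = true`. So `chain`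
applies. (⟸) `chain'` with `u = !ℓ && C` , `w = C && ℓ || ...`: explicitly: if `C ∨ ℓ` (then `C' = true`): `u = !ℓ`, `w = C && ℓ`
(`ℓ` true: `u` false, `w = C`: exactly one of `¬C, w`; `ℓ` false: `C` true, `u` true, `¬C` false, `w` false); if neither (`C' = false`):
`u = false`, `w = false` (`¬C' = true`, `ℓ` false; `¬C = true`). So `U = fun _ C ℓ => !ℓ && C`, `W = fun _ C ℓ => C && ℓ`.
`μ = 1` (not all equal). (⟹) If `a one = false` replace `a` by its complement (`modeOK 1` is invariant, all literals change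
their value). So `a one = true`. Triples `(¬C', C, u)`, `(¬u, ℓ, ¬one)`. Second: `¬u ∨ ℓ`. First: if `C' = true`:
`C ∨ u`. So `C ∨ ℓ`: `chain`. (⟸) `U = fun _ C ℓ => !C && ℓ`: if `C' = true`: `C ∨ ℓ`, so `C ∨ u`, i.e. the first triple is
`(false, C, u)`, not all false: ok; if `C' = false`: `C = ℓ = false`, `u = false`: `(true, false, false)` ok. Second triple:
`u → ℓ`, third entry false: ok. Last triple `(one, ¬one, one)` ok.
`μ = 2` (at least one true). Last triple: `a one = true`. Triple `(¬C', C, ℓ)`: exactly the hypothesis of `chain`. The other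
triples `(one, one, one)`.
-/

namespace Pool.Agent.LHA

open Pool.Agent.LIH

theorem Sat_even (a : ℕ → Bool) (x : ℕ) : lval a (2 * x) = a x := by
  unfold lval
  have h1 : 2 * x / 2 = x := by omega
  have h2 : ¬ (2 * x % 2 = 1) := by omega
  rw [h1, decide_eq_false h2, Bool.xor_false]

theorem Sat_odd (a : ℕ → Bool) (x : ℕ) : lval a (2 * x + 1) = !a x := by
  unfold lval
  have h1 : (2 * x + 1) / 2 = x := by omega
  have h2 : (2 * x + 1) % 2 = 1 := by omega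
  rw [h1, decide_eq_true h2, Bool.xor_true]

theorem Sat_compl (a : ℕ → Bool) (l : ℕ) : lval (fun x => !a x) l = !lval a l := by
  unfold lval
  show xor (!a (l / 2)) (decide (l % 2 = 1)) = !xor (a (l / 2)) (decide (l % 2 = 1))
  cases a (l / 2) <;> cases decide (l % 2 = 1) <;> rfl

/-- `modeOK 0` on three values -/
def SatM0 (x y z : Bool) : Prop :=
  (x = true ∧ y = false ∧ z = false) ∨ (x = false ∧ y = true ∧ z = false) ∨
    (x = false ∧ y = false ∧ z = true)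

def SatM1 (x y z : Bool) : Prop := ¬ (x = y ∧ y = z)

def SatM2 (x y z : Bool) : Prop := x = true ∨ y = true ∨ z = true

theorem Sat_split0 (Nv L m : ℕ) (lit : ℕ → ℕ) (a : ℕ → Bool) :
    (∀ θ < 2 * L + 1, modeOK 0 (fun i => lval a (lit3 0 Nv L m lit (3 * θ + i.1)))) ↔
      (∀ τ < L, SatM0 (lval a (lncn Nv L m τ)) (lval a (lit τ)) (a (Nv + 3 * τ + 1)) ∧
        SatM0 (a (Nv + 3 * τ + 1)) (lval a (lncc Nv L m τ)) (a (Nv + 3 * τ + 2))) ∧
      SatM0 (!a (Nv + 3 * L)) (!a (Nv + 3 * L)) (a (Nv + 3 * L)) := by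
  rw [tsol_split (modeOK 0) 0 Nv L m lit a]
  have e1 := lval_one Nv L a
  rw [← e1.2, ← e1.1]
  refine and_congr (forall_congr' fun τ => forall_congr' fun _ => ?_) Iff.rfl
  rw [← Sat_even a (Nv + 3 * τ + 1), ← Sat_even a (Nv + 3 * τ + 2)]
  exact Iff.rfl

theorem Sat_split1 (Nv L m : ℕ) (lit : ℕ → ℕ) (a : ℕ → Bool) :
    (∀ θ < 2 * L + 1, modeOK 1 (fun i => lval a (lit3 1 Nv L m lit (3 * θ + i.1)))) ↔
      (∀ τ < L, SatM1 (lval a (lncn Nv L m τ)) (lval a (lcc Nv L m τ)) (a (Nv + 3 * τ + 1)) ∧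
        SatM1 (!a (Nv + 3 * τ + 1)) (lval a (lit τ)) (!a (Nv + 3 * L))) ∧
      SatM1 (a (Nv + 3 * L)) (!a (Nv + 3 * L)) (a (Nv + 3 * L)) := by
  rw [tsol_split (modeOK 1) 1 Nv L m lit a]
  have e1 := lval_one Nv L a
  rw [← e1.2, ← e1.1]
  refine and_congr (forall_congr' fun τ => forall_congr' fun _ => ?_) Iff.rfl
  rw [← Sat_odd a (Nv + 3 * τ + 1), ← Sat_even a (Nv + 3 * τ + 1)]
  exact Iff.rfl

theorem Sat_split2 (Nv L m : ℕ) (lit : ℕ → ℕ) (a : ℕ → Bool) :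
    (∀ θ < 2 * L + 1, modeOK 2 (fun i => lval a (lit3 2 Nv L m lit (3 * θ + i.1)))) ↔
      (∀ τ < L, SatM2 (lval a (lncn Nv L m τ)) (lval a (lcc Nv L m τ)) (lval a (lit τ)) ∧
        SatM2 (a (Nv + 3 * L)) (a (Nv + 3 * L)) (a (Nv + 3 * L))) ∧
      SatM2 (a (Nv + 3 * L)) (a (Nv + 3 * L)) (a (Nv + 3 * L)) := by
  rw [tsol_split (modeOK 2) 2 Nv L m lit a]
  have e1 := lval_one Nv L a
  rw [← e1.1]
  exact Iff.rfl

theorem Sat_b0 (C' C l u w : Bool) (h1 : SatM0 (!C') l u) (h2 : SatM0 u (!C) w) (h : C' = true) :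
    C = true ∨ l = true := by
  revert h1 h2 h
  unfold SatM0
  cases C' <;> cases C <;> cases l <;> cases u <;> cases w <;> simp

theorem Sat_c0 (C' C l : Bool) (h : C' = true ↔ C = true ∨ l = true) :
    SatM0 (!C') l (!l && C) ∧ SatM0 (!l && C) (!C) (C && l) := by
  revert h
  unfold SatM0
  cases C' <;> cases C <;> cases l <;> simp

theorem Sat_b1 (C' C l u : Bool) (h1 : SatM1 (!C') C u) (h2 : SatM1 (!u) l false) (h : C' = true) :
    C = true ∨ l = true := by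
  revert h1 h2 h
  unfold SatM1
  cases C' <;> cases C <;> cases l <;> cases u <;> simp

theorem Sat_c1 (C' C l : Bool) (h : C' = true ↔ C = true ∨ l = true) :
    SatM1 (!C') C (!C && l) ∧ SatM1 (!(!C && l)) l false := by
  revert h
  unfold SatM1
  cases C' <;> cases C <;> cases l <;> simp

theorem Sat_b2 (C' C l : Bool) (h1 : SatM2 (!C') C l) (h : C' = true) :
    C = true ∨ l = true := by
  revert h1 h
  unfold SatM2
  cases C' <;> cases C <;> cases l <;> simp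

theorem Sat_c2 (C' C l : Bool) (h : C' = true ↔ C = true ∨ l = true) : SatM2 (!C') C l := by
  revert h
  unfold SatM2
  cases C' <;> cases C <;> cases l <;> simp

theorem Sat_inv1 (x y z : Bool) : SatM1 (!x) (!y) (!z) ↔ SatM1 x y z := by
  unfold SatM1
  cases x <;> cases y <;> cases z <;> simp

theorem Sat_zero (Nv J m : ℕ) (hm : 0 < m) (lit : ℕ → ℕ)
    (hlit : ∀ τ < J * m, lit τ < 2 * Nv) :
    TSol (modeOK 0) (2 * (J * m) + 1) (lit3 0 Nv (J * m) m lit) ↔ SatOK J m lit := by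
  constructor
  · rintro ⟨a, h⟩
    rw [Sat_split0] at h
    obtain ⟨h1, h2⟩ := h
    have ho : a (Nv + 3 * (J * m)) = true := by
      revert h2
      unfold SatM0
      cases a (Nv + 3 * (J * m)) <;> simp
    refine chain Nv J m hm lit a fun τ hτ => ?_
    obtain ⟨h3, h4⟩ := h1 τ hτ
    obtain ⟨-, e2, e3⟩ := lval_c Nv (J * m) m τ a ho
    rw [e3] at h3
    rw [e2] at h4
    exact Sat_b0 _ _ _ _ _ h3 h4
  · intro h
    obtain ⟨a, ho, h1, h2⟩ := chain' Nv J m hm lit hlit h (fun _ C l => !l && C) (fun _ C l => C && l)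
    refine ⟨a, ?_⟩
    rw [Sat_split0]
    refine ⟨fun τ hτ => ?_, ?_⟩
    · obtain ⟨-, e2, e3⟩ := lval_c Nv (J * m) m τ a ho
      rw [e3, e2, (h2 τ hτ).1, (h2 τ hτ).2]
      exact Sat_c0 _ _ _ (h1 τ hτ)
    · rw [ho]
      unfold SatM0
      simp

theorem Sat_one_aux (Nv J m : ℕ) (hm : 0 < m) (lit : ℕ → ℕ) (a : ℕ → Bool)
    (ho : a (Nv + 3 * (J * m)) = true)
    (h : ∀ θ < 2 * (J * m) + 1, modeOK 1 (fun i => lval a (lit3 1 Nv (J * m) m lit (3 * θ + i.1)))) :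
    SatOK J m lit := by
  rw [Sat_split1] at h
  obtain ⟨h1, -⟩ := h
  refine chain Nv J m hm lit a fun τ hτ => ?_
  obtain ⟨h3, h4⟩ := h1 τ hτ
  obtain ⟨e1, -, e3⟩ := lval_c Nv (J * m) m τ a ho
  rw [e1, e3] at h3
  rw [ho] at h4
  exact Sat_b1 _ _ _ _ h3 h4

theorem Sat_one (Nv J m : ℕ) (hm : 0 < m) (lit : ℕ → ℕ)
    (hlit : ∀ τ < J * m, lit τ < 2 * Nv) :
    TSol (modeOK 1) (2 * (J * m) + 1) (lit3 1 Nv (J * m) m lit) ↔ SatOK J m lit := by
  constructor
  · rintro ⟨a, h⟩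
    cases ho : a (Nv + 3 * (J * m)) with
    | true => exact Sat_one_aux Nv J m hm lit a ho h
    | false =>
      refine Sat_one_aux Nv J m hm lit (fun x => !a x) ?_ fun θ hθ => ?_
      · simp only [ho]
        rfl
      · have h3 : SatM1 (lval a (lit3 1 Nv (J * m) m lit (3 * θ + 0)))
            (lval a (lit3 1 Nv (J * m) m lit (3 * θ + 1)))
            (lval a (lit3 1 Nv (J * m) m lit (3 * θ + 2))) := h θ hθ
        have h4 := (Sat_inv1 _ _ _).2 h3
        rw [← Sat_compl, ← Sat_compl, ← Sat_compl] at h4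
        exact h4
  · intro h
    obtain ⟨a, ho, h1, h2⟩ := chain' Nv J m hm lit hlit h (fun _ C l => !C && l) (fun _ _ _ => true)
    refine ⟨a, ?_⟩
    rw [Sat_split1]
    refine ⟨fun τ hτ => ?_, ?_⟩
    · obtain ⟨e1, -, e3⟩ := lval_c Nv (J * m) m τ a ho
      rw [e3, e1, (h2 τ hτ).1, ho]
      exact Sat_c1 _ _ _ (h1 τ hτ)
    · rw [ho]
      unfold SatM1
      simp

theorem Sat_two (Nv J m : ℕ) (hm : 0 < m) (lit : ℕ → ℕ)
    (hlit : ∀ τ < J * m, lit τ < 2 * Nv) :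
    TSol (modeOK 2) (2 * (J * m) + 1) (lit3 2 Nv (J * m) m lit) ↔ SatOK J m lit := by
  constructor
  · rintro ⟨a, h⟩
    rw [Sat_split2] at h
    obtain ⟨h1, h2⟩ := h
    have ho : a (Nv + 3 * (J * m)) = true := by
      rcases h2 with h2 | h2 | h2 <;> exact h2
    refine chain Nv J m hm lit a fun τ hτ => ?_
    obtain ⟨h3, -⟩ := h1 τ hτ
    obtain ⟨e1, -, e3⟩ := lval_c Nv (J * m) m τ a ho
    rw [e1, e3] at h3
    exact Sat_b2 _ _ _ h3
  · intro h
    obtain ⟨a, ho, h1, h2⟩ := chain' Nv J m hm lit hlit h (fun _ _ _ => true) (fun _ _ _ => true)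
    refine ⟨a, ?_⟩
    rw [Sat_split2]
    refine ⟨fun τ hτ => ⟨?_, Or.inl ho⟩, Or.inl ho⟩
    obtain ⟨e1, -, e3⟩ := lval_c Nv (J * m) m τ a ho
    rw [e3, e1]
    exact Sat_c2 _ _ _ (h1 τ hτ)

theorem tsol_iff_sat (μ : Fin 3) (Nv J m : ℕ) (hm : 0 < m) (lit : ℕ → ℕ)
    (hlit : ∀ τ < J * m, lit τ < 2 * Nv) :
    TSol (modeOK μ) (2 * (J * m) + 1) (lit3 μ Nv (J * m) m lit) ↔ SatOK J m lit := by
  fin_cases μ
  · exact Sat_zero Nv J m hm lit hlit
  · exact Sat_one Nv J m hm lit hlit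
  · exact Sat_two Nv J m hm lit hlit

end Pool.Agent.LHA
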