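import Pool.Agent.LHA.Defs
import Pool.Agent.LHA.CellL
import Pool.Agent.LHA.CellS
import Pool.Agent.LHA.CellC
import Pool.Agent.LHA.Glue
import Pool.Agent.LHA.Net3
import Pool.Agent.LHA.Mode
import Pool.Agent.LHA.SatL
import Pool.Agent.LHA.Sat
import Pool.Agent.LHA.NumG
import Pool.Agent.LHA.DefLit
import Pool.Agent.LHA.DefAdj
import Pool.Agent.LIH.Grid
import Pool.Agent.LIH.Emit
import Pool.Agent.LIH.Hard

/-!
# The reduction

Compare `reduces_lihom` in `LIH/Hard.lean` (same structure). `np_sat` gives `m, Nv, J, lit`. `trip_mode` with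
`D.R` (`R_vals`) gives `μ`. `exists_print` with the polynomial `KK * M` (as a polynomial in `n0`:
`(Nv + 3 * (J * C m) + 1) * (6 * (2 * (J * C m) + 1)) * C D.M`) and `def_adjM`. For an input `z`, `n0 = |z| + 1`,
`N = ntw3 (Nv.eval n0) (J.eval n0 * m) (lit3 μ ...)`; `exists_numN`, `matrix_eq`, `mem_lihom` (LIH); the graph has a locally
injective homomorphism iff `∃ c, GoodCol ...` (`glue_iff` with `D.P, D.r, D.r_inj, D.ex_p, D.pin`, `F_sub`) iff
`Sol D.R N` (`cell_sound`, `cell_complete`) iff `TSol (Trip D.R) ..` (`net_sound` with `lit3_lt`, `net_complete`) iff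
`TSol (modeOK μ) ..` iff `SatOK` (`tsol_iff_sat`).
-/

namespace Pool.Agent.LHA

open Pool.Agent.LIH

open NPC Polynomial in
theorem reduces_of_gad {V : Type} {H : SimpleGraph V} (D : Gad H) {L : Set (List Bool)}
    (hL : L ∈ NP) : Reduces L (LIHOM H) := by
  classical
  obtain ⟨m, Nv, J, lit, hm, hNv, hlt, hsat, hdef⟩ := np_sat hL
  obtain ⟨r0, r1, r2, r3⟩ := D.toKit.R_vals
  obtain ⟨μ, hμ⟩ := trip_mode D.toKit.R r0 r1 r2 r3
  obtain ⟨e, he⟩ := exists_print
    ((Nv + 3 * (J * C m) + 1) * (6 * (2 * (J * C m) + 1)) * C D.M) (def_adjM D μ Nv J hm hdef)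
  refine ⟨e.fn, polyTime_em e, fun z => ?_⟩
  set n0 := z.length + 1 with hn0
  set N := ntw3 (Nv.eval n0) (J.eval n0 * m)
    (lit3 μ (Nv.eval n0) (J.eval n0 * m) m (lit (prep z) n0)) with hN
  obtain ⟨G, hG1, hG2⟩ := exists_numN D N
  have hM : ((Nv + 3 * (J * C m) + 1) * (6 * (2 * (J * C m) + 1)) * C D.M).eval n0 =
      N.K * D.M := by
    simp only [hN, ntw3, KK, TT, Polynomial.eval_mul, Polynomial.eval_add, Polynomial.eval_one,
      Polynomial.eval_C, Polynomial.eval_ofNat]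
  have h1 : e.fn z = matrix G := by
    rw [he z, matrix_eq G (fun a b => adjM D N.K N.lk a b) hG1, printed, hM]
    simp only [Matrix.cons_val_zero, Matrix.cons_val_one]
    rfl
  have hlt3 := lit3_lt μ (Nv.eval n0) (J.eval n0) m hm (lit (prep z) n0) (hlt z)
  have hT : TSol (Trip D.toKit.R) (2 * (J.eval n0 * m) + 1)
      (lit3 μ (Nv.eval n0) (J.eval n0 * m) m (lit (prep z) n0)) ↔
      SatOK (J.eval n0) m (lit (prep z) n0) := by
    rw [← tsol_iff_sat μ (Nv.eval n0) (J.eval n0) m hm (lit (prep z) n0) (hlt z)]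
    unfold TSol
    simp only [hμ]
  have hgl : (∃ f, LocInj (netG D N) H f) ↔
      ∃ c, GoodCol H D.toKit.a D.toKit.F D.toKit.B (atN D.toKit N) c :=
    glue_iff D.P D.r D.toKit.B (atN D.toKit N) D.toKit.a D.toKit.F D.toKit.F_sub D.r_inj
      D.ex_p D.pin
  rw [h1, mem_lihom, hG2, hsat z, hgl, ← hT]
  constructor
  · intro hs
    exact cell_complete D.toKit N (net_complete D.toKit.R _ _ _ hs)
  · rintro ⟨c, hc⟩
    exact net_sound D.toKit.R _ _ _ hlt3 (cell_sound D.toKit N c hc)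

end Pool.Agent.LHA
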