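import Pool.Agent.LHA.Defs

/-!
# The ball of the universal cover

Walks are lists, the last vertex first, without the starting point `a`. `hd a [] = a`,
`hd a (c :: l) = c`. `NBl` is: `[]` is fine; `c :: l` is fine iff `l` is fine, `hd a l ∼ c` and (if `l = x :: l'`)
`c ≠ hd a l'`. `I = {l // NBl l ∧ l.length ≤ R}`, finite (`List.finite_length_le` or similar), `e = hd a`,
`d = length`, `root = []`.
Tree neighbour of `l` over `c` (where `hd a l ∼ c`): `tn l c`: for `l = x :: l'` and `c = hd a l'` it is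
`some l'` (the parent); otherwise it is `some (c :: l)` if `l.length < R` and `none` if `l.length = R`.
Facts: if `tn l c = some l'` then `l' ∈ I`, `hd a l' = c`, `tn l' (hd a l) = some l`, the lengths
differ by one; `tn l c = none` only if `l.length = R`.
`sw b c l` (for `H.Adj b c`, so `b ≠ c`) := if `hd a l = b` then `(tn l c).getD l` else if `hd a l = c` then
`(tn l b).getD l` else `l`; for `b, c` not adjacent put `sw b c l = l` (use `Classical`). Then
`sw b c l = sw c b l` and all fields follow. `up`: `d (sw (e l) c l) = d l + 1` means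
`sw (e l) c l = c :: l`; for `c' ≠ e l` the neighbour of `c :: l` over `c'` is `c' :: c :: l` (length `d l + 2`)
or none. `child`: `e l` has at least two neighbours (`h2`), one of them is not the end of the parent.
`leaf`: same. `eq_root`: length 0. `root_child`: `tn [] c = some [c]` as `1 ≤ R`.
-/

namespace Pool.Agent.LHA

open Pool.Agent.LIH

section TreeBallAux

variable {V : Type}

/-- the end of a walk -/
def TreeBall_hd (a : V) : List V → V
  | [] => a
  | c :: _ => c

/-- non-backtracking walks -/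
def TreeBall_ok (H : SimpleGraph V) (a : V) : List V → Prop
  | [] => True
  | c :: l => TreeBall_ok H a l ∧ H.Adj (TreeBall_hd a l) c ∧ (l ≠ [] → c ≠ TreeBall_hd a l.tail)

open Classical in
/-- the neighbour in the tree -/
noncomputable def TreeBall_tn (a : V) (R : ℕ) (l : List V) (c : V) : List V :=
  if l ≠ [] ∧ c = TreeBall_hd a l.tail then l.tail else if l.length < R then c :: l else l

open Classical in
/-- the neighbour over the edge `b c` -/
noncomputable def TreeBall_sw (H : SimpleGraph V) (a : V) (R : ℕ) (b c : V) (l : List V) : List V :=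
  if H.Adj b c then
    if TreeBall_hd a l = b then TreeBall_tn a R l c
    else if TreeBall_hd a l = c then TreeBall_tn a R l b
    else l
  else l

variable {H : SimpleGraph V} {a : V} {R : ℕ}

theorem TreeBall_tn_cases {l : List V} (hl : TreeBall_ok H a l) (hR : l.length ≤ R) {c : V}
    (hc : H.Adj (TreeBall_hd a l) c) :
    (∃ l', l = TreeBall_hd a l :: l' ∧ c = TreeBall_hd a l' ∧ TreeBall_tn a R l c = l') ∨
    ((l ≠ [] → c ≠ TreeBall_hd a l.tail) ∧ l.length < R ∧ TreeBall_tn a R l c = c :: l) ∨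
    ((l ≠ [] → c ≠ TreeBall_hd a l.tail) ∧ l.length = R ∧ TreeBall_tn a R l c = l) := by
  unfold TreeBall_tn
  by_cases h1 : l ≠ [] ∧ c = TreeBall_hd a l.tail
  · left
    obtain ⟨h1, h2⟩ := h1
    obtain ⟨x, l', rfl⟩ := List.exists_cons_of_ne_nil h1
    refine ⟨l', rfl, h2, ?_⟩
    rw [if_pos ⟨h1, h2⟩]
    rfl
  · right
    rw [if_neg h1]
    have h3 : l ≠ [] → c ≠ TreeBall_hd a l.tail := fun h h' => h1 ⟨h, h'⟩
    by_cases h2 : l.length < R
    · left
      exact ⟨h3, h2, if_pos h2⟩
    · right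
      exact ⟨h3, by omega, if_neg h2⟩

theorem TreeBall_tn_ok {l : List V} (hl : TreeBall_ok H a l) (hR : l.length ≤ R) {c : V}
    (hc : H.Adj (TreeBall_hd a l) c) :
    TreeBall_ok H a (TreeBall_tn a R l c) ∧ (TreeBall_tn a R l c).length ≤ R := by
  rcases TreeBall_tn_cases hl hR hc with ⟨l', h1, h2, h3⟩ | ⟨h1, h2, h3⟩ | ⟨h1, h2, h3⟩
  · rw [h3]
    rw [h1] at hl hR
    simp only [List.length_cons] at hR
    exact ⟨hl.1, by omega⟩
  · rw [h3]
    refine ⟨⟨hl, hc, h1⟩, ?_⟩
    simp only [List.length_cons]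
    omega
  · rw [h3]
    exact ⟨hl, hR⟩

theorem TreeBall_tn_hd {l : List V} (hl : TreeBall_ok H a l) (hR : l.length ≤ R) {c : V}
    (hc : H.Adj (TreeBall_hd a l) c) (hne : TreeBall_tn a R l c ≠ l) :
    TreeBall_hd a (TreeBall_tn a R l c) = c := by
  rcases TreeBall_tn_cases hl hR hc with ⟨l', h1, h2, h3⟩ | ⟨h1, h2, h3⟩ | ⟨h1, h2, h3⟩
  · rw [h3, h2]
  · rw [h3]; rfl
  · exact absurd h3 hne

theorem TreeBall_tn_tn {l : List V} (hl : TreeBall_ok H a l) (hR : l.length ≤ R) {c : V}
    (hc : H.Adj (TreeBall_hd a l) c) (hne : TreeBall_tn a R l c ≠ l) :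
    TreeBall_tn a R (TreeBall_tn a R l c) (TreeBall_hd a l) = l := by
  rcases TreeBall_tn_cases hl hR hc with ⟨l', h1, h2, h3⟩ | ⟨h1, h2, h3⟩ | ⟨h1, h2, h3⟩
  · rw [h3]
    generalize TreeBall_hd a l = x at h1 hc
    subst h1
    simp only [List.length_cons] at hR
    unfold TreeBall_tn
    rw [if_neg (by rintro ⟨h4, h5⟩; exact hl.2.2 h4 h5), if_pos (by omega)]
  · rw [h3]
    unfold TreeBall_tn
    rw [if_pos ⟨List.cons_ne_nil _ _, rfl⟩]
    rfl
  · exact absurd h3 hne

theorem TreeBall_tn_len {l : List V} (hl : TreeBall_ok H a l) (hR : l.length ≤ R) {c : V}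
    (hc : H.Adj (TreeBall_hd a l) c) : (TreeBall_tn a R l c).length ≤ l.length + 1 := by
  rcases TreeBall_tn_cases hl hR hc with ⟨l', h1, h2, h3⟩ | ⟨h1, h2, h3⟩ | ⟨h1, h2, h3⟩
  · rw [h3, h1]
    simp only [List.length_cons]
    omega
  · rw [h3]; simp
  · rw [h3]; omega

theorem TreeBall_sw_self {l : List V} {c : V} (hc : H.Adj (TreeBall_hd a l) c) :
    TreeBall_sw H a R (TreeBall_hd a l) c l = TreeBall_tn a R l c := by
  unfold TreeBall_sw
  rw [if_pos hc, if_pos rfl]

theorem TreeBall_sw_comm (b c : V) (l : List V) :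
    TreeBall_sw H a R b c l = TreeBall_sw H a R c b l := by
  unfold TreeBall_sw
  by_cases h : H.Adj b c
  · have hne := h.ne
    rw [if_pos h, if_pos h.symm]
    by_cases h1 : TreeBall_hd a l = b
    · rw [if_pos h1, if_neg (by rw [h1]; exact hne), if_pos h1]
    · rw [if_neg h1]
      by_cases h2 : TreeBall_hd a l = c
      · rw [if_pos h2, if_pos h2]
      · rw [if_neg h2, if_neg h2, if_neg h1]
  · rw [if_neg h, if_neg (fun h' => h h'.symm)]

theorem TreeBall_sw_cases (b c : V) (l : List V) :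
    TreeBall_sw H a R b c l = l ∨ (H.Adj b c ∧ TreeBall_hd a l = b ∧
      TreeBall_sw H a R b c l = TreeBall_tn a R l c) ∨ (H.Adj b c ∧ TreeBall_hd a l = c ∧
      TreeBall_sw H a R b c l = TreeBall_tn a R l b) := by
  unfold TreeBall_sw
  by_cases h : H.Adj b c
  · rw [if_pos h]
    by_cases h1 : TreeBall_hd a l = b
    · rw [if_pos h1]
      exact Or.inr (Or.inl ⟨h, h1, rfl⟩)
    · rw [if_neg h1]
      by_cases h2 : TreeBall_hd a l = c
      · rw [if_pos h2]
        exact Or.inr (Or.inr ⟨h, h2, rfl⟩)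
      · rw [if_neg h2]
        exact Or.inl rfl
  · rw [if_neg h]
    exact Or.inl rfl

theorem TreeBall_sw_ok (b c : V) {l : List V} (hl : TreeBall_ok H a l) (hR : l.length ≤ R) :
    TreeBall_ok H a (TreeBall_sw H a R b c l) ∧ (TreeBall_sw H a R b c l).length ≤ R := by
  rcases TreeBall_sw_cases (H := H) (a := a) (R := R) b c l with h | ⟨h1, h2, h3⟩ | ⟨h1, h2, h3⟩
  · rw [h]; exact ⟨hl, hR⟩
  · rw [h3]
    exact TreeBall_tn_ok hl hR (by rw [h2]; exact h1)
  · rw [h3]
    exact TreeBall_tn_ok hl hR (by rw [h2]; exact h1.symm)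

theorem TreeBall_sw_ne (b c : V) {l : List V} (hl : TreeBall_ok H a l) (hR : l.length ≤ R)
    (hne : TreeBall_sw H a R b c l ≠ l) :
    ((TreeBall_hd a l = b ∧ TreeBall_hd a (TreeBall_sw H a R b c l) = c) ∨
      (TreeBall_hd a l = c ∧ TreeBall_hd a (TreeBall_sw H a R b c l) = b)) ∧
      TreeBall_sw H a R b c (TreeBall_sw H a R b c l) = l := by
  rcases TreeBall_sw_cases (H := H) (a := a) (R := R) b c l with h | ⟨h1, h2, h3⟩ | ⟨h1, h2, h3⟩
  · exact absurd h hne
  · rw [h3] at hne ⊢
    have hc : H.Adj (TreeBall_hd a l) c := by rw [h2]; exact h1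
    have h4 := TreeBall_tn_hd hl hR hc hne
    have h5 := TreeBall_tn_tn hl hR hc hne
    refine ⟨Or.inl ⟨h2, h4⟩, ?_⟩
    rw [TreeBall_sw_comm]
    have h6 : TreeBall_sw H a R c b (TreeBall_tn a R l c) = TreeBall_tn a R (TreeBall_tn a R l c) b := by
      unfold TreeBall_sw
      rw [if_pos h1.symm, if_pos h4]
    rw [h6, ← h2, h5]
  · rw [h3] at hne ⊢
    have hc : H.Adj (TreeBall_hd a l) b := by rw [h2]; exact h1.symm
    have h4 := TreeBall_tn_hd hl hR hc hne
    have h5 := TreeBall_tn_tn hl hR hc hne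
    refine ⟨Or.inr ⟨h2, h4⟩, ?_⟩
    have h6 : TreeBall_sw H a R b c (TreeBall_tn a R l b) = TreeBall_tn a R (TreeBall_tn a R l b) c := by
      unfold TreeBall_sw
      rw [if_pos h1, if_pos h4]
    rw [h6, ← h2, h5]

theorem TreeBall_two [Finite V] (h2 : ∀ v, 2 ≤ (H.neighborSet v).ncard) (v x : V) :
    ∃ c, H.Adj v c ∧ c ≠ x := by
  have h1 := h2 v
  by_contra hcon
  push Not at hcon
  have h3 : H.neighborSet v ⊆ {x} := fun c hc => hcon c hc
  have h4 := Set.ncard_le_ncard h3 (Set.finite_singleton x)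
  rw [Set.ncard_singleton] at h4
  omega

end TreeBallAux

theorem ball_exists {V : Type} [Finite V] {H : SimpleGraph V}
    (h2 : ∀ v, 2 ≤ (H.neighborSet v).ncard) (a : V) (R : ℕ) (hR : 1 ≤ R) :
    Nonempty (Ball H a R) := by
  have hfin : Finite {l : List V // TreeBall_ok H a l ∧ l.length ≤ R} := by
    have h1 : Finite {l : List V // l.length ≤ R} := (List.finite_length_le V R).to_subtype
    exact Finite.of_injective (fun x : {l : List V // TreeBall_ok H a l ∧ l.length ≤ R} =>
      (⟨x.1, x.2.2⟩ : {l : List V // l.length ≤ R})) (by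
        intro x y hxy
        simp only [Subtype.mk.injEq] at hxy
        exact Subtype.ext hxy)
  refine ⟨{ I := {l : List V // TreeBall_ok H a l ∧ l.length ≤ R}
            fin := hfin
            e := fun l => TreeBall_hd a l.1
            d := fun l => l.1.length
            root := ⟨[], trivial, Nat.zero_le _⟩
            sw := fun b c l => ⟨TreeBall_sw H a R b c l.1, TreeBall_sw_ok b c l.2.1 l.2.2⟩
            d_le := fun l => l.2.2
            e_root := rfl
            d_root := rfl
            sw_comm := fun b c l => Subtype.ext (TreeBall_sw_comm b c l.1)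
            sw_sw := ?_
            sw_e := ?_
            d_sw := ?_
            full := ?_
            eq_root := ?_
            up := ?_
            child := ?_
            leaf := ?_
            root_child := ?_ }⟩
  · rintro b c ⟨l, hl, hlR⟩ hbc
    apply Subtype.ext
    show TreeBall_sw H a R b c (TreeBall_sw H a R b c l) = l
    by_cases h : TreeBall_sw H a R b c l = l
    · rw [h, h]
    · exact (TreeBall_sw_ne b c hl hlR h).2
  · rintro b c ⟨l, hl, hlR⟩ hbc hne
    have h : TreeBall_sw H a R b c l ≠ l := fun h => hne (Subtype.ext h)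
    exact (TreeBall_sw_ne b c hl hlR h).1
  · rintro b c ⟨l, hl, hlR⟩ hbc
    show (TreeBall_sw H a R b c l).length ≤ l.length + 1
    rcases TreeBall_sw_cases (H := H) (a := a) (R := R) b c l with h | ⟨h1, h2, h3⟩ | ⟨h1, h2, h3⟩
    · rw [h]; omega
    · rw [h3]
      exact TreeBall_tn_len hl hlR (by rw [h2]; exact h1)
    · rw [h3]
      exact TreeBall_tn_len hl hlR (by rw [h2]; exact h1.symm)
  · rintro c ⟨l, hl, hlR⟩ hc hd hcon
    have h1 : TreeBall_sw H a R (TreeBall_hd a l) c l = l := congrArg Subtype.val hcon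
    rw [TreeBall_sw_self hc] at h1
    simp only at hd hc
    rcases TreeBall_tn_cases hl hlR hc with ⟨l', g1, g2, g3⟩ | ⟨g1, g2, g3⟩ | ⟨g1, g2, g3⟩
    · rw [g3] at h1
      have h4 := congrArg List.length g1
      rw [h1] at h4
      simp at h4
    · rw [g3] at h1
      have h4 := congrArg List.length h1
      simp at h4
    · omega
  · rintro ⟨l, hl, hlR⟩ hd
    apply Subtype.ext
    exact List.length_eq_zero_iff.mp hd
  · rintro c ⟨l, hl, hlR⟩ hc hd c' hc' hne
    simp only at hc hd hne
    have h0 : TreeBall_sw H a R (TreeBall_hd a l) c l = c :: l := by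
      rw [TreeBall_sw_self hc] at hd ⊢
      rcases TreeBall_tn_cases hl hlR hc with ⟨l', g1, g2, g3⟩ | ⟨g1, g2, g3⟩ | ⟨g1, g2, g3⟩
      · rw [g3] at hd
        have h4 := congrArg List.length g1
        simp only [List.length_cons] at h4
        omega
      · exact g3
      · rw [g3] at hd; omega
    have hok := TreeBall_sw_ok (TreeBall_hd a l) c hl hlR
    rw [h0] at hok
    have h1 : TreeBall_sw H a R c c' (c :: l) = TreeBall_tn a R (c :: l) c' :=
      TreeBall_sw_self (l := c :: l) hc'
    rcases TreeBall_tn_cases hok.1 hok.2 (c := c') hc' with ⟨l', g1, g2, g3⟩ | ⟨g1, g2, g3⟩ | ⟨g1, g2, g3⟩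
    · exfalso
      apply hne
      have h5 : l = l' := by
        have := congrArg List.tail g1
        exact this
      rw [g2, h5]
    · right
      show (TreeBall_sw H a R c c' (TreeBall_sw H a R (TreeBall_hd a l) c l)).length = l.length + 2
      rw [h0, h1, g3]
      simp
    · left
      apply Subtype.ext
      show TreeBall_sw H a R c c' (TreeBall_sw H a R (TreeBall_hd a l) c l) =
        TreeBall_sw H a R (TreeBall_hd a l) c l
      rw [h0, h1, g3]
  · rintro ⟨l, hl, hlR⟩ hd
    simp only at hd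
    obtain ⟨c, hc, hcx⟩ := TreeBall_two h2 (TreeBall_hd a l) (TreeBall_hd a l.tail)
    refine ⟨c, hc, ?_⟩
    show (TreeBall_sw H a R (TreeBall_hd a l) c l).length = l.length + 1
    rw [TreeBall_sw_self hc]
    rcases TreeBall_tn_cases hl hlR hc with ⟨l', g1, g2, g3⟩ | ⟨g1, g2, g3⟩ | ⟨g1, g2, g3⟩
    · exfalso
      apply hcx
      rw [g1, g2]
      rfl
    · rw [g3]; simp
    · omega
  · rintro ⟨l, hl, hlR⟩ hd
    simp only at hd
    obtain ⟨c, hc, hcx⟩ := TreeBall_two h2 (TreeBall_hd a l) (TreeBall_hd a l.tail)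
    refine ⟨c, hc, ?_⟩
    apply Subtype.ext
    show TreeBall_sw H a R (TreeBall_hd a l) c l = l
    rw [TreeBall_sw_self hc]
    rcases TreeBall_tn_cases hl hlR hc with ⟨l', g1, g2, g3⟩ | ⟨g1, g2, g3⟩ | ⟨g1, g2, g3⟩
    · exfalso
      apply hcx
      rw [g1, g2]
      rfl
    · omega
    · exact g3
  · intro c hc
    show (TreeBall_sw H a R a c []).length = 1
    have h1 : TreeBall_sw H a R a c [] = TreeBall_tn a R [] c := TreeBall_sw_self (l := []) hc
    rw [h1]
    unfold TreeBall_tn
    rw [if_neg (by simp), if_pos (by simp; omega)]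
    rfl

end Pool.Agent.LHA
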