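import Pool.Agent.LHA.Defs
import Pool.Agent.LHA.CovInv
import Pool.Agent.LHA.CovGraph
import Pool.Agent.LHA.TreeBall

/-!
# Inward forcing; all pins exist

Let `R0` be from `Outer`, `R = max R0 2`, `T` from `ball_exists`, `G = T.PG F`, `f` locally injective.
Claim: for all `k ≤ R` and all `l` with `d l = k`: `f (e l, l) = e l`. Downward induction on `k`
(strong: it is known for all larger depths `≤ R`). For `k = R`: `dep (e l, l) = d l = R`: `Outer`.
Let `k < R`. Choose a child direction `c`: if `l ≠ root` from `child`; if `l = root` choose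
`c ∈ H.neighborSet a \ F` (nonempty as `F ⊂ N(a)`), `d (sw a c root) = 1` (`root_child`). Let `b = e l`,
`l' = sw b c l`, `d l' = k + 1`; `plain b c l` (`l' ≠ l`), `e l' = c` (`plain_e`), `u' = (c, l')`. By induction
`f u' = c`. `nb (b, l) c = u'` and `nb u' b = (b, l)`. The edge between `(b, l)` and `u'` is in `G`: not cut,
since `cut` needs `(b, l) = ro` and `p u' = c ∈ F` (excluded) or `u' = ro` (then `d l' = 0`).
For every `c' ∼ c`, `c' ≠ b`: `v' = nb u' c'` satisfies `G.Adj u' v'` and `f v' = c'`: the edge is not cut (`u' ≠ ro`;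
`v' = ro` means `u' = nb ro c`, `v' = (c', sw c c' l')` plain with `sw c c' l' = root` of depth 0, but by `up` its depth is
`k + 2` or `sw c c' l' = l'`). Value: if `plain c c' l'` then `v' = (c', l'')`, `l'' = sw c c' l' ≠ l'`, so by `up`
`d l'' = k + 2`, `e l'' = c'` and the induction hypothesis gives `f v' = c'`. If not plain:
`v' = (c, c', l', c')`, `good c c' l'`, `dep v' = R`: `Outer` gives `f v' = p v' = c'`.
Now `f (b, l) ∼ f u' = c`, and by local injectivity at `u'` `f (b, l) ≠ c'` for all `c' ∼ c`, `c' ≠ b`. So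
`f (b, l) = b`. This proves the claim.
Hence `f ro = a`. The neighbours of `ro` in `G` are exactly `(c, sw a c root)`, `c ∼ a`, `c ∉ F` (`ro_nb`; cut
iff `c ∈ F`), and their values are `c` (claim, `e (sw a c root) = c`): `f '' G.neighborSet ro = N(a) \ F`.
`T.p` is locally injective (`dp.li`). Transport `G` to `Fin n` by an equivalence `T.W ≃ Fin n`
(`W_finite`, `Finite.exists_equiv_fin`; `SimpleGraph.comap`): `Pin H a F`.
-/

namespace Pool.Agent.LHA

open Pool.Agent.LIH

theorem Inward_claim {V : Type} {H : SimpleGraph V} {a : V} {R : ℕ} (T : Ball H a R)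
    (F : Set V) (hF : F ⊂ H.neighborSet a) (f : T.W → V) (hf : LocInj (T.PG F) H f)
    (ho : ∀ u, T.dep u = R → f u = T.p u) :
    ∀ m : ℕ, ∀ l : T.I, R ≤ T.d l + m → f (.inl (T.e l, l)) = T.e l := by
  classical
  intro m
  induction m with
  | zero =>
    intro l hl
    have h1 : T.dep (.inl (T.e l, l)) = R := by
      have h2 := T.d_le l
      simp only [Ball.dep, if_true]
      omega
    rw [ho _ h1]
    rfl
  | succ m ih =>
    intro l hl
    by_cases hl2 : R ≤ T.d l + m
    · exact ih l hl2
    · have hdR : T.d l < R := by omega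
      -- the child direction
      obtain ⟨c, hc, hdc, hcF⟩ : ∃ c, H.Adj (T.e l) c ∧ T.d (T.sw (T.e l) c l) = T.d l + 1 ∧
          (l = T.root → c ∉ F) := by
        by_cases hr : l = T.root
        · obtain ⟨c, hc1, hc2⟩ := Set.exists_of_ssubset hF
          refine ⟨c, ?_, ?_, fun _ => hc2⟩
          · rw [hr, T.e_root]
            exact hc1
          · rw [hr, T.e_root, T.d_root, T.root_child c hc1]
        · obtain ⟨c, hc1, hc2⟩ := T.child l hdR
          exact ⟨c, hc1, hc2, fun h => absurd h hr⟩
      have hne : T.sw (T.e l) c l ≠ l := by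
        intro h
        rw [h] at hdc
        omega
      have hpl : T.plain (T.e l) c l := ⟨rfl, hne⟩
      have hel' : T.e (T.sw (T.e l) c l) = c := T.plain_e hc hpl
      have hfu : f (.inl (c, T.sw (T.e l) c l)) = c := by
        have h1 := ih (T.sw (T.e l) c l) (by omega)
        rw [hel'] at h1
        exact h1
      have hnb1 : T.nb (.inl (T.e l, l)) c = .inl (c, T.sw (T.e l) c l) := by
        simp only [Ball.nb, hpl, if_true]
      have hune : (.inl (c, T.sw (T.e l) c l) : T.W) ≠ T.ro := by
        intro h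
        have h1 : T.sw (T.e l) c l = T.root := by
          have := Sum.inl.inj h
          exact (Prod.mk.inj this).2
        rw [h1, T.d_root] at hdc
        omega
      have hadj : (T.PG F).Adj (.inl (T.e l, l)) (.inl (c, T.sw (T.e l) c l)) := by
        rw [T.PG_adj]
        refine ⟨⟨hc, hnb1⟩, ?_⟩
        rintro (⟨h1, h2⟩ | ⟨h1, _⟩)
        · have h3 : l = T.root := (Prod.mk.inj (Sum.inl.inj h1)).2
          exact hcF h3 h2
        · exact hune h1
      -- the other neighbours
      have key : ∀ c', H.Adj c c' → c' ≠ T.e l →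
          (T.PG F).Adj (.inl (c, T.sw (T.e l) c l)) (T.nb (.inl (c, T.sw (T.e l) c l)) c') ∧
          f (T.nb (.inl (c, T.sw (T.e l) c l)) c') = c' := by
        intro c' hcc' hc'
        have hup := T.up c l hc hdc c' hcc' hc'
        have hp1 : T.p (T.nb (.inl (c, T.sw (T.e l) c l)) c') = c' :=
          T.nb_p (.inl (c, T.sw (T.e l) c l)) c' hcc'
        have hval : (T.nb (.inl (c, T.sw (T.e l) c l)) c' ≠ T.ro) ∧
            f (T.nb (.inl (c, T.sw (T.e l) c l)) c') = c' := by
          by_cases hp : T.plain c c' (T.sw (T.e l) c l)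
          · have hn : T.nb (.inl (c, T.sw (T.e l) c l)) c' =
                .inl (c', T.sw c c' (T.sw (T.e l) c l)) := by
              simp only [Ball.nb, hp, if_true]
            have hd2 : T.d (T.sw c c' (T.sw (T.e l) c l)) = T.d l + 2 := by
              rcases hup with h1 | h1
              · exact absurd h1 hp.2
              · exact h1
            rw [hn]
            constructor
            · intro h
              have h1 : T.sw c c' (T.sw (T.e l) c l) = T.root :=
                (Prod.mk.inj (Sum.inl.inj h)).2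
              rw [h1, T.d_root] at hd2
              omega
            · have h1 := ih (T.sw c c' (T.sw (T.e l) c l)) (by omega)
              rw [T.plain_e hcc' hp] at h1
              exact h1
          · have hn : T.nb (.inl (c, T.sw (T.e l) c l)) c' =
                .inr (c, c', T.sw (T.e l) c l, c') := by
              simp only [Ball.nb, hp, if_false]
            rw [hn]
            constructor
            · intro h
              cases h
            · have hg : T.good c c' (T.sw (T.e l) c l) := ⟨hcc', hp⟩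
              have h1 : T.dep (.inr (c, c', T.sw (T.e l) c l, c')) = R := by
                simp only [Ball.dep, hg, if_true]
              rw [ho _ h1]
              rfl
        refine ⟨?_, hval.2⟩
        rw [T.PG_adj]
        refine ⟨⟨?_, ?_⟩, ?_⟩
        · rw [hp1]
          exact hcc'
        · rw [hp1]
        · rintro (⟨h1, _⟩ | ⟨h1, _⟩)
          · exact hune h1
          · exact hval.1 h1
      have hy := hf.1 _ _ hadj
      rw [hfu] at hy
      by_contra hyb
      obtain ⟨k1, k2⟩ := key _ hy.symm hyb
      have h3 := hf.2 (.inl (c, T.sw (T.e l) c l)) hadj.symm k1 k2.symm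
      have h4 : T.e l = T.p (T.nb (.inl (c, T.sw (T.e l) c l)) (f (.inl (T.e l, l)))) := by
        rw [← h3]
        rfl
      rw [T.nb_p (.inl (c, T.sw (T.e l) c l)) _ hy.symm] at h4
      exact hyb h4.symm

theorem ball_pin {V : Type} [Finite V] {H : SimpleGraph V} {a : V} {R : ℕ} (T : Ball H a R)
    (hR : 2 ≤ R) (F : Set V) (hF : F ⊂ H.neighborSet a) (f : T.W → V) (hf : LocInj (T.PG F) H f)
    (ho : ∀ u, T.dep u = R → f u = T.p u) :
    f T.ro = a ∧ f '' (T.PG F).neighborSet T.ro = H.neighborSet a \ F := by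
  have claim : ∀ l, f (.inl (T.e l, l)) = T.e l := fun l =>
    Inward_claim T F hF f hf ho R l (Nat.le_add_left _ _)
  have hval : ∀ c, H.Adj a c → f (.inl (c, T.sw a c T.root)) = c := by
    intro c hc
    have h1 := T.root_child c hc
    have hpl : T.plain a c T.root := by
      refine ⟨T.e_root, fun h => ?_⟩
      rw [h, T.d_root] at h1
      omega
    have h2 := claim (T.sw a c T.root)
    rw [T.plain_e hc hpl] at h2
    exact h2
  constructor
  · have h1 := claim T.root
    rw [T.e_root] at h1
    exact h1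
  · ext c
    constructor
    · rintro ⟨v, hv, rfl⟩
      have hv' : (T.PG F).Adj T.ro v := hv
      rw [T.PG_adj] at hv'
      obtain ⟨⟨h1, h2⟩, h3⟩ := hv'
      have h1' : H.Adj a (T.p v) := h1
      rw [T.ro_nb _ h1'] at h2
      have h4 := hval _ h1'
      rw [h2] at h4
      rw [h4]
      exact ⟨h1', fun h5 => h3 (Or.inl ⟨rfl, h5⟩)⟩
    · rintro ⟨h1, h2⟩
      have h1' : H.Adj a c := h1
      refine ⟨.inl (c, T.sw a c T.root), ?_, hval c h1'⟩
      show (T.PG F).Adj T.ro _
      rw [T.PG_adj]
      refine ⟨⟨h1', T.ro_nb c h1'⟩, ?_⟩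
      rintro (⟨_, h4⟩ | ⟨h3, _⟩)
      · exact h2 h4
      · have h5 : T.sw a c T.root = T.root := (Prod.mk.inj (Sum.inl.inj h3)).2
        have h6 := T.root_child c h1'
        rw [h5, T.d_root] at h6
        omega

theorem pins_of_outer {V : Type} [Finite V] {H : SimpleGraph V}
    (h2 : ∀ v, 2 ≤ (H.neighborSet v).ncard) (ho : Outer H) : Pins H := by
  intro a F hF
  obtain ⟨R0, hR0⟩ := ho
  obtain ⟨T⟩ := ball_exists h2 a (max R0 2) (by omega)
  haveI : Finite T.W := T.W_finite
  obtain ⟨n, ⟨φ⟩⟩ := Finite.exists_equiv_fin T.W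
  refine ⟨n, (T.PG F).comap φ.symm, φ T.ro, ⟨fun i => T.p (φ.symm i), ?_⟩, ?_⟩
  · have hd := (T.dp (le_max_right R0 2) F).li
    refine ⟨fun u v huv => hd.1 _ _ huv, fun v x hx y hy hxy => ?_⟩
    exact φ.symm.injective (hd.2 (φ.symm v) hx hy hxy)
  · intro f hf
    have hg : LocInj (T.PG F) H (fun w => f (φ w)) := by
      refine ⟨fun u v huv => hf.1 _ _ ?_, fun v x hx y hy hxy => ?_⟩
      · show (T.PG F).Adj (φ.symm (φ u)) (φ.symm (φ v))
        simpa using huv
      · refine φ.injective (hf.2 (φ v) ?_ ?_ hxy)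
        · show (T.PG F).Adj (φ.symm (φ v)) (φ.symm (φ x))
          simpa using hx
        · show (T.PG F).Adj (φ.symm (φ v)) (φ.symm (φ y))
          simpa using hy
    obtain ⟨h1, h3⟩ := ball_pin T (le_max_right R0 2) F hF _ hg
      (hR0 a (max R0 2) T F (le_max_left R0 2) hF _ hg)
    refine ⟨h1, ?_⟩
    rw [← h3]
    ext c
    constructor
    · rintro ⟨i, hi, rfl⟩
      refine ⟨φ.symm i, ?_, by simp⟩
      have hi' : (T.PG F).Adj (φ.symm (φ T.ro)) (φ.symm i) := hi
      show (T.PG F).Adj T.ro (φ.symm i)
      simpa using hi'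
    · rintro ⟨w, hw, rfl⟩
      refine ⟨φ w, ?_, rfl⟩
      show (T.PG F).Adj (φ.symm (φ T.ro)) (φ.symm (φ w))
      simpa using hw

end Pool.Agent.LHA
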