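import Pool.Agent.LHA.Defs
import Pool.Agent.LHA.Nb1

/-!
# Eventually all darts of the right parity are reached

Fix a dart `(x, y)`. `D m = {(a, b) | Rch H m x y a b}` is a finite set of darts, `Vm m = {b | ∃ a, (a, b) ∈ D m}`.
`D (m + 1) = {(a, b) | a ∈ Vm m, a ∼ b, ∃ z, (z, a) ∈ D m, z ≠ b}`. For `a ∈ Vm m` let `I a = {z | (z, a) ∈ D m}`,
a nonempty subset of `N(a)`. If `|I a| ≥ 2` then all `(a, b)`, `b ∼ a`, are in `D (m+1)`; if `I a = {z}` then those with
`b ≠ z`: `deg a - 1 ≥ 2` of them. So in both cases the number of `b` is `≥ |I a|`, with equality only if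
`I a = N(a)` (in the second case `deg a - 1 ≥ 2 > 1`). Summing over `a`: `|D m| ≤ |D (m+1)|`, equality only if
`I a = N(a)` for all `a ∈ Vm m`, i.e. `D m` is the set of all darts `(z, a)` with `a ∈ Vm m`.
As `|D m| ≤ |V|^2`, there is `M0` with `|D m| = |D (m+1)|` for all `m ≥ M0` (a bounded monotone sequence of natural
numbers is eventually constant). For `m ≥ M0`: `D m` = all darts with head in `Vm m`; `D (m+1)` = all darts with
tail in `Vm m` and also all darts with head in `Vm (m+1)`; so `Vm (m+1) = N(Vm m)` and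
all neighbours of a vertex of `Vm (m+1)` are in `Vm m`.
By induction on the length of walks: for `m ≥ M0`, if `b ∈ Vm m` and there is a walk of length `k` from `b` to `b'` then
`b' ∈ Vm (m + k)`, and if `m ≥ M0 + k` also `b' ∈ Vm (m - k)`; so `Vm (m + 2) ⊂ Vm m` hence
(also `Vm m ⊂ Vm (m+2)`) `Vm (m + 2) = Vm m` for `m ≥ M0`, and for `m ≥ M0`: `b ∈ Vm m`, walk `b → b'` of even length ⟹
`b' ∈ Vm m`.
Claim for `m ≥ M0`: `b ∈ Vm m ↔ PWalk H m y b`. (→) `Rch H m x y a b` gives a walk of length `m` from `y` to `b`.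
(←) `D m ≠ ∅` (`rch_succ`): let `b0 ∈ Vm m`, so there is a walk `y → b0` of length `m`; with the walk
`y → b` of length `≡ m` we get a walk `b0 → b` of even length. (`Walk.reverse`, `Walk.append`.)
Then for a dart `(a, b)`: `Rch H m x y a b ↔ b ∈ Vm m ↔ PWalk H m y b`. Take the maximum of the `M0` over the finitely
many darts.
-/

namespace Pool.Agent.LHA

open Pool.Agent.LIH

section Nb2aux

variable {V : Type} {H : SimpleGraph V}

theorem Nb2_walk {m : ℕ} {x y a b : V} (h : H.Adj x y) (hr : Rch H m x y a b) :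
    ∃ w : H.Walk y b, w.length = m := by
  induction m generalizing a b with
  | zero =>
    obtain ⟨rfl, rfl⟩ := hr
    exact ⟨SimpleGraph.Walk.nil, rfl⟩
  | succ m ih =>
    obtain ⟨z, h1, h2, -⟩ := hr
    obtain ⟨w, hw⟩ := ih h1
    exact ⟨w.concat h2, by rw [SimpleGraph.Walk.length_concat, hw]⟩

open Classical in
/-- number of darts reached in `m` steps -/
noncomputable def Nb2_S [Fintype V] (H : SimpleGraph V) (x y : V) (m : ℕ) : ℕ :=
  ∑ a : V, (Finset.univ.filter (fun z => Rch H m x y z a)).card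

open Classical in
theorem Nb2_S' [Fintype V] (H : SimpleGraph V) (x y : V) (m : ℕ) :
    Nb2_S H x y m = ∑ a : V, (Finset.univ.filter (fun b => Rch H m x y a b)).card := by
  unfold Nb2_S
  simp only [Finset.card_filter]
  rw [Finset.sum_comm]

open Classical in
theorem Nb2_loc [Fintype V] (h3 : ∀ v, 3 ≤ (H.neighborSet v).ncard) {x y : V}
    (hxy : H.Adj x y) (m : ℕ) (a : V) :
    (Finset.univ.filter (fun z => Rch H m x y z a)).card ≤
      (Finset.univ.filter (fun b => Rch H (m + 1) x y a b)).card ∧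
    ((Finset.univ.filter (fun z => Rch H m x y z a)).card =
      (Finset.univ.filter (fun b => Rch H (m + 1) x y a b)).card →
      (∀ z, ¬ Rch H m x y z a) ∨ (∀ z, H.Adj z a → Rch H m x y z a)) := by
  set I := Finset.univ.filter (fun z => Rch H m x y z a) with hI
  set O := Finset.univ.filter (fun b => Rch H (m + 1) x y a b) with hO
  set Nn := Finset.univ.filter (fun b => H.Adj a b) with hN
  have hNc : 3 ≤ Nn.card := by
    have := h3 a
    rw [Set.ncard_eq_toFinset_card'] at this
    refine this.trans (Finset.card_le_card ?_)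
    intro b hb
    simpa [hN] using hb
  have hIN : I ⊆ Nn := by
    intro z hz
    simp only [hI, hN, Finset.mem_filter, Finset.mem_univ, true_and] at hz ⊢
    exact (rch_adj hxy hz).symm
  have hOmem : ∀ b, b ∈ O ↔ ∃ z ∈ I, H.Adj a b ∧ b ≠ z := by
    intro b
    simp only [hO, hI, Finset.mem_filter, Finset.mem_univ, true_and]
    rfl
  rcases Nat.lt_trichotomy I.card 1 with hc | hc | hc
  · have h0 : I = ∅ := by
      rw [← Finset.card_eq_zero]
      omega
    refine ⟨by rw [h0]; simp, fun _ => Or.inl fun z hz => ?_⟩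
    have : z ∈ I := by simp [hI, hz]
    rw [h0] at this
    simp at this
  · obtain ⟨z, hz⟩ := Finset.card_eq_one.1 hc
    have h1 : Nn.erase z ⊆ O := by
      intro b hb
      rw [Finset.mem_erase] at hb
      rw [hOmem]
      refine ⟨z, by rw [hz]; simp, ?_, hb.1⟩
      simpa [hN] using hb.2
    have h2 := Finset.card_le_card h1
    have h4 := Finset.pred_card_le_card_erase (s := Nn) (a := z)
    constructor
    · omega
    · intro h
      omega
  · have h1 : Nn ⊆ O := by
      intro b hb
      rw [hOmem]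
      obtain ⟨z, hz, hne⟩ := Finset.exists_mem_ne hc b
      exact ⟨z, hz, by simpa [hN] using hb, hne.symm⟩
    have h2 := Finset.card_le_card h1
    have h4 := Finset.card_le_card hIN
    constructor
    · omega
    · intro h
      right
      intro z hz
      have h5 : I = Nn := Finset.eq_of_subset_of_card_le hIN (by omega)
      have h6 : z ∈ I := by
        rw [h5]
        simp [hN, hz.symm]
      simpa [hI] using h6

theorem Nb2_mono [Fintype V] (h3 : ∀ v, 3 ≤ (H.neighborSet v).ncard) {x y : V}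
    (hxy : H.Adj x y) (m : ℕ) : Nb2_S H x y m ≤ Nb2_S H x y (m + 1) := by
  classical
  rw [Nb2_S' H x y (m + 1)]
  exact Finset.sum_le_sum fun a _ => (Nb2_loc h3 hxy m a).1

theorem Nb2_eq [Fintype V] (h3 : ∀ v, 3 ≤ (H.neighborSet v).ncard) {x y : V}
    (hxy : H.Adj x y) (m : ℕ) (h : Nb2_S H x y m = Nb2_S H x y (m + 1)) (a : V) :
    (∀ z, ¬ Rch H m x y z a) ∨ (∀ z, H.Adj z a → Rch H m x y z a) := by
  classical
  rw [Nb2_S' H x y (m + 1)] at h
  have := (Finset.sum_eq_sum_iff_of_le fun a _ => (Nb2_loc h3 hxy m a).1).1 h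
  exact (Nb2_loc h3 hxy m a).2 (this a (Finset.mem_univ a))

theorem Nb2_bd [Fintype V] (x y : V) (m : ℕ) :
    Nb2_S H x y m ≤ Fintype.card V * Fintype.card V := by
  classical
  unfold Nb2_S
  calc _ ≤ ∑ a : V, Fintype.card V := Finset.sum_le_sum fun a _ => Finset.card_le_univ _
    _ = _ := by simp

theorem Nb2_const [Fintype V] (h3 : ∀ v, 3 ≤ (H.neighborSet v).ncard) {x y : V}
    (hxy : H.Adj x y) : ∃ M, ∀ m, M ≤ m → Nb2_S H x y m = Nb2_S H x y (m + 1) := by
  have hmono : Monotone (Nb2_S H x y) := monotone_nat_of_le_succ (Nb2_mono h3 hxy)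
  have h1 : ∃ M, ∀ m, Nb2_S H x y m ≤ Nb2_S H x y M := by
    by_contra hcon
    push Not at hcon
    have : ∀ k : ℕ, ∃ m, k ≤ Nb2_S H x y m := by
      intro k
      induction k with
      | zero => exact ⟨0, Nat.zero_le _⟩
      | succ k ih =>
        obtain ⟨m, hm⟩ := ih
        obtain ⟨m', hm'⟩ := hcon m
        exact ⟨m', by omega⟩
    obtain ⟨m, hm⟩ := this (Fintype.card V * Fintype.card V + 1)
    have := Nb2_bd (H := H) x y m
    omega
  obtain ⟨M, hM⟩ := h1
  refine ⟨M, fun m hm => ?_⟩
  have h2 := hmono hm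
  have h4 := hM (m + 1)
  have h5 := Nb2_mono h3 hxy m
  omega

theorem Nb2_dart [Finite V] (h3 : ∀ v, 3 ≤ (H.neighborSet v).ncard) {x y : V}
    (hxy : H.Adj x y) : ∃ M : ℕ, ∀ m, M ≤ m → ∀ a b,
      H.Adj a b → (Rch H m x y a b ↔ PWalk H m y b) := by
  classical
  have := Fintype.ofFinite V
  obtain ⟨M, hM⟩ := Nb2_const h3 hxy
  refine ⟨M, fun m hm a b hab => ⟨fun hr => ?_, fun hp => ?_⟩⟩
  · obtain ⟨w, hw⟩ := Nb2_walk hxy hr
    exact ⟨w, by rw [hw]⟩
  · have hE : ∀ m, M ≤ m → ∀ a, (∀ z, ¬ Rch H m x y z a) ∨ (∀ z, H.Adj z a → Rch H m x y z a) :=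
      fun m hm a => Nb2_eq h3 hxy m (hM m hm) a
    have hall : ∀ m, M ≤ m → ∀ b, (∃ z, Rch H m x y z b) → ∀ z, H.Adj z b → Rch H m x y z b := by
      intro m hm b hb z hz
      rcases hE m hm b with h | h
      · obtain ⟨z', hz'⟩ := hb
        exact absurd hz' (h z')
      · exact h z hz
    have f1 : ∀ m, M ≤ m → ∀ b b', (∃ z, Rch H m x y z b) → H.Adj b b' →
        ∃ z, Rch H (m + 1) x y z b' := by
      intro m hm b b' hb hbb
      have : ∃ z ∈ H.neighborSet b, z ≠ b' := by
        by_contra hcon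
        push Not at hcon
        have hsub : H.neighborSet b ⊆ {b'} := fun z hz => hcon z hz
        have := Set.ncard_le_ncard hsub
        rw [Set.ncard_singleton] at this
        have := h3 b
        omega
      obtain ⟨z, hz, hne⟩ := this
      exact ⟨b, z, hall m hm b hb z (SimpleGraph.Adj.symm (show H.Adj b z from hz)), hbb,
        fun e => hne e.symm⟩
    have f2 : ∀ m, M ≤ m → ∀ b b', (∃ z, Rch H (m + 1) x y z b) → H.Adj b b' →
        ∃ z, Rch H m x y z b' := by
      intro m hm b b' hb hbb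
      have := hall (m + 1) (by omega) b hb b' hbb.symm
      obtain ⟨z, hz, -, -⟩ := this
      exact ⟨z, hz⟩
    have walk : ∀ m, M ≤ m → ∀ (b b' : V) (w : H.Walk b b'),
        ((∃ z, Rch H m x y z b) → if w.length % 2 = 0 then (∃ z, Rch H m x y z b')
          else ∃ z, Rch H (m + 1) x y z b') ∧
        ((∃ z, Rch H (m + 1) x y z b) → if w.length % 2 = 0 then (∃ z, Rch H (m + 1) x y z b')
          else ∃ z, Rch H m x y z b') := by
      intro m hm b b' w
      induction w with
      | nil => simp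
      | @cons u v w' h p ih =>
        have e : (SimpleGraph.Walk.cons h p).length = p.length + 1 := rfl
        rw [e]
        constructor
        · intro hb
          have := ih.2 (f1 m hm _ _ hb h)
          rcases Nat.mod_two_eq_zero_or_one p.length with hp | hp
          · rw [if_pos hp] at this
            rw [if_neg (by omega)]
            exact this
          · rw [if_neg (by omega)] at this
            rw [if_pos (by omega)]
            exact this
        · intro hb
          have := ih.1 (f2 m hm _ _ hb h)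
          rcases Nat.mod_two_eq_zero_or_one p.length with hp | hp
          · rw [if_pos hp] at this
            rw [if_neg (by omega)]
            exact this
          · rw [if_neg (by omega)] at this
            rw [if_pos (by omega)]
            exact this
    obtain ⟨a0, b0, h0⟩ := rch_succ (fun v => le_trans (by norm_num) (h3 v)) m hxy
    obtain ⟨w0, hw0⟩ := Nb2_walk hxy h0
    obtain ⟨w, hw⟩ := hp
    have h1 := (walk m hm b0 b (w0.reverse.append w)).1 ⟨a0, h0⟩
    rw [SimpleGraph.Walk.length_append, SimpleGraph.Walk.length_reverse, hw0,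
      if_pos (by omega)] at h1
    exact hall m hm b h1 a hab

end Nb2aux

theorem nb_all {V : Type} [Finite V] {H : SimpleGraph V}
    (h3 : ∀ v, 3 ≤ (H.neighborSet v).ncard) : ∃ M : ℕ, ∀ m, M ≤ m → ∀ x y a b, H.Adj x y →
      H.Adj a b → (Rch H m x y a b ↔ PWalk H m y b) := by
  classical
  have := Fintype.ofFinite V
  have h1 : ∀ e : V × V, ∃ M : ℕ, ∀ m, M ≤ m → H.Adj e.1 e.2 → ∀ a b,
      H.Adj a b → (Rch H m e.1 e.2 a b ↔ PWalk H m e.2 b) := by
    intro e
    by_cases he : H.Adj e.1 e.2
    · obtain ⟨M, hM⟩ := Nb2_dart h3 he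
      exact ⟨M, fun m hm _ => hM m hm⟩
    · exact ⟨0, fun _ _ h => absurd h he⟩
  choose f hf using h1
  refine ⟨Finset.univ.sup f, fun m hm x y a b hxy hab => ?_⟩
  exact hf (x, y) m (le_trans (Finset.le_sup (f := f) (Finset.mem_univ (x, y))) hm) hxy a b hab

end Pool.Agent.LHA
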