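import Pool.Agent.LHA.Defs
import Pool.Agent.LHA.Nb1
import Pool.Agent.LHA.Nb2

/-!
# The clause gadget

Let `X` be a vertex of maximal degree (`≥ 4`), `Δ = deg X`. For a dart `e = (x, y)` let
`A j e = {Y | Rch H j x y Y X}` (contained in `N(X)` for `j` arbitrary, by `rch_adj`). `|A 0 e| ≤ 1`.
`rch_front`: `A (j+1) (x, y) = ⋃_{z ∼ y, z ≠ x} A j (y, z)`.
(1) Some `A j e` has at least 2 elements: take `M` from `nb_all`, a dart `(x, y)` with `y ∼ X`... e.g. any dart
`(X, y)` and `m ≥ M` odd: `PWalk H m y X`, so `A m (X, y) = N(X)` (take `a ∈ N(X)`, `b = X` in `nb_all`).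
(2) Let `j` be minimal such that some `A j e` has at least 2 elements; `j ≥ 1`; `e = (x, y)`, `S = A j e`. By minimality and
`A j (x, y) = ⋃ A (j-1) (y, z)`: `|S| ≤ deg y - 1 ≤ Δ - 1`, so `S ≠ N(X)`.
(3) Suppose the theorem is false. Then for all `i` and all `v, w, w'` with `v ∼ w`, `v ∼ w'`, `|A i (v, w)| ≥ 2`:
`A i (v, w') ⊆ A i (v, w)` (if `w ≠ w'` and there were `Y0 ∈ A i (v, w') \ A i (v, w)`, take two different elements
`Y1, Y2` of `A i (v, w)`; `i > 0` because `|A 0| ≤ 1`).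
Claim: for all `i` and all darts `(x', y')` with `Rch H i x' y' x y`: `A (j + i) (x', y') = S`. Induction on `i`
(`rch_front`): for `i + 1` let `z ∼ y'`, `z ≠ x'`, `Rch H i y' z x y`, so `A (j + i) (y', z) = S`, which has at least 2 elements, so
by (3) (with `v = y'`) all `A (j+i) (y', z')`, `z' ∼ y'`, are contained in `S`, and
`A (j+i+1) (x', y') = ⋃_{z' ≠ x'} A (j+i) (y', z') = S`.
(4) Let `i ≥ M`, and `(x', y')` a dart with `Rch H i x' y' x y` (`rch_pred`). Then `A (j+i) (x', y') = S ≠ ∅`, say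
`Y ∈ S`: `Rch H (j+i) x' y' Y X`, so `PWalk H (j+i) y' X` and by `nb_all` all `Y' ∈ N(X)` are in
`A (j+i) (x', y') = S`. Contradiction to (2).
-/

namespace Pool.Agent.LHA

open Pool.Agent.LIH

/-- the vertices from which one can arrive at `X` after `j` steps -/
def gxA {V : Type} (H : SimpleGraph V) (X : V) (j : ℕ) (x y : V) : Set V := {Y | Rch H j x y Y X}

theorem gxA_sub {V : Type} {H : SimpleGraph V} {X : V} {j : ℕ} {x y : V} (h : H.Adj x y) :
    gxA H X j x y ⊆ H.neighborSet X := by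
  intro Y hY
  exact (rch_adj h hY).symm

theorem gxA_zero {V : Type} {H : SimpleGraph V} {X : V} {x y : V} :
    ¬ (gxA H X 0 x y).Nontrivial := by
  rintro ⟨a, ha, b, hb, hab⟩
  exact hab (ha.1.trans hb.1.symm)

theorem gxA_succ {V : Type} {H : SimpleGraph V} {X : V} {j : ℕ} {x y : V} (h : H.Adj x y) (Y : V) :
    Y ∈ gxA H X (j + 1) x y ↔ ∃ z, H.Adj y z ∧ z ≠ x ∧ Y ∈ gxA H X j y z := rch_front h

theorem gx {V : Type} [Finite V] {H : SimpleGraph V}
    (h3 : ∀ v, 3 ≤ (H.neighborSet v).ncard) (h4 : ∃ v, 4 ≤ (H.neighborSet v).ncard) :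
    ∃ (j : ℕ) (X v w w' Y0 Y1 Y2 : V), 0 < j ∧ H.Adj v w ∧ H.Adj v w' ∧ w ≠ w' ∧
      4 ≤ (H.neighborSet X).ncard ∧ Y1 ≠ Y2 ∧ Rch H j v w Y1 X ∧ Rch H j v w Y2 X ∧
      ¬ Rch H j v w Y0 X ∧ Rch H j v w' Y0 X := by
  classical
  by_contra hcon
  obtain ⟨v4, hv4⟩ := h4
  have : Nonempty V := ⟨v4⟩
  obtain ⟨X, hX⟩ := Finite.exists_max (fun v => (H.neighborSet v).ncard)
  have hX4 : 4 ≤ (H.neighborSet X).ncard := le_trans hv4 (hX v4)
  obtain ⟨M, hM⟩ := nb_all h3
  have h2 : ∀ v, 2 ≤ (H.neighborSet v).ncard := fun v => le_trans (by norm_num) (h3 v)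
  -- (3)
  have key : ∀ (i : ℕ) (v w w' : V), H.Adj v w → H.Adj v w' → (gxA H X i v w).Nontrivial →
      gxA H X i v w' ⊆ gxA H X i v w := by
    intro i v w w' hw hw' hnt Y0 hY0
    by_contra hn
    obtain ⟨Y1, hY1, Y2, hY2, hne⟩ := hnt
    apply hcon
    refine ⟨i, X, v, w, w', Y0, Y1, Y2, ?_, hw, hw', ?_, hX4, hne, hY1, hY2, hn, hY0⟩
    · rcases Nat.eq_zero_or_pos i with h0 | h0
      · subst h0
        exact absurd ⟨Y1, hY1, Y2, hY2, hne⟩ gxA_zero
      · exact h0
    · rintro rfl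
      exact hn hY0
  -- (1)
  have hex : ∃ j : ℕ, ∃ x y, H.Adj x y ∧ (gxA H X j x y).Nontrivial := by
    have hne : (H.neighborSet X).Nonempty := by
      rw [← Set.ncard_pos (Set.toFinite _)]
      omega
    obtain ⟨y, hy⟩ := hne
    have hy' : H.Adj X y := hy
    refine ⟨2 * M + 1, X, y, hy', ?_⟩
    have hsub : H.neighborSet X ⊆ gxA H X (2 * M + 1) X y := by
      intro a ha
      have ha' : H.Adj a X := (show H.Adj X a from ha).symm
      refine (hM (2 * M + 1) (by omega) X y a X hy' ha').2 ?_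
      refine ⟨SimpleGraph.Walk.cons hy'.symm SimpleGraph.Walk.nil, ?_⟩
      simp only [SimpleGraph.Walk.length_cons, SimpleGraph.Walk.length_nil]
      omega
    have hnt : (H.neighborSet X).Nontrivial := by
      rw [← Set.one_lt_ncard_iff_nontrivial]
      omega
    exact hnt.mono hsub
  -- (2)
  obtain ⟨x, y, hxy, hnt⟩ := Nat.find_spec hex
  have hmin : ∀ i, i < Nat.find hex → ∀ x y, H.Adj x y → ¬ (gxA H X i x y).Nontrivial := by
    intro i hi x y h hn
    exact Nat.find_min hex hi ⟨x, y, h, hn⟩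
  generalize Nat.find hex = j at hnt hmin
  obtain ⟨j', rfl⟩ : ∃ j', j = j' + 1 := by
    rcases Nat.eq_zero_or_pos j with h0 | h0
    · subst h0
      exact absurd hnt gxA_zero
    · exact ⟨j - 1, by omega⟩
  have hcard : (gxA H X (j' + 1) x y).ncard < (H.neighborSet X).ncard := by
    have hch : ∀ Y ∈ gxA H X (j' + 1) x y, ∃ z, H.Adj y z ∧ z ≠ x ∧ Y ∈ gxA H X j' y z :=
      fun Y hY => (gxA_succ hxy Y).1 hY
    choose! z hz1 hz2 hz3 using hch
    have hle : (gxA H X (j' + 1) x y).ncard ≤ (H.neighborSet y \ {x}).ncard := by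
      refine Set.ncard_le_ncard_of_injOn z ?_ ?_ (Set.toFinite _)
      · intro Y hY
        exact ⟨hz1 Y hY, hz2 Y hY⟩
      · intro Y hY Y' hY' he
        by_contra hne
        refine hmin j' (by omega) y (z Y) (hz1 Y hY) ⟨Y, hz3 Y hY, Y', ?_, hne⟩
        rw [he]
        exact hz3 Y' hY'
    have hlt : (H.neighborSet y \ {x}).ncard < (H.neighborSet y).ncard :=
      Set.ncard_sdiff_singleton_lt_of_mem (show x ∈ H.neighborSet y from hxy.symm) (Set.toFinite _)
    have hX' := hX y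

    omega
  -- (4)
  have hclaim : ∀ (i : ℕ) (x' y' : V), H.Adj x' y' → Rch H i x' y' x y →
      gxA H X (j' + 1 + i) x' y' = gxA H X (j' + 1) x y := by
    intro i
    induction i with
    | zero =>
      intro x' y' h hr
      obtain ⟨h1, h2⟩ := hr
      subst h1
      subst h2
      rfl
    | succ i ih =>
      intro x' y' h hr
      obtain ⟨z, hz, hzx, hr'⟩ := (rch_front h).1 hr
      have hS := ih y' z hz hr'
      ext Y
      rw [← Nat.add_assoc, gxA_succ h]
      constructor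
      · rintro ⟨z', hz', -, hY⟩
        rw [← hS]
        refine key (j' + 1 + i) y' z z' hz hz' ?_ hY
        rw [hS]
        exact hnt
      · intro hY
        refine ⟨z, hz, hzx, ?_⟩
        rw [hS]
        exact hY
  -- (5)
  obtain ⟨x', y', hx'y', hr⟩ := rch_pred h2 M hxy
  have hS := hclaim M x' y' hx'y' hr
  obtain ⟨Y, hY⟩ := hnt.nonempty
  have hsub : H.neighborSet X ⊆ gxA H X (j' + 1) x y := by
    intro Y' hY'
    rw [← hS] at hY ⊢
    have hpw := (hM (j' + 1 + M) (by omega) x' y' Y X hx'y'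
      (gxA_sub hx'y' hY : H.Adj X Y).symm).1 hY
    exact (hM (j' + 1 + M) (by omega) x' y' Y' X hx'y'
      (show H.Adj X Y' from hY').symm).2 hpw
  have := Set.ncard_le_ncard hsub (Set.toFinite _)
  omega

end Pool.Agent.LHA
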