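import Pool.Agent.LHA.Defs
import Pool.Agent.LHA.Nb1
import Pool.Agent.LHA.Nb2

/-!
# The tripod

`meet`: `A b` is a nonempty set of neighbours of `w b` (allowed first steps). Let `Hd m b = {u | ∃ y ∈ A b, ∃ t,
Rch H m (w b) y t u}`. There is `m` with `Hd m true ∩ Hd m false ≠ ∅`: let `y b ∈ A b`, `m ≥ M` (`nb_all`); there
is a walk of even length `4` from `y true` to `y false` (`y true, w true, v, w false, y false`); take any `u` with
`PWalk H m (y true) u` (e.g. from `rch_succ`: `Rch H m (w true) (y true) t u`), then `PWalk H m (y false) u`,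
and for `t ∼ u` both `Rch H m (w b) (y b) t u`. Take `m` minimal, `u` in the intersection, and `t b` with
`Rch H m (w b) y (t b) u`, `y ∈ A b`. Suppose `Rch H m (w b) y' (t !b) u` with `y' ∈ A b`. If `m = 0` then
`t !b = w b` and `t !b = w !b` (from `Rch H 0 (w !b) _ (t !b) u`), so `w b = w !b`: contradiction. If `m = m' + 1`:
by definition of `Rch` there is `z` with `Rch H m' (w b) y' z (t !b)`, so `t !b ∈ Hd m' b`, and in the same way
`t !b ∈ Hd m' (!b)`: contradiction to the minimality. In particular `t true ≠ t false`.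
`tri`: first apply `meet` to `A b = N(w b) \ {v}` (at least 2 elements): `m1, u, t`. Let
`Pt b = {y ∈ N(w b) \ {v} | Rch H m1 (w b) y (t b) u}` (nonempty), `A' b = {z ∈ N(w b) \ {v} | ∃ y ∈ Pt b, y ≠ z}`:
nonempty because `N(w b) \ {v}` has at least two elements (`y ∈ Pt b`, `z` another one). Apply `meet` to
`A'`: `m2, U, s`.
Soundness: given `b c d y z`: if `c = !b` then `Rch H m1 (w b) y (t !b) u` is excluded; so `c = b`, `y ∈ Pt b`, `z ≠ y`, so
`z ∈ A' b`, and `d = !b` is excluded. Completeness: `z ∈ A' b` with `Rch H m2 (w b) z (s b) U` and `y ∈ Pt b`, `y ≠ z`.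
-/

namespace Pool.Agent.LHA

open Pool.Agent.LIH

theorem meet {V : Type} [Finite V] {H : SimpleGraph V}
    (h3 : ∀ v, 3 ≤ (H.neighborSet v).ncard) {v : V} {w : Bool → V} (hw : ∀ b, H.Adj v (w b))
    (hne : w true ≠ w false) (A : Bool → Set V) (hA : ∀ b, ∀ y ∈ A b, H.Adj (w b) y)
    (hA' : ∀ b, (A b).Nonempty) :
    ∃ (m : ℕ) (u : V) (t : Bool → V), (∀ b, H.Adj u (t b)) ∧ t true ≠ t false ∧
      (∀ b, ∃ y ∈ A b, Rch H m (w b) y (t b) u) ∧ ∀ b, ∀ y ∈ A b, ¬ Rch H m (w b) y (t (!b)) u := by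
  classical
  have h2 : ∀ v, 2 ≤ (H.neighborSet v).ncard := fun v => le_trans (by norm_num) (h3 v)
  obtain ⟨M, hM⟩ := nb_all h3
  have hex : ∃ m, ∃ u, ∀ b, ∃ y ∈ A b, ∃ t, Rch H m (w b) y t u := by
    obtain ⟨y1, hy1⟩ := hA' true
    obtain ⟨y0, hy0⟩ := hA' false
    have a1 := hA true y1 hy1
    have a0 := hA false y0 hy0
    obtain ⟨t, u, hr⟩ := rch_succ h2 M a1
    have htu := rch_adj a1 hr
    obtain ⟨p, hp⟩ := (hM M le_rfl _ _ _ _ a1 htu).1 hr
    have hpw : PWalk H M y0 u := by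
      refine ⟨SimpleGraph.Walk.cons a0.symm (SimpleGraph.Walk.cons (hw false).symm
        (SimpleGraph.Walk.cons (hw true) (SimpleGraph.Walk.cons a1 p))), ?_⟩
      simp only [SimpleGraph.Walk.length_cons]
      omega
    refine ⟨M, u, ?_⟩
    intro b
    cases b
    · exact ⟨y0, hy0, t, (hM M le_rfl _ _ _ _ a0 htu).2 hpw⟩
    · exact ⟨y1, hy1, t, hr⟩
  obtain ⟨u, hu⟩ := Nat.find_spec hex
  have hmin : ∀ m, m < Nat.find hex → ∀ u, ¬ ∀ b, ∃ y ∈ A b, ∃ t, Rch H m (w b) y t u := by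
    intro m hm u h
    exact Nat.find_min hex hm ⟨u, h⟩
  generalize Nat.find hex = m at hu hmin
  choose y hy t ht using hu
  have hex' : ∀ b, ∀ y' ∈ A b, ¬ Rch H m (w b) y' (t (!b)) u := by
    intro b y' hy' hr
    have hr2 := ht (!b)
    rcases Nat.eq_zero_or_pos m with h0 | h0
    · subst h0
      have e1 : t (!b) = w b := hr.1
      have e2 : t (!b) = w (!b) := hr2.1
      have e3 : w b = w (!b) := e1.symm.trans e2
      cases b
      · exact hne e3.symm
      · exact hne e3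
    · obtain ⟨m', rfl⟩ : ∃ m', m = m' + 1 := ⟨m - 1, by omega⟩
      obtain ⟨z, hz, -⟩ := hr
      obtain ⟨z2, hz2, -⟩ := hr2
      refine hmin m' (by omega) (t (!b)) ?_
      intro b'
      by_cases hb : b' = b
      · subst hb
        exact ⟨y', hy', z, hz⟩
      · have hb' : b' = !b := by
          cases b <;> cases b' <;> simp_all
        rw [hb']
        exact ⟨y (!b), hy (!b), z2, hz2⟩
  refine ⟨m, u, t, fun b => (rch_adj (hA b (y b) (hy b)) (ht b)).symm, ?_,
    fun b => ⟨y b, hy b, ht b⟩, hex'⟩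
  intro he
  refine hex' true (y true) (hy true) ?_
  have := ht true
  rw [he] at this
  exact this

theorem tri {V : Type} [Finite V] {H : SimpleGraph V}
    (h3 : ∀ v, 3 ≤ (H.neighborSet v).ncard) {v : V} {w : Bool → V} (hw : ∀ b, H.Adj v (w b))
    (hne : w true ≠ w false) :
    ∃ (m1 : ℕ) (u : V) (t : Bool → V) (m2 : ℕ) (U : V) (s : Bool → V),
      (∀ b, H.Adj u (t b)) ∧ t true ≠ t false ∧ (∀ b, H.Adj U (s b)) ∧ s true ≠ s false ∧
      (∀ b c d y z, H.Adj (w b) y → H.Adj (w b) z → y ≠ v → z ≠ v → y ≠ z →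
        Rch H m1 (w b) y (t c) u → Rch H m2 (w b) z (s d) U → c = b ∧ d = b) ∧
      ∀ b, ∃ y z, H.Adj (w b) y ∧ H.Adj (w b) z ∧ y ≠ v ∧ z ≠ v ∧ y ≠ z ∧
        Rch H m1 (w b) y (t b) u ∧ Rch H m2 (w b) z (s b) U := by
  classical
  -- two elements of `N(w b) \ {v}`
  have htwo : ∀ b, ∀ y, ∃ z, H.Adj (w b) z ∧ z ≠ v ∧ y ≠ z := by
    intro b y
    by_contra hcon
    push Not at hcon
    have hsub : H.neighborSet (w b) ⊆ {v, y} := by
      intro z hz
      by_cases hzv : z = v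
      · left
        exact hzv
      · right
        exact (hcon z hz hzv).symm
    have h1 := Set.ncard_le_ncard hsub (Set.toFinite _)
    have h2 := Set.ncard_insert_le v {y}
    rw [Set.ncard_singleton] at h2
    have h3' := h3 (w b)
    omega
  obtain ⟨m1, u, t, hu, ht, ht1, ht2⟩ := meet h3 hw hne
    (fun b => {y | H.Adj (w b) y ∧ y ≠ v}) (fun b y hy => hy.1) (by
      intro b
      obtain ⟨z, hz, hzv, -⟩ := htwo b v
      exact ⟨z, hz, hzv⟩)
  obtain ⟨m2, U, s, hU, hs, hs1, hs2⟩ := meet h3 hw hne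
    (fun b => {z | H.Adj (w b) z ∧ z ≠ v ∧ ∃ y, H.Adj (w b) y ∧ y ≠ v ∧
      Rch H m1 (w b) y (t b) u ∧ y ≠ z}) (fun b y hy => hy.1) (by
      intro b
      obtain ⟨y, hy, hr⟩ := ht1 b
      obtain ⟨z, hz, hzv, hyz⟩ := htwo b y
      exact ⟨z, hz, hzv, y, hy.1, hy.2, hr, hyz⟩)
  refine ⟨m1, u, t, m2, U, s, hu, ht, hU, hs, ?_, ?_⟩
  · intro b c d y z hy hz hyv hzv hyz hr1 hr2
    have hc : c = b := by
      by_contra hcb
      have hcb' : c = !b := by
        cases b <;> cases c <;> simp_all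
      rw [hcb'] at hr1
      exact ht2 b y ⟨hy, hyv⟩ hr1
    subst hc
    refine ⟨rfl, ?_⟩
    by_contra hdb
    have hdb' : d = !c := by
      cases c <;> cases d <;> simp_all
    rw [hdb'] at hr2
    exact hs2 c z ⟨hz, hzv, y, hy, hyv, hr1, hyz⟩ hr2
  · intro b
    obtain ⟨z, ⟨hz, hzv, y, hy, hyv, hr1, hyz⟩, hr2⟩ := hs1 b
    exact ⟨y, z, hy, hz, hyv, hzv, hyz, hr1, hr2⟩

end Pool.Agent.LHA
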