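import Pool.Agent.LHA.Defs
import Pool.Agent.LHA.Nb1
import Pool.Agent.LHA.Nb2
import Pool.Agent.LHA.Gx
import Pool.Agent.LHA.Tri

/-!
# Kits exist

`gx` gives `j, X, v, w, w', Y0, Y1, Y2`; put `w true = w`, `w false = w'` and apply `tri`.
`Y = ![Y0, Y1, Y2]`; `Y0 ≠ Y1, Y2` because `Y1, Y2` are reached from `w` and `Y0` is not. `H.Adj X (Y i)` by `rch_adj`.
`free_w`, `free_t`, `free_s`: the degree is at least 3 and only 2 values are excluded; `free_Y`: degree at least 4.
(`Set.ncard` of `{w true, w false}` is at most 2, ... ; `Set.exists_mem_notMem_of_ncard_lt_ncard`.)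
-/

namespace Pool.Agent.LHA

open Pool.Agent.LIH

theorem KitEx_free {V : Type} [Finite V] {H : SimpleGraph V} {ι : Type} [Fintype ι] (x : V)
    (f : ι → V) (h : Fintype.card ι < (H.neighborSet x).ncard) :
    ∃ c, H.Adj x c ∧ ∀ i, c ≠ f i := by
  classical
  have h1 : (Set.range f).ncard ≤ Fintype.card ι := by
    rw [← Set.image_univ]
    refine (Set.ncard_image_le Set.finite_univ).trans ?_
    rw [Set.ncard_univ, Nat.card_eq_fintype_card]
  obtain ⟨c, hc, hn⟩ := Set.exists_mem_notMem_of_ncard_lt_ncard (lt_of_le_of_lt h1 h)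
    (Set.finite_range f)
  exact ⟨c, hc, fun i hi => hn ⟨i, hi.symm⟩⟩

theorem kit_exists {V : Type} [Finite V] {H : SimpleGraph V}
    (h3 : ∀ v, 3 ≤ (H.neighborSet v).ncard) (h4 : ∃ v, 4 ≤ (H.neighborSet v).ncard) :
    Nonempty (Kit H) := by
  obtain ⟨j, X, v, w, w', Y0, Y1, Y2, hj, hw, hw', hne, hX, hY, h1, h2, h0, h0'⟩ := gx h3 h4
  have hW : ∀ b, H.Adj v ((fun b : Bool => cond b w w') b) := by
    intro b
    cases b
    · exact hw'
    · exact hw
  obtain ⟨m1, u, t, m2, U, s, ht, hnt, hs, hns, hso, hco⟩ :=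
    tri h3 (v := v) (w := fun b : Bool => cond b w w') hW hne
  have hb : ∀ x, Fintype.card Bool < (H.neighborSet x).ncard := by
    intro x
    have := h3 x
    rw [Fintype.card_bool]
    omega
  exact ⟨{
    v := v
    w := fun b : Bool => cond b w w'
    m1 := m1
    u := u
    t := t
    m2 := m2
    U := U
    s := s
    j := j
    X := X
    Y := ![Y0, Y1, Y2]
    adj_w := hW
    ne_w := hne
    free_w := KitEx_free v _ (hb v)
    adj_t := ht
    ne_t := hnt
    free_t := KitEx_free u _ (hb u)
    adj_s := hs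
    ne_s := hns
    free_s := KitEx_free U _ (hb U)
    tri_sound := hso
    tri_complete := hco
    j_pos := hj
    adj_Y := by
      intro i
      fin_cases i
      · exact (rch_adj hw' h0').symm
      · exact (rch_adj hw h1).symm
      · exact (rch_adj hw h2).symm
    inj_Y := by
      have e1 : Y0 ≠ Y1 := by
        rintro rfl
        exact h0 h1
      have e2 : Y0 ≠ Y2 := by
        rintro rfl
        exact h0 h2
      intro a b hab
      fin_cases a <;> fin_cases b <;> first
        | rfl
        | (exfalso; revert hab; simp [e1, e2, hY, e1.symm, e2.symm, hY.symm])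
    free_Y := KitEx_free X _ (by rw [Fintype.card_fin]; omega)
    cl0 := h0
    cl1 := h1
    cl2 := h2
    cl3 := h0' }⟩

end Pool.Agent.LHA
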