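import Pool.Agent.LHA.Defs
import Pool.Agent.LHA.Deep
import Pool.Agent.LHA.CellRig
import Pool.Agent.LHA.CovInv
import Pool.Agent.LHA.CovGraph

/-!
# Bridgeless asymmetric graphs

`N` from `deep`; `R0 = max N 2`. Let `R ≥ R0`, `f` locally injective on `PG F`. Every `u` with `dep u = R`
satisfies `Srj` (`deep` with `dp`, `W_finite`), and all `nb u y` (`H.Adj (p u) y`) are neighbours of `u`
(`adj_nb`); conversely every neighbour `v` of `u` is `nb u (p v)`.
Let `good b c l`. Put `g x = f (b, c, l, x)`, `ob = f (c, b, sw b c l, c)`, `oc = f (b, l)`. By the definition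
of `nb`: `f (nb (b, c, l, x) y) = cval b c g ob oc x y`. The three hypotheses of `cell_rigid` hold at every `x`
(all `(b, c, l, x)` have depth `R`; `nb u y = nb u y'` implies `y = y'` by `nb_p`). So `g` is bijective,
`ob = g c`, `oc = g b`, and then `cval b c g ob oc x y = g y` whenever `x ∼ y`; by `h1` and `h3` (+ injectivity)
`x ∼ y ↔ g x ∼ g y`, so `g` is an automorphism of `H`, i.e. `g = id`: `f (b, c, l, x) = x` and `f (b, l) = b`.
Now let `dep u = R`. If `u = (b, c, l, x)` then `good b c l` (otherwise the depth is `R + 1`). If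
`u = (b, l)`: there is `c` with `good b c l`: if `e l ≠ b` take any neighbour `c` of `b` (`h2`); if `e l = b` then
`d l = R` and `leaf` gives `c` with `sw b c l = l`.
-/

namespace Pool.Agent.LHA

open Pool.Agent.LIH

/-- a used cell is mapped identically -/
theorem OuterA_cell {V : Type} [Finite V] {H : SimpleGraph V} (hc : H.Connected) (hA : ClsA H)
    {a : V} {R : ℕ} (T : Ball H a R) (hR : 2 ≤ R) (F : Set V) (f : T.W → V)
    (hf : LocInj (T.PG F) H f) (hS : ∀ u, T.dep u = R → Srj H (T.PG F) f u)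
    {b c : V} {l : T.I} (hg : T.good b c l) :
    (∀ x, f (.inr (b, c, l, x)) = x) ∧ f (.inl (b, l)) = b := by
  have hdep : ∀ x, T.dep (.inr (b, c, l, x)) = R := by
    intro x
    unfold Ball.dep
    simp only
    rw [if_pos hg]
  have hp : ∀ x, T.p (.inr (b, c, l, x)) = x := fun _ => rfl
  have hnb : ∀ x y, f (T.nb (.inr (b, c, l, x)) y) = cval b c (fun x => f (.inr (b, c, l, x)))
      (f (.inr (c, b, T.sw b c l, c))) (f (.inl (b, l))) x y := by
    intro x y
    unfold Ball.nb cval
    simp only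
    by_cases h1 : x = b ∧ y = c
    · rw [if_pos ⟨hg, h1⟩, if_pos h1]
    · rw [if_neg (fun h => h1 h.2), if_neg h1]
      by_cases h3 : x = c ∧ y = b
      · rw [if_pos ⟨hg, h3⟩, if_pos h3]
      · rw [if_neg (fun h => h3 h.2), if_neg h3]
  have hadj : ∀ x y, H.Adj x y → (T.PG F).Adj (.inr (b, c, l, x)) (T.nb (.inr (b, c, l, x)) y) := by
    intro x y hxy
    exact T.adj_nb F _ (by rw [hdep]; exact hR) y hxy
  obtain ⟨hbij, hob, hoc⟩ := cell_rigid hc hA.1 hg.1 (fun x => f (.inr (b, c, l, x)))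
    (f (.inr (c, b, T.sw b c l, c))) (f (.inl (b, l)))
    (fun x y hxy => by
      rw [← hnb]
      exact hf.1 _ _ (hadj x y hxy))
    (fun x y y' hxy hxy' he => by
      rw [← hnb, ← hnb] at he
      have h1 := hf.2 _ (hadj x y hxy) (hadj x y' hxy') he
      have h2 := T.nb_p (.inr (b, c, l, x)) y hxy
      have h3 := T.nb_p (.inr (b, c, l, x)) y' hxy'
      rw [← h2, h1, h3])
    (fun x z hz => by
      obtain ⟨v, hv1, hv2⟩ := hS (.inr (b, c, l, x)) (hdep x) z hz
      rw [T.PG_adj] at hv1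
      obtain ⟨⟨h3, h4⟩, -⟩ := hv1
      refine ⟨T.p v, h3, ?_⟩
      rw [← hnb, h4, hv2])
  have hcv : ∀ x y, cval b c (fun x => f (.inr (b, c, l, x)))
      (f (.inr (c, b, T.sw b c l, c))) (f (.inl (b, l))) x y = f (.inr (b, c, l, y)) := by
    intro x y
    unfold cval
    split_ifs with h1 h3
    · rw [hob, h1.2]
    · rw [hoc, h3.2]
    · rfl
  have hiso : ∀ x y, H.Adj (f (.inr (b, c, l, x))) (f (.inr (b, c, l, y))) ↔ H.Adj x y := by
    intro x y
    constructor
    · intro hxy
      obtain ⟨v, hv1, hv2⟩ := hS (.inr (b, c, l, x)) (hdep x) _ hxy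
      rw [T.PG_adj] at hv1
      obtain ⟨⟨h3, h4⟩, -⟩ := hv1
      rw [← h4, hnb, hcv] at hv2
      have h5 := hbij.1 hv2
      rw [← h5]
      exact h3
    · intro hxy
      have h1 := hf.1 _ _ (hadj x y hxy)
      rw [hnb, hcv] at h1
      exact h1
  let φ : H ≃g H := { Equiv.ofBijective _ hbij with map_rel_iff' := fun {x y} => hiso x y }
  have hid : ∀ x, f (.inr (b, c, l, x)) = x := fun x => hA.2 φ x
  exact ⟨hid, by rw [hoc, hid]⟩

theorem outerA {V : Type} [Finite V] {H : SimpleGraph V} (hc : H.Connected)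
    (h2 : ∀ v, 2 ≤ (H.neighborSet v).ncard) (hA : ClsA H) : Outer H := by
  obtain ⟨N, hN⟩ := deep hc
  refine ⟨max N 2, ?_⟩
  intro a R T F hR _ f hf u hu
  have hR2 : 2 ≤ R := le_trans (le_max_right _ _) hR
  have hRN : N ≤ R := le_trans (le_max_left _ _) hR
  have hS : ∀ u, T.dep u = R → Srj H (T.PG F) f u := fun u hu =>
    hN T.W T.W_finite (T.PG F) T.p T.dep (T.dp hR2 F) f hf u (by rw [hu]; exact hRN)
  rcases u with ⟨b, l⟩ | ⟨b, c, l, x⟩
  · have hg : ∃ c, T.good b c l := by
      by_cases hb : T.e l = b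
      · have hd : T.d l = R := by
          unfold Ball.dep at hu
          simp only at hu
          rwa [if_pos hb] at hu
        obtain ⟨c, hc1, hc2⟩ := T.leaf l hd
        rw [hb] at hc1 hc2
        exact ⟨c, hc1, fun h => h.2 hc2⟩
      · have h3 := h2 b
        have h4 : (H.neighborSet b).Nonempty := by
          rw [Set.nonempty_iff_ne_empty]
          intro h5
          rw [h5, Set.ncard_empty] at h3
          omega
        obtain ⟨c, hc1⟩ := h4
        exact ⟨c, hc1, fun h => hb h.1⟩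
    obtain ⟨c, hg⟩ := hg
    exact (OuterA_cell hc hA T hR2 F f hf hS hg).2
  · have hg : T.good b c l := by
      by_contra hcon
      unfold Ball.dep at hu
      simp only at hu
      rw [if_neg hcon] at hu
      omega
    exact (OuterA_cell hc hA T hR2 F f hf hS hg).1 x

end Pool.Agent.LHA
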