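import Pool.Agent.LHA.Defs
import Pool.Agent.LHA.CRDeep
import Pool.Agent.LHA.CRStab
import Pool.Agent.LHA.CovGraph

/-!
# Graphs with discrete colour refinement

`N` from `crel_deep`, `k` from `crel_stab`, `R0 = max (N + k) 2`. For `dep u = R ≥ R0` apply `crel_deep` to
`PG F` (`dp`, `W_finite`).
-/

namespace Pool.Agent.LHA

open Pool.Agent.LIH

theorem outerD {V : Type} [Finite V] {H : SimpleGraph V} (hc : H.Connected)
    (hD : ClsD H) : Outer H := by
  obtain ⟨N, hN⟩ := crel_deep hc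
  obtain ⟨k, hk⟩ := crel_stab hD
  refine ⟨max (N + k) 2, fun a R T F hR hF f hf u hu => hk _ _ ?_⟩
  have h2 : 2 ≤ R := le_trans (le_max_right _ _) hR
  have h3 : N + k ≤ R := le_trans (le_max_left _ _) hR
  exact hN T.W (T.W_finite) (T.PG F) T.p T.dep (T.dp h2 F) f hf k u (by omega)

end Pool.Agent.LHA
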