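import Pool.Agent.LHA.Defs
import Pool.Agent.LHA.OuterA
import Pool.Agent.LHA.OuterD
import Pool.Agent.LHA.Inward
import Pool.Agent.LHA.KitEx
import Pool.Agent.LHA.GadEx
import Pool.Agent.LHA.HardG
import Pool.Agent.LIH.Member

/-!
# The theorem
-/

namespace Pool.Agent.LHA

open Pool.Agent.LIH

open NPC in
theorem npc_of_class {n : ℕ} {H : SimpleGraph (Fin n)} (hc : H.Connected)
    (h3 : ∀ v, 3 ≤ (H.neighborSet v).ncard) (h4 : ∃ v, 4 ≤ (H.neighborSet v).ncard)
    (h : ClsA H ∨ ClsD H) : NPComplete (LIHOM H) := by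
  have h2 : ∀ v, 2 ≤ (H.neighborSet v).ncard := fun v => le_trans (by norm_num) (h3 v)
  have ho : Outer H := by
    rcases h with h | h
    · exact outerA hc h2 h
    · exact outerD hc h
  obtain ⟨D⟩ := kit_exists h3 h4
  obtain ⟨D⟩ := gad_exists D (pins_of_outer h2 ho)
  exact ⟨lihom_mem_np H, fun _ hL => reduces_of_gad D hL⟩

end Pool.Agent.LHA
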